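import Mathlib

/-!
# Polycyclic groups
-/

namespace Pool.Agent.Helper11.Gap

/-- A group is polycyclic if it has a finite chain `1 = H 0 ≤ H 1 ≤ … ≤ H n = G` in which
`H (i + 1)` is generated by `H i` and an element normalizing `H i` (so that `H i` is normal in
`H (i + 1)` with cyclic quotient). -/
def IsPolycyclic (G : Type*) [Group G] : Prop :=
  ∃ (n : ℕ) (H : ℕ → Subgroup G), H 0 = ⊥ ∧ H n = ⊤ ∧
    ∀ i < n, ∃ g : G, (∀ x, x ∈ H i ↔ g * x * g⁻¹ ∈ H i) ∧ H (i + 1) = H i ⊔ Subgroup.zpowers g

variable {G : Type*} [Group G]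

/-- The subgroup `K` is the end of a chain. -/
def HasChain (K : Subgroup G) : Prop :=
  ∃ (n : ℕ) (H : ℕ → Subgroup G), H 0 = ⊥ ∧ H n = K ∧
    ∀ i < n, ∃ g : G, (∀ x, x ∈ H i ↔ g * x * g⁻¹ ∈ H i) ∧ H (i + 1) = H i ⊔ Subgroup.zpowers g

theorem hasChain_bot : HasChain (⊥ : Subgroup G) :=
  ⟨0, fun _ => ⊥, rfl, rfl, fun i hi => absurd hi (Nat.not_lt_zero i)⟩

theorem HasChain.adjoin {K : Subgroup G} (h : HasChain K) {g : G}
    (hg : ∀ x, x ∈ K ↔ g * x * g⁻¹ ∈ K) :
    HasChain (K ⊔ Subgroup.zpowers g) := by
  obtain ⟨n, H, h0, hn, hs⟩ := h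
  refine ⟨n + 1, fun i => if i ≤ n then H i else K ⊔ Subgroup.zpowers g, ?_, ?_, ?_⟩
  · simp [h0]
  · simp
  · intro i hi
    rcases Nat.lt_or_ge i n with h | h
    · obtain ⟨g', h1, h2⟩ := hs i h
      refine ⟨g', ?_, ?_⟩
      · simp only [h.le, if_true]; exact h1
      · simp only [h.le, if_true, Nat.succ_le_of_lt h]; exact h2
    · have : i = n := by omega
      subst this
      refine ⟨g, ?_, ?_⟩
      · simp only [le_refl, if_true, hn]; exact hg
      · simp [hn]

/-- Passing from a chain ending in `A` to one ending in `B` if `B` is finitely generated and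
`[B, B] ≤ A ≤ B`. -/
theorem HasChain.extend {A B : Subgroup G} (h : HasChain A) (hAB : A ≤ B) (hB : B.FG)
    (hcomm : ⁅B, B⁆ ≤ A) : HasChain B := by
  classical
  obtain ⟨S, hS⟩ := hB
  have key : ∀ S' : Finset G, (S' : Set G) ⊆ B → HasChain (A ⊔ Subgroup.closure (S' : Set G)) := by
    intro S'
    induction S' using Finset.induction_on with
    | empty => intro _; simpa using h
    | insert g S' hgS' ih =>
      intro hsub
      have hgB : g ∈ B := hsub (by simp)
      have hS'B : (S' : Set G) ⊆ B := fun x hx => hsub (by simp [Finset.mem_coe.1 hx])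
      have ih' := ih hS'B
      set H := A ⊔ Subgroup.closure (S' : Set G) with hH
      have hAH : A ≤ H := le_sup_left
      have hHB : H ≤ B := sup_le hAB ((Subgroup.closure_le _).2 hS'B)
      have hconj : ∀ x ∈ B, ∀ y ∈ H, x * y * x⁻¹ ∈ H := by
        intro x hx y hy
        have e : x * y * x⁻¹ = (x * y * x⁻¹ * y⁻¹) * y := by group
        rw [e]
        refine H.mul_mem (hAH (hcomm ?_)) hy
        exact Subgroup.commutator_mem_commutator hx (hHB hy)
      have hn : ∀ y, y ∈ H ↔ g * y * g⁻¹ ∈ H := by
        intro y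
        constructor
        · intro hy; exact hconj g hgB y hy
        · intro hy
          have := hconj g⁻¹ (B.inv_mem hgB) _ hy
          have e : g⁻¹ * (g * y * g⁻¹) * g⁻¹⁻¹ = y := by group
          rwa [e] at this
      have := ih'.adjoin hn
      have e : H ⊔ Subgroup.zpowers g = A ⊔ Subgroup.closure ((insert g S' : Finset G) : Set G) := by
        rw [hH, Finset.coe_insert, Set.insert_eq, Subgroup.closure_union,
          Subgroup.zpowers_eq_closure, sup_assoc, sup_comm (Subgroup.closure (S' : Set G))]
      rwa [e] at this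
  have := key S (by rw [← hS]; exact Subgroup.subset_closure)
  rw [hS, sup_eq_right.2 hAB] at this
  exact this

/-- A group with finitely generated derived subgroup `G'`, such that the abelianization of `G''` is
finitely generated, is polycyclic modulo `G'''`. -/
theorem isPolycyclic_quotient [hG : Group.FG G] (h1 : (commutator G).FG)
    (h2 : Group.FG (Abelianization (commutator (commutator G)))) :
    IsPolycyclic (G ⧸ derivedSeries G 3) := by
  set π := QuotientGroup.mk' (derivedSeries G 3) with hπ
  have hsurj : Function.Surjective π := QuotientGroup.mk'_surjective _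
  set A1 := (commutator G).map π with hA1
  set A2 := (derivedSeries G 2).map π with hA2
  have e1 : derivedSeries G 1 = commutator G := by
    rw [derivedSeries_succ, derivedSeries_zero]; rfl
  have e2 : derivedSeries G 2 = ⁅commutator G, commutator G⁆ := by
    rw [derivedSeries_succ, e1]
  have c2 : ⁅A2, A2⁆ = ⊥ := by
    rw [hA2, ← Subgroup.map_commutator, ← derivedSeries_succ, Subgroup.map_eq_bot_iff, hπ,
      QuotientGroup.ker_mk']
  have c1 : ⁅A1, A1⁆ = A2 := by
    rw [hA1, ← Subgroup.map_commutator, hA2, e2]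
  have c0 : ⁅(⊤ : Subgroup (G ⧸ derivedSeries G 3)), ⊤⁆ = A1 := by
    rw [← Subgroup.map_top_of_surjective π hsurj, ← Subgroup.map_commutator, hA1]
    rfl
  -- finite generation
  have f0 : (⊤ : Subgroup (G ⧸ derivedSeries G 3)).FG := by
    have : Group.FG (G ⧸ derivedSeries G 3) := inferInstance
    exact Group.fg_def.1 this
  have f1 : A1.FG := by
    obtain ⟨S, hS⟩ := h1
    classical
    refine ⟨S.image π, ?_⟩
    rw [Finset.coe_image, ← MonoidHom.map_closure, hS]
  have f2 : A2.FG := by
    let φ : (commutator (commutator G)) →* (G ⧸ derivedSeries G 3) :=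
      π.comp ((commutator G).subtype.comp (commutator (commutator G)).subtype)
    have hmapC : (commutator (commutator G)).map (commutator G).subtype =
        derivedSeries G 2 := by
      rw [e2, commutator_def (commutator G), Subgroup.map_commutator, ← MonoidHom.range_eq_map,
        Subgroup.range_subtype]
    have hφrange : φ.range = A2 := by
      rw [MonoidHom.range_eq_map, ← Subgroup.map_map, ← Subgroup.map_map,
        ← MonoidHom.range_eq_map, Subgroup.range_subtype, hmapC]
    have hker : commutator (commutator (commutator G)) ≤ φ.ker := by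
      rw [← Subgroup.map_eq_bot_iff]
      change Subgroup.map φ ⁅(⊤ : Subgroup (commutator (commutator G))), ⊤⁆ = ⊥
      rw [Subgroup.map_commutator, ← MonoidHom.range_eq_map, hφrange, c2]
    let ψ : Abelianization (commutator (commutator G)) →* (G ⧸ derivedSeries G 3) :=
      QuotientGroup.lift _ φ hker
    have hψ : ψ.range = A2 := by
      rw [← hφrange]
      apply le_antisymm
      · rintro _ ⟨x, rfl⟩
        obtain ⟨y, rfl⟩ := QuotientGroup.mk_surjective x
        exact ⟨y, rfl⟩
      · rintro _ ⟨y, rfl⟩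
        exact ⟨QuotientGroup.mk y, rfl⟩
    rw [← hψ]
    have : Group.FG ψ.range := Group.fg_range ψ
    exact (Group.fg_iff_subgroup_fg _).1 this
  have s2 : HasChain A2 := hasChain_bot.extend bot_le f2 (by rw [c2])
  have s1 : HasChain A1 := s2.extend (by
    rw [← c1]; exact Subgroup.commutator_le_self A1) f1 (by rw [c1])
  exact s1.extend le_top f0 (by rw [c0])

theorem IsPolycyclic.of_equiv {H : Type*} [Group H] (e : G ≃* H) (h : IsPolycyclic G) :
    IsPolycyclic H := by
  obtain ⟨n, C, h0, hn, hs⟩ := h
  refine ⟨n, fun i => (C i).map e.toMonoidHom, ?_, ?_, ?_⟩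
  · simp only; rw [h0, Subgroup.map_bot]
  · simp only
    rw [hn]
    exact Subgroup.map_top_of_surjective e.toMonoidHom e.surjective
  · intro i hi
    obtain ⟨g, hg, hgi⟩ := hs i hi
    refine ⟨e g, ?_, ?_⟩
    · intro y
      obtain ⟨x, rfl⟩ := e.surjective y
      have h1 : e x ∈ (C i).map e.toMonoidHom ↔ x ∈ C i :=
        Subgroup.mem_map_iff_mem e.injective
      have h2 : e g * e x * (e g)⁻¹ ∈ (C i).map e.toMonoidHom ↔ g * x * g⁻¹ ∈ C i := by
        rw [← map_inv, ← map_mul, ← map_mul]
        exact Subgroup.mem_map_iff_mem e.injective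
      rw [h1, h2]
      exact hg x
    · simp only
      rw [hgi, Subgroup.map_sup]
      congr 1
      exact MonoidHom.map_zpowers _ _

end Pool.Agent.Helper11.Gap
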