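import Mathlib

/-!
# Affine representations of a subgroup over a valued field, and two ping-pong lemmas
-/

namespace Pool.Agent.Helper11.Gap

variable {G : Type*} [Group G] {K : Type*} [Field K]

/-- An affine representation of the subgroup `N` on the line over `K`: `n` acts by
`z ↦ χ n * z + β n`. The functions are defined on `G`, only their values on `N` matter. -/
structure AffRep (N : Subgroup G) (K : Type*) [Field K] where
  χ : G → K
  β : G → K
  χ_one : χ 1 = 1
  χ_mul : ∀ a ∈ N, ∀ b ∈ N, χ (a * b) = χ a * χ b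
  β_mul : ∀ a ∈ N, ∀ b ∈ N, β (a * b) = β a + χ a * β b

namespace AffRep

variable {N : Subgroup G} (R : AffRep N K)

/-- The affine action. -/
def act (a : G) (z : K) : K := R.χ a * z + R.β a

theorem β_one : R.β 1 = 0 := by
  have h := R.β_mul 1 N.one_mem 1 N.one_mem
  rw [mul_one, R.χ_one, one_mul] at h
  exact left_eq_add.1 h

theorem act_one (z : K) : R.act 1 z = z := by
  rw [act, R.χ_one, R.β_one]; ring

theorem act_mul {a b : G} (ha : a ∈ N) (hb : b ∈ N) (z : K) :
    R.act (a * b) z = R.act a (R.act b z) := by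
  simp only [act]
  rw [R.χ_mul a ha b hb, R.β_mul a ha b hb]; ring

theorem χ_mul_inv {a : G} (ha : a ∈ N) : R.χ a * R.χ a⁻¹ = 1 := by
  rw [← R.χ_mul a ha a⁻¹ (N.inv_mem ha), mul_inv_cancel, R.χ_one]

theorem χ_ne_zero {a : G} (ha : a ∈ N) : R.χ a ≠ 0 := by
  intro h
  have := R.χ_mul_inv ha
  rw [h, zero_mul] at this
  exact zero_ne_one this

theorem χ_inv {a : G} (ha : a ∈ N) : R.χ a⁻¹ = (R.χ a)⁻¹ :=
  eq_inv_of_mul_eq_one_right (R.χ_mul_inv ha)

theorem act_inv_act {a : G} (ha : a ∈ N) (z : K) : R.act a⁻¹ (R.act a z) = z := by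
  rw [← R.act_mul (N.inv_mem ha) ha, inv_mul_cancel, R.act_one]

theorem act_act_inv {a : G} (ha : a ∈ N) (z : K) : R.act a (R.act a⁻¹ z) = z := by
  rw [← R.act_mul ha (N.inv_mem ha), mul_inv_cancel, R.act_one]

theorem act_injective {a : G} (ha : a ∈ N) : Function.Injective (R.act a) :=
  Function.LeftInverse.injective (R.act_inv_act ha)

theorem act_sub (a : G) (z w : K) : R.act a z - R.act a w = R.χ a * (z - w) := by
  simp only [act]; ring

/-- Fixing a point passes to inverses. -/
theorem fix_inv {a : G} (ha : a ∈ N) {z : K} (h : R.act a z = z) : R.act a⁻¹ z = z := by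
  conv_lhs => rw [← h]
  exact R.act_inv_act ha z

theorem fix_mul {a b : G} (ha : a ∈ N) (hb : b ∈ N) {z : K} (h : R.act a z = z)
    (h' : R.act b z = z) : R.act (a * b) z = z := by
  rw [R.act_mul ha hb, h', h]

/-- A map with `χ ≠ 1` has at most one fixed point. -/
theorem fix_unique {a : G} (hχ : R.χ a ≠ 1) {z w : K} (hz : R.act a z = z)
    (hw : R.act a w = w) : z = w := by
  have h := R.act_sub a z w
  rw [hz, hw] at h
  have h1 : (1 - R.χ a) * (z - w) = 0 := by linear_combination h
  rcases mul_eq_zero.1 h1 with h2 | h2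
  · exact absurd (sub_eq_zero.1 h2).symm hχ
  · exact sub_eq_zero.1 h2

/-- The fixed point. -/
def ctr (a : G) : K := R.β a / (1 - R.χ a)

theorem act_ctr {a : G} (hχ : R.χ a ≠ 1) : R.act a (R.ctr a) = R.ctr a := by
  have h : (1 - R.χ a) ≠ 0 := sub_ne_zero.2 (Ne.symm hχ)
  rw [act, ctr]
  field_simp
  ring

theorem eq_ctr {a : G} (hχ : R.χ a ≠ 1) {z : K} (hz : R.act a z = z) : z = R.ctr a :=
  R.fix_unique hχ hz (R.act_ctr hχ)

/-- The representation conjugated by `h`: `n` acts as `h⁻¹ n h`. -/
def at' (R : AffRep N K) [hN : N.Normal] (h : G) : AffRep N K where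
  χ a := R.χ (h⁻¹ * a * h)
  β a := R.β (h⁻¹ * a * h)
  χ_one := by simp [R.χ_one]
  χ_mul a ha b hb := by
    have e : h⁻¹ * (a * b) * h = (h⁻¹ * a * h) * (h⁻¹ * b * h) := by group
    have h1 := hN.conj_mem a ha h⁻¹
    have h2 := hN.conj_mem b hb h⁻¹
    rw [inv_inv] at h1 h2
    rw [e, R.χ_mul _ h1 _ h2]
  β_mul a ha b hb := by
    have e : h⁻¹ * (a * b) * h = (h⁻¹ * a * h) * (h⁻¹ * b * h) := by group
    have h1 := hN.conj_mem a ha h⁻¹
    have h2 := hN.conj_mem b hb h⁻¹
    rw [inv_inv] at h1 h2
    rw [e, R.β_mul _ h1 _ h2]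

variable [hN : N.Normal]

theorem at'_χ (h a : G) : (R.at' h).χ a = R.χ (h⁻¹ * a * h) := rfl

theorem at'_act (h a : G) (z : K) : (R.at' h).act a z = R.act (h⁻¹ * a * h) z := rfl

/-- Moving the place: conjugating the element by `k` is the same as moving the place. -/
theorem at'_conj_act (h k a : G) (z : K) :
    (R.at' h).act (k⁻¹ * a * k) z = (R.at' (k * h)).act a z := by
  rw [at'_act, at'_act]
  congr 1
  group

theorem at'_conj_χ (h k a : G) :
    (R.at' h).χ (k⁻¹ * a * k) = (R.at' (k * h)).χ a := by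
  rw [at'_χ, at'_χ]
  congr 1
  group

omit hN in
/-- `χ` is invariant under conjugation by elements of `N`. -/
theorem χ_conj {a n : G} (ha : a ∈ N) (hn : n ∈ N) : R.χ (n⁻¹ * a * n) = R.χ a := by
  rw [R.χ_mul _ (N.mul_mem (N.inv_mem hn) ha) _ hn, R.χ_mul _ (N.inv_mem hn) _ ha, R.χ_inv hn]
  have := R.χ_ne_zero hn
  field_simp

/-- `(R.at' h).χ` only depends on `h` modulo `N`. -/
theorem at'_χ_mul_mem (h n : G) (hn : n ∈ N) {a : G} (ha : a ∈ N) :
    (R.at' (h * n)).χ a = (R.at' h).χ a := by
  rw [at'_χ, at'_χ]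
  have h1 := hN.conj_mem a ha h⁻¹
  rw [inv_inv] at h1
  have e : (h * n)⁻¹ * a * (h * n) = n⁻¹ * (h⁻¹ * a * h) * n := by group
  rw [e, R.χ_conj h1 hn]

end AffRep

section decode

variable {Γ₀ : Type*} [LinearOrderedCommGroupWithZero Γ₀] (v : Valuation K Γ₀)

/-- Composition of the contractions `z ↦ c + α (z - c)`, `c` in the list. -/
def compo (α : K) : List K → K → K
  | [], z => z
  | c :: l, z => c + α * (compo α l z - c)

theorem compo_cons (α c : K) (l : List K) (z : K) :
    compo α (c :: l) z = c + α * (compo α l z - c) := rfl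

theorem compo_sub_le {α : K} (hα : v α < 1) {r : Γ₀} {l l' : List K}
    (h : List.Forall₂ (fun c c' => c = c' ∨ v (c - c') = r) l l') (z : K) :
    v (compo α l z - compo α l' z) ≤ r := by
  induction h with
  | nil => simp [compo]
  | @cons c c' l l' hc _ ih =>
    rw [compo_cons, compo_cons]
    have e : c + α * (compo α l z - c) - (c' + α * (compo α l' z - c'))
        = (1 - α) * (c - c') + α * (compo α l z - compo α l' z) := by ring
    rw [e]
    refine v.map_add_le ?_ ?_
    · rw [map_mul, v.map_one_sub_of_lt hα, one_mul]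
      rcases hc with hc | hc
      · rw [hc, sub_self, map_zero]; exact zero_le
      · exact hc.le
    · rw [map_mul]
      calc v α * v (compo α l z - compo α l' z) ≤ 1 * r :=
            mul_le_mul' hα.le ih
        _ = r := one_mul r

theorem compo_decode {α : K} (hα : v α < 1) (hα0 : α ≠ 0) {r : Γ₀} {l l' : List K}
    (h : List.Forall₂ (fun c c' => c = c' ∨ (v (c - c') = r)) l l') (hr : r ≠ 0) (z : K)
    (heq : compo α l z = compo α l' z) : l = l' := by
  induction h with
  | nil => rfl
  | @cons c c' l l' hc hl ih =>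
    rw [compo_cons, compo_cons] at heq
    have e : (1 - α) * (c - c') = α * (compo α l' z - compo α l z) := by linear_combination heq
    rcases hc with hc | hc
    · rw [hc, sub_self, mul_zero] at e
      have h1 : compo α l' z - compo α l z = 0 := by
        rcases mul_eq_zero.1 e.symm with h | h
        · exact absurd h hα0
        · exact h
      rw [hc, ih (sub_eq_zero.1 h1).symm]
    · exfalso
      have h1 : v ((1 - α) * (c - c')) = r := by
        rw [map_mul, v.map_one_sub_of_lt hα, one_mul, hc]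
      have h2 : v (α * (compo α l' z - compo α l z)) < r := by
        rw [map_mul, ← v.map_neg (compo α l' z - compo α l z), neg_sub]
        calc v α * v (compo α l z - compo α l' z) ≤ v α * r :=
              mul_le_mul_right (compo_sub_le v hα hl z) _
          _ < 1 * r := by
              have hr' : (0 : Γ₀) < r := zero_lt_iff.2 hr
              exact mul_lt_mul_of_pos_right hα hr'
          _ = r := one_mul r
      rw [← e, h1] at h2
      exact lt_irrefl _ h2

end decode

end Pool.Agent.Helper11.Gap
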