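import Pool.Agent.Helper11.Gap.Affine

/-!
# The first family of free semigroups
-/

namespace Pool.Agent.Helper11.Gap

variable {G : Type*} [Group G] {K : Type*} [Field K]

open Classical in
/-- The product of the `Y t` over `t ∈ J`, `a ≤ t < a + n`, later times on the left. -/
noncomputable def seg (Y : ℕ → G) (J : Finset ℕ) (a : ℕ) : ℕ → G
  | 0 => 1
  | n + 1 => (if a + n ∈ J then Y (a + n) else 1) * seg Y J a n

open Classical in
theorem seg_succ (Y : ℕ → G) (J : Finset ℕ) (a n : ℕ) :
    seg Y J a (n + 1) = (if a + n ∈ J then Y (a + n) else 1) * seg Y J a n := by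
  rw [seg]

theorem seg_add (Y : ℕ → G) (J : Finset ℕ) (a m n : ℕ) :
    seg Y J a (m + n) = seg Y J (a + m) n * seg Y J a m := by
  induction n with
  | zero => simp [seg]
  | succ n ih =>
    rw [← add_assoc, seg_succ, ih, seg_succ, mul_assoc, add_assoc]

theorem seg_congr (Y : ℕ → G) {J J' : Finset ℕ} (a n : ℕ)
    (h : ∀ t, a ≤ t → (t ∈ J ↔ t ∈ J')) : seg Y J a n = seg Y J' a n := by
  induction n with
  | zero => rfl
  | succ n ih =>
    rw [seg_succ, seg_succ, ih]
    have := h (a + n) (Nat.le_add_right _ _)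
    by_cases h1 : a + n ∈ J
    · rw [if_pos h1, if_pos (this.1 h1)]
    · rw [if_neg h1, if_neg (fun h2 => h1 (this.2 h2))]

theorem seg_mem {N : Subgroup G} {Y : ℕ → G} (hY : ∀ t, Y t ∈ N) (J : Finset ℕ) (a n : ℕ) :
    seg Y J a n ∈ N := by
  induction n with
  | zero => exact N.one_mem
  | succ n ih =>
    rw [seg_succ]
    refine N.mul_mem ?_ ih
    split_ifs
    · exact hY _
    · exact N.one_mem

/-- The block attached to a set of times. -/
noncomputable def blk (Y : ℕ → G) (u : G) (D : ℕ) (J : Finset ℕ) : G :=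
  seg Y J 0 D * u * (seg Y J 0 D)⁻¹

theorem act_blk {N : Subgroup G} (R : AffRep N K) {Y : ℕ → G}
    (hY : ∀ t, Y t ∈ N) {u : G} (hu : u ∈ N) {o : K} (ho : R.act u o = o) (D : ℕ)
    (J : Finset ℕ) (z : K) :
    R.act (blk Y u D J) z = R.act (seg Y J 0 D) o + R.χ u * (z - R.act (seg Y J 0 D) o) := by
  have hs := seg_mem hY J 0 D
  set s := seg Y J 0 D with hsdef
  rw [blk, R.act_mul (N.mul_mem hs hu) (N.inv_mem hs), R.act_mul hs hu]
  set w := R.act s⁻¹ z with hw
  have hz : R.act s w = z := R.act_act_inv hs z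
  have h1 : R.act u w = o + R.χ u * (w - o) := by
    have := R.act_sub u w o
    rw [ho] at this
    linear_combination this
  have h2 := R.act_sub s (R.act u w) o
  have h3 := R.act_sub s w o
  rw [hz] at h3
  rw [h1] at h2
  rw [h1]
  linear_combination h2 - R.χ u * h3

theorem act_list_prod {N : Subgroup G} (R : AffRep N K) {ι : Type*} (e : ι → G)
    (he : ∀ j, e j ∈ N) (c : ι → K) (α : K) (h : ∀ j z, R.act (e j) z = c j + α * (z - c j))
    (L : List ι) (z : K) : (L.map e).prod ∈ N ∧
      R.act (L.map e).prod z = compo α (L.map c) z := by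
  induction L with
  | nil => exact ⟨N.one_mem, by simp [compo, R.act_one]⟩
  | cons j L ih =>
    rw [List.map_cons, List.map_cons, List.prod_cons, compo_cons]
    refine ⟨N.mul_mem (he j) ih.1, ?_⟩
    rw [R.act_mul (he j) ih.1, ih.2, h]

variable {Γ₀ : Type*} [LinearOrderedCommGroupWithZero Γ₀] (v : Valuation K Γ₀)

theorem v_χ_seg {N : Subgroup G} (R : AffRep N K) {Y : ℕ → G}
    (hY : ∀ t, Y t ∈ N) (J : Finset ℕ) (a n : ℕ) (h : ∀ t, a ≤ t → t < a + n → v (R.χ (Y t)) = 1) :
    v (R.χ (seg Y J a n)) = 1 := by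
  induction n with
  | zero => simp [seg, R.χ_one]
  | succ n ih =>
    have ih' := ih (fun t h1 h2 => h t h1 (by omega))
    rw [seg_succ]
    have hs := seg_mem hY J a n
    split_ifs with hJ
    · rw [R.χ_mul _ (hY _) _ hs, map_mul, ih', mul_one]
      exact h _ (Nat.le_add_right _ _) (by omega)
    · rw [one_mul, ih']

theorem fix_seg {N : Subgroup G} (R : AffRep N K) {Y : ℕ → G}
    (hY : ∀ t, Y t ∈ N) (J : Finset ℕ) (a n : ℕ) (o : K)
    (h : ∀ t, a ≤ t → t < a + n → R.act (Y t) o = o) :
    R.act (seg Y J a n) o = o := by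
  induction n with
  | zero => simp [seg, R.act_one]
  | succ n ih =>
    have ih' := ih (fun t h1 h2 => h t h1 (by omega))
    rw [seg_succ]
    have hs := seg_mem hY J a n
    split_ifs with hJ
    · rw [R.act_mul (hY _) hs, ih']
      exact h _ (Nat.le_add_right _ _) (by omega)
    · rw [one_mul, ih']

theorem forall₂_of_length {α β : Type*} {P : α → Prop} {Q : β → Prop} {L : List α} {L' : List β}
    (hlen : L.length = L'.length) (hP : ∀ a ∈ L, P a) (hQ : ∀ a ∈ L', Q a) :
    List.Forall₂ (fun a b => P a ∧ Q b) L L' := by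
  induction L generalizing L' with
  | nil =>
    cases L' with
    | nil => exact List.Forall₂.nil
    | cons b L' => simp at hlen
  | cons a L ih =>
    cases L' with
    | nil => simp at hlen
    | cons b L' =>
      refine List.Forall₂.cons ⟨hP a (by simp), hQ b (by simp)⟩ (ih (by simpa using hlen) ?_ ?_)
      · intro x hx; exact hP x (by simp [hx])
      · intro x hx; exact hQ x (by simp [hx])

theorem caseOne {N : Subgroup G} (D : ℕ) (R : ℕ → AffRep N K) (o : K)
    {u : G} (hu : u ∈ N) {Y : ℕ → G} (hY : ∀ t, Y t ∈ N) (I : Finset ℕ) (hI : ∀ i ∈ I, i < D)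
    (ha : ∀ i ∈ I, (R i).act u o = o) (hα : ∀ i ∈ I, v ((R i).χ u) < 1)
    (hb : ∀ i ∈ I, ∀ t < i, (R i).act (Y t) o = o)
    (hc : ∀ i ∈ I, (R i).act (Y i) o ≠ o)
    (hd : ∀ i ∈ I, ∀ t, i < t → t < D → v ((R i).χ (Y t)) = 1)
    (L L' : List (Finset ℕ)) (hL : ∀ J ∈ L, J ⊆ I) (hL' : ∀ J ∈ L', J ⊆ I)
    (hlen : L.length = L'.length)
    (heq : (L.map (blk Y u D)).prod = (L'.map (blk Y u D)).prod) : L = L' := by
  have h0 := forall₂_of_length hlen hL hL'
  have key : ∀ k ≤ D, List.Forall₂ (fun J J' : Finset ℕ => (J ⊆ I ∧ J' ⊆ I) ∧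
      ∀ t, D - k ≤ t → (t ∈ J ↔ t ∈ J')) L L' := by
    intro k
    induction k with
    | zero =>
      intro _
      refine h0.imp ?_
      intro J J' h
      refine ⟨h, ?_⟩
      intro t ht
      constructor
      · intro h1; have := hI t (h.1 h1); omega
      · intro h1; have := hI t (h.2 h1); omega
    | succ k ih =>
      intro hk
      have ihk := ih (by omega)
      obtain ⟨i, hi⟩ : ∃ i, i = D - (k + 1) := ⟨_, rfl⟩
      have hiD : i < D := by omega
      have hk' : D - k = i + 1 := by omega
      rw [hk'] at ihk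
      rw [← hi]
      by_cases hiI : i ∈ I
      swap
      · refine ihk.imp ?_
        rintro J J' ⟨h1, h2⟩
        refine ⟨h1, fun t ht => ?_⟩
        rcases Nat.eq_or_lt_of_le ht with rfl | ht
        · exact ⟨fun h => absurd (h1.1 h) hiI, fun h => absurd (h1.2 h) hiI⟩
        · exact h2 t ht
      -- the main case
      set c : Finset ℕ → K := fun J => (R i).act (seg Y J 0 D) o with hcdef
      have hblk : ∀ J, blk Y u D J ∈ N := fun J => by
        have := seg_mem hY J 0 D
        exact N.mul_mem (N.mul_mem this hu) (N.inv_mem this)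
      have hact : ∀ (J : Finset ℕ) z, (R i).act (blk Y u D J) z =
          c J + (R i).χ u * (z - c J) := fun J z =>
        act_blk (R i) hY hu (ha i hiI) D J z
      have e1 := (act_list_prod (R i) (blk Y u D) hblk c ((R i).χ u) hact L o).2
      have e2 := (act_list_prod (R i) (blk Y u D) hblk c ((R i).χ u) hact L' o).2
      rw [heq, e2] at e1
      have hpair : ∀ J J' : Finset ℕ, (∀ t, i + 1 ≤ t → (t ∈ J ↔ t ∈ J')) →
          ((i ∈ J ↔ i ∈ J') ∧ c J = c J') ∨
          (¬ (i ∈ J ↔ i ∈ J') ∧ v (c J - c J') = v ((R i).act (Y i) o - o)) := by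
        intro J J' hJ
        have hDe : D = (i + 1) + (D - (i + 1)) := by omega
        have hdec : ∀ J : Finset ℕ, c J = (R i).act (seg Y J (i + 1) (D - (i + 1)))
            (if i ∈ J then (R i).act (Y i) o else o) := by
          intro J
          have hpre : (R i).act (seg Y J 0 i) o = o :=
            fix_seg (R i) hY J 0 i o (fun t _ h2 => hb i hiI t (by omega))
          have h1 : seg Y J 0 D = seg Y J (i + 1) (D - (i + 1)) * seg Y J 0 (i + 1) := by
            conv_lhs => rw [hDe]
            rw [seg_add, zero_add]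
          rw [hcdef]
          simp only
          rw [h1, (R i).act_mul (seg_mem hY J _ _) (seg_mem hY J _ _), seg_succ, zero_add]
          congr 1
          split_ifs with hiJ
          · rw [(R i).act_mul (hY i) (seg_mem hY J _ _), hpre]
          · rw [one_mul, hpre]
        have hpost : seg Y J (i + 1) (D - (i + 1)) = seg Y J' (i + 1) (D - (i + 1)) :=
          seg_congr Y _ _ hJ
        have hv : v ((R i).χ (seg Y J (i + 1) (D - (i + 1)))) = 1 :=
          v_χ_seg v (R i) hY J _ _ (fun t h1 h2 => hd i hiI t (by omega) (by omega))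
        rw [hdec J, hdec J', ← hpost, (R i).act_sub, map_mul, hv, one_mul]
        by_cases hJi : i ∈ J
        · by_cases hJi' : i ∈ J'
          · left; simp [hJi, hJi']
          · right; simp [hJi, hJi']
        · by_cases hJi' : i ∈ J'
          · right
            refine ⟨by simp [hJi, hJi'], ?_⟩
            rw [if_neg hJi, if_pos hJi', ← v.map_neg, neg_sub]
          · left; simp [hJi, hJi']
      have hr : v ((R i).act (Y i) o - o) ≠ 0 :=
        (v.ne_zero_iff).2 (sub_ne_zero.2 (hc i hiI))
      have hF : List.Forall₂ (fun x y => x = y ∨ v (x - y) = v ((R i).act (Y i) o - o))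
          (L.map c) (L'.map c) := by
        rw [List.forall₂_map_left_iff, List.forall₂_map_right_iff]
        refine ihk.imp ?_
        rintro J J' ⟨_, h2⟩
        rcases hpair J J' h2 with h | h
        · exact Or.inl h.2
        · exact Or.inr h.2
      have hmap := compo_decode v (hα i hiI) ((R i).χ_ne_zero hu) hF hr o e1.symm
      have hF2 : List.Forall₂ (fun J J' => c J = c J') L L' := by
        have : List.Forall₂ (fun x y : K => x = y) (L.map c) (L'.map c) := by
          rw [hmap]
          exact List.forall₂_refl _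
        rwa [List.forall₂_map_left_iff, List.forall₂_map_right_iff] at this
      have hboth := List.Forall₂.imp (fun J J' h => h) (ihk)
      clear hmap hF e1 e2
      have comb : ∀ {L L' : List (Finset ℕ)},
          List.Forall₂ (fun J J' : Finset ℕ => (J ⊆ I ∧ J' ⊆ I) ∧
            ∀ t, i + 1 ≤ t → (t ∈ J ↔ t ∈ J')) L L' →
          List.Forall₂ (fun J J' => c J = c J') L L' →
          List.Forall₂ (fun J J' : Finset ℕ => (J ⊆ I ∧ J' ⊆ I) ∧
            ∀ t, i ≤ t → (t ∈ J ↔ t ∈ J')) L L' := by
        intro L L' h1 h2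
        induction h1 with
        | nil => exact List.Forall₂.nil
        | @cons J J' L L' hJ _ ih2 =>
          cases h2 with
          | cons hJc hrest =>
            refine List.Forall₂.cons ⟨hJ.1, fun t ht => ?_⟩ (ih2 hrest)
            rcases Nat.eq_or_lt_of_le ht with rfl | ht
            · rcases hpair J J' hJ.2 with h | h
              · exact h.1
              · exfalso
                rw [hJc, sub_self, map_zero] at h
                exact hr h.2.symm
            · exact hJ.2 t ht
      exact comb ihk hF2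
  have hfin := key D le_rfl
  rw [Nat.sub_self] at hfin
  have : List.Forall₂ (fun J J' : Finset ℕ => J = J') L L' := by
    refine hfin.imp ?_
    rintro J J' ⟨_, h2⟩
    ext t
    exact h2 t (Nat.zero_le _)
  exact List.forall₂_eq_eq_eq ▸ this

end Pool.Agent.Helper11.Gap
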