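import Pool.Agent.Helper11.Gap.Affine

/-!
# The second family of free semigroups (ping-pong)
-/

namespace Pool.Agent.Helper11.Gap

variable {G : Type*} [Group G] {K : Type*} [Field K]
variable {Γ₀ : Type*} [LinearOrderedCommGroupWithZero Γ₀] (v : Valuation K Γ₀)

theorem v_sub_other {o o' z : K} (hz : v (z - o) < v (o - o')) : v (z - o') = v (o - o') := by
  have e : z - o' = (z - o) + (o - o') := by ring
  rw [e]
  exact v.map_add_eq_of_lt_right hz

theorem v_act_sub {N : Subgroup G} (R : AffRep N K) (a : G) {o : K} (ho : R.act a o = o) (z : K) :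
    v (R.act a z - o) = v (R.χ a) * v (z - o) := by
  have h := R.act_sub a z o
  rw [ho] at h
  rw [h, map_mul]

theorem mul_lt_self {x r : Γ₀} (hx : x < 1) (hr : r ≠ 0) : x * r < r := by
  have hr' : (0 : Γ₀) < r := zero_lt_iff.2 hr
  calc x * r < 1 * r := mul_lt_mul_of_pos_right hx hr'
    _ = r := one_mul r

section

variable {N : Subgroup G} (R : AffRep N K) {o o' : K} (hoo : o ≠ o')

include hoo

theorem pair_ball {a b : G} (ha : a ∈ N) (hb : b ∈ N) (hao : R.act a o = o)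
    (hav : v (R.χ a) < 1) (hbo : R.act b o' = o') (hbv : v (R.χ b) < 1) {z : K}
    (hz : v (z - o) < v (o - o')) :
    v (R.act b z - o') = v (R.χ b) * v (o - o') ∧
    v (R.act (a * b) z - o) = v (R.χ a) * v (o - o') ∧
      v (R.act (a * b) z - o) < v (o - o') := by
  have hr : v (o - o') ≠ 0 := v.ne_zero_iff.2 (sub_ne_zero.2 hoo)
  have h1 : v (R.act b z - o') = v (R.χ b) * v (o - o') := by
    rw [v_act_sub v R b hbo, v_sub_other v hz]
  have h2 : v (R.act b z - o') < v (o' - o) := by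
    rw [h1, v.map_sub_swap o' o]
    exact mul_lt_self hbv hr
  have h3 : v (R.act b z - o) = v (o - o') := by
    rw [v_sub_other v h2, v.map_sub_swap]
  have h4 : v (R.act (a * b) z - o) = v (R.χ a) * v (o - o') := by
    rw [R.act_mul ha hb, v_act_sub v R a hao, h3]
  exact ⟨h1, h4, h4 ▸ mul_lt_self hav hr⟩

end

theorem caseTwo {N : Subgroup G} {ι A B : Type*} (I : Set ι) (R : ι → AffRep N K) (o o' : ι → K)
    (hoo : ∀ i ∈ I, o i ≠ o' i) (U : A → G) (U' : B → G) (hU : ∀ a, U a ∈ N) (hU' : ∀ b, U' b ∈ N)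
    (E : Set A) (E' : Set B)
    (h1 : ∀ i ∈ I, ∀ a ∈ E, (R i).act (U a) (o i) = o i ∧ v ((R i).χ (U a)) < 1)
    (h2 : ∀ i ∈ I, ∀ b ∈ E', (R i).act (U' b) (o' i) = o' i ∧ v ((R i).χ (U' b)) < 1)
    (h3 : ∀ a ∈ E, ∀ a' ∈ E, a ≠ a' → ∃ i ∈ I, v ((R i).χ (U a)) ≠ v ((R i).χ (U a')))
    (h4 : ∀ b ∈ E', ∀ b' ∈ E', b ≠ b' → ∃ i ∈ I, v ((R i).χ (U' b)) ≠ v ((R i).χ (U' b')))
    (L L' : List (A × B)) (hL : ∀ p ∈ L, p.1 ∈ E ∧ p.2 ∈ E') (hL' : ∀ p ∈ L', p.1 ∈ E ∧ p.2 ∈ E')
    (hlen : L.length = L'.length)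
    (heq : (L.map (fun p => U p.1 * U' p.2)).prod = (L'.map (fun p => U p.1 * U' p.2)).prod) :
    L = L' := by
  have hprodN : ∀ L : List (A × B), (L.map (fun p => U p.1 * U' p.2)).prod ∈ N := by
    intro L
    apply Subgroup.list_prod_mem
    intro x hx
    rw [List.mem_map] at hx
    obtain ⟨p, _, rfl⟩ := hx
    exact N.mul_mem (hU _) (hU' _)
  have hball : ∀ i ∈ I, ∀ L : List (A × B), (∀ p ∈ L, p.1 ∈ E ∧ p.2 ∈ E') →
      v ((R i).act (L.map (fun p => U p.1 * U' p.2)).prod (o i) - o i) < v (o i - o' i) := by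
    intro i hi L
    induction L with
    | nil =>
      intro _
      simp only [List.map_nil, List.prod_nil, (R i).act_one, sub_self, map_zero]
      exact zero_lt_iff.2 (v.ne_zero_iff.2 (sub_ne_zero.2 (hoo i hi)))
    | cons p L ih =>
      intro hp
      have hpm := hp p (by simp)
      have ih' := ih (fun q hq => hp q (by simp [hq]))
      rw [List.map_cons, List.prod_cons, (R i).act_mul (N.mul_mem (hU _) (hU' _)) (hprodN L)]
      exact (pair_ball v (R i) (hoo i hi) (hU p.1) (hU' p.2) (h1 i hi _ hpm.1).1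
        (h1 i hi _ hpm.1).2 (h2 i hi _ hpm.2).1 (h2 i hi _ hpm.2).2 ih').2.2
  induction L generalizing L' with
  | nil =>
    cases L' with
    | nil => rfl
    | cons b L' => simp at hlen
  | cons p L ih =>
    cases L' with
    | nil => simp at hlen
    | cons q L' =>
      have hp := hL p (by simp)
      have hq := hL' q (by simp)
      have hLt : ∀ p ∈ L, p.1 ∈ E ∧ p.2 ∈ E' := fun r hr => hL r (by simp [hr])
      have hLt' : ∀ p ∈ L', p.1 ∈ E ∧ p.2 ∈ E' := fun r hr => hL' r (by simp [hr])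
      rw [List.map_cons, List.map_cons, List.prod_cons, List.prod_cons] at heq
      set g := (L.map (fun p => U p.1 * U' p.2)).prod with hg
      set g' := (L'.map (fun p => U p.1 * U' p.2)).prod with hg'
      have hgN : g ∈ N := hprodN L
      have hgN' : g' ∈ N := hprodN L'
      have e1 : p.1 = q.1 := by
        by_contra hne
        obtain ⟨i, hi, hv⟩ := h3 _ hp.1 _ hq.1 hne
        have b1 := (pair_ball v (R i) (hoo i hi) (hU p.1) (hU' p.2) (h1 i hi _ hp.1).1
          (h1 i hi _ hp.1).2 (h2 i hi _ hp.2).1 (h2 i hi _ hp.2).2 (hball i hi L hLt)).2.1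
        have b2 := (pair_ball v (R i) (hoo i hi) (hU q.1) (hU' q.2) (h1 i hi _ hq.1).1
          (h1 i hi _ hq.1).2 (h2 i hi _ hq.2).1 (h2 i hi _ hq.2).2 (hball i hi L' hLt')).2.1
        rw [← (R i).act_mul (N.mul_mem (hU _) (hU' _)) hgN] at b1
        rw [← (R i).act_mul (N.mul_mem (hU _) (hU' _)) hgN', ← heq, b1] at b2
        have hr : v (o i - o' i) ≠ 0 := v.ne_zero_iff.2 (sub_ne_zero.2 (hoo i hi))
        exact hv (mul_right_cancel₀ hr b2)
      have heq2 : U' p.2 * g = U' q.2 * g' := by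
        rw [e1, mul_assoc, mul_assoc] at heq
        exact mul_left_cancel heq
      have e2 : p.2 = q.2 := by
        by_contra hne
        obtain ⟨i, hi, hv⟩ := h4 _ hp.2 _ hq.2 hne
        have b1 := (pair_ball v (R i) (hoo i hi) (hU p.1) (hU' p.2) (h1 i hi _ hp.1).1
          (h1 i hi _ hp.1).2 (h2 i hi _ hp.2).1 (h2 i hi _ hp.2).2 (hball i hi L hLt)).1
        have b2 := (pair_ball v (R i) (hoo i hi) (hU q.1) (hU' q.2) (h1 i hi _ hq.1).1
          (h1 i hi _ hq.1).2 (h2 i hi _ hq.2).1 (h2 i hi _ hq.2).2 (hball i hi L' hLt')).1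
        rw [← (R i).act_mul (hU' _) hgN] at b1
        rw [← (R i).act_mul (hU' _) hgN', ← heq2, b1] at b2
        have hr : v (o i - o' i) ≠ 0 := v.ne_zero_iff.2 (sub_ne_zero.2 (hoo i hi))
        exact hv (mul_right_cancel₀ hr b2)
      have heq3 : g = g' := by
        rw [e2] at heq2
        exact mul_left_cancel heq2
      rw [Prod.ext e1 e2, ih L' hLt hLt' (by simpa using hlen) heq3]

end Pool.Agent.Helper11.Gap
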