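import Mathlib

/-!
# A place of a module at which a given ring element is not integral
-/

namespace Pool.Agent.Helper11.Gap

open Polynomial TensorProduct

universe u

theorem exists_place {A : Type u} [CommRing A] {M : Type u} [AddCommGroup M] [Module A M]
    [Module.Finite A M] (q : A)
    (hq : ∀ f : ℤ[X], f.Monic → aeval q f ∉ Module.annihilator A M) :
    ∃ (K : Type u) (_ : Field K) (ψ : A →+* K) (ι : M →+ K) (V : ValuationSubring K),
      (∀ (a : A) (m : M), ι (a • m) = ψ a * ι m) ∧ (∃ m, ι m ≠ 0) ∧ ψ q ∉ V := by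
  classical
  let S : Submonoid A :=
    { carrier := {a | ∃ f : ℤ[X], f.Monic ∧ a = aeval q f}
      one_mem' := ⟨1, monic_one, by simp⟩
      mul_mem' := by
        rintro a b ⟨f, hf, rfl⟩ ⟨g, hg, rfl⟩
        exact ⟨f * g, hf.mul hg, by rw [map_mul]⟩ }
  have hdisj : Disjoint ((Module.annihilator A M : Ideal A) : Set A) (S : Set A) := by
    rw [Set.disjoint_left]
    rintro a ha ⟨f, hf, rfl⟩
    exact hq f hf ha
  obtain ⟨p, hp, hIp, hpS⟩ := Ideal.exists_le_prime_disjoint _ S hdisj
  have hsupp : (⟨p, hp⟩ : PrimeSpectrum A) ∈ Module.support A M :=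
    Module.mem_support_iff_of_finite.2 hIp
  rw [Module.mem_support_iff_nontrivial_residueField_tensorProduct] at hsupp
  have hnt : Nontrivial (p.ResidueField ⊗[A] M) := hsupp
  -- an element of `M` with nonzero image
  have hex : ∃ m : M, (1 : p.ResidueField) ⊗ₜ[A] m ≠ 0 := by
    by_contra hcon
    push Not at hcon
    have : ∀ w : p.ResidueField ⊗[A] M, w = 0 := by
      intro w
      induction w using TensorProduct.induction_on with
      | zero => rfl
      | tmul x m =>
        have : x ⊗ₜ[A] m = x • ((1 : p.ResidueField) ⊗ₜ[A] m) := by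
          rw [TensorProduct.smul_tmul', smul_eq_mul, mul_one]
        rw [this, hcon m, smul_zero]
      | add x y hx hy => rw [hx, hy, add_zero]
    obtain ⟨w, hw⟩ := exists_ne (0 : p.ResidueField ⊗[A] M)
    exact hw (this w)
  obtain ⟨m₀, hm₀⟩ := hex
  have hfun : ∃ f : Module.Dual p.ResidueField (p.ResidueField ⊗[A] M),
      f ((1 : p.ResidueField) ⊗ₜ[A] m₀) ≠ 0 := by
    by_contra hcon
    push Not at hcon
    exact hm₀ ((Module.forall_dual_apply_eq_zero_iff p.ResidueField _).1 hcon)
  obtain ⟨f, hf⟩ := hfun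
  -- the element is not integral in the residue field
  have hnint : algebraMap A p.ResidueField q ∉ integralClosure ℤ p.ResidueField := by
    rintro ⟨g, hg, hg0⟩
    have h1 : algebraMap A p.ResidueField (aeval q g) = 0 := by
      have e : algebraMap A p.ResidueField (aeval q g) =
          eval₂ (algebraMap ℤ p.ResidueField) (algebraMap A p.ResidueField q) g := by
        rw [aeval_def, hom_eval₂]
        congr 1
      rw [e]
      exact hg0
    rw [Ideal.algebraMap_residueField_eq_zero] at h1
    exact Set.disjoint_left.1 hpS h1 ⟨g, hg, rfl⟩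
  have hint : IsIntegrallyClosedIn (integralClosure ℤ p.ResidueField).toSubring p.ResidueField :=
    inferInstance
  obtain ⟨V, _, hV⟩ := Subring.exists_le_valuationSubring_of_isIntegrallyClosedIn
    (R := (integralClosure ℤ p.ResidueField).toSubring) (x := algebraMap A p.ResidueField q) hnint
  refine ⟨p.ResidueField, inferInstance, algebraMap A p.ResidueField,
    { toFun := fun m => f ((1 : p.ResidueField) ⊗ₜ[A] m)
      map_zero' := by rw [TensorProduct.tmul_zero, map_zero]
      map_add' := fun x y => by rw [TensorProduct.tmul_add, map_add] }, V, ?_, ⟨m₀, hf⟩, hV⟩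
  intro a m
  change f ((1 : p.ResidueField) ⊗ₜ[A] (a • m)) = algebraMap A p.ResidueField a *
    f ((1 : p.ResidueField) ⊗ₜ[A] m)
  have e : (1 : p.ResidueField) ⊗ₜ[A] (a • m) =
      (algebraMap A p.ResidueField a) • ((1 : p.ResidueField) ⊗ₜ[A] m) := by
    rw [TensorProduct.smul_tmul', smul_eq_mul, mul_one, ← TensorProduct.smul_tmul,
      Algebra.smul_def, mul_one]
  rw [e, map_smul, smul_eq_mul]

end Pool.Agent.Helper11.Gap
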