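import Pool.Agent.Helper11.Gap.CommAlg

/-!
# The second derived quotient as a module, and the affine representation
-/

namespace Pool.Agent.Helper11.Gap

open Polynomial
open scoped commutatorElement

universe u

variable (N : Type u) [Group N]

/-- The abelianization of the derived subgroup, written additively. -/
abbrev DM : Type u := Additive (Abelianization (commutator N))

variable {N}

/-- The class of an element of the derived subgroup. -/
def cls (c : commutator N) : DM N := Additive.ofMul (Abelianization.of c)

theorem cls_mul (c d : commutator N) : cls (c * d) = cls c + cls d := by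
  rw [cls, map_mul]; rfl

theorem cls_one : cls (1 : commutator N) = 0 := by
  rw [cls, map_one]; rfl

theorem cls_inv (c : commutator N) : cls c⁻¹ = - cls c := by
  rw [cls, map_inv]; rfl

theorem cls_surj (m : DM N) : ∃ c, cls c = m := by
  obtain ⟨c, hc⟩ := QuotientGroup.mk_surjective (s := commutator (commutator N)) m.toMul
  exact ⟨c, congrArg Additive.ofMul hc⟩

/-- Conjugation on the derived module. -/
noncomputable def rho : N →* Module.End ℤ (DM N) where
  toFun a := (MonoidHom.toAdditive
    (Abelianization.map (MulAut.conjNormal a : MulAut (commutator N)).toMonoidHom)).toIntLinearMap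
  map_one' := by
    apply LinearMap.ext
    intro m
    obtain ⟨c, rfl⟩ := cls_surj m
    simp [cls]
  map_mul' a b := by
    apply LinearMap.ext
    intro m
    obtain ⟨c, rfl⟩ := cls_surj m
    simp [cls]

theorem rho_cls (a : N) (c : commutator N) : rho a (cls c) = cls (MulAut.conjNormal a c) := by
  simp [rho, cls]

theorem rho_of_mem (a : N) (ha : a ∈ commutator N) : rho a = 1 := by
  apply LinearMap.ext
  intro m
  obtain ⟨c, rfl⟩ := cls_surj m
  rw [rho_cls]
  have e : MulAut.conjNormal a c = (⟨a, ha⟩ : commutator N) * c * (⟨a, ha⟩ : commutator N)⁻¹ := by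
    apply Subtype.ext
    simp
  rw [e, cls_mul, cls_mul, cls_inv]
  simp

/-- The action of the abelianization. -/
noncomputable def rhoQ : Abelianization N →* Module.End ℤ (DM N) :=
  QuotientGroup.lift (commutator N) rho (fun a ha => by
    rw [MonoidHom.mem_ker]; exact rho_of_mem a ha)

/-- The group ring of the abelianization. -/
abbrev GR (N : Type u) [Group N] : Type u := MonoidAlgebra ℤ (Abelianization N)

noncomputable def phi : GR N →ₐ[ℤ] Module.End ℤ (DM N) :=
  MonoidAlgebra.lift ℤ (Module.End ℤ (DM N)) (Abelianization N) rhoQ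

theorem phi_of (a : N) : phi (MonoidAlgebra.of ℤ (Abelianization N) (Abelianization.of a)) =
    rho a := by
  rw [phi, MonoidAlgebra.lift_of]
  rfl

noncomputable instance : Module (GR N) (DM N) := Module.compHom (DM N) (phi (N := N)).toRingHom

theorem gr_smul (a : GR N) (m : DM N) : a • m = phi a m := rfl

theorem of_smul_cls (a : N) (c : commutator N) :
    (MonoidAlgebra.of ℤ (Abelianization N) (Abelianization.of a)) • cls c =
      cls (MulAut.conjNormal a c) := by
  rw [gr_smul, phi_of, rho_cls]

/-- The group element in the group ring. -/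
noncomputable def el (a : N) : GR N := MonoidAlgebra.of ℤ (Abelianization N) (Abelianization.of a)

theorem el_mul (a b : N) : el (a * b) = el a * el b := by
  rw [el, map_mul, map_mul]; rfl

theorem el_one : el (1 : N) = 1 := by
  rw [el, map_one, map_one]

/-- The class of the commutator. -/
noncomputable def cc (a b : N) : DM N :=
  cls ⟨⁅a, b⁆, Subgroup.commutator_mem_commutator (Subgroup.mem_top a) (Subgroup.mem_top b)⟩

theorem cc_mul_left (a b x : N) : cc (a * b) x = cc a x + el a • cc b x := by
  rw [cc, cc, cc, el, of_smul_cls, add_comm, ← cls_mul]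
  congr 1
  apply Subtype.ext
  simp only [commutatorElement_def, Subgroup.coe_mul, MulAut.conjNormal_apply]
  group

theorem cc_mem (c : commutator N) (x : N) : cc (c : N) x = cls c - el x • cls c := by
  rw [el, of_smul_cls, sub_eq_add_neg, ← cls_inv, ← cls_mul, cc]
  congr 1
  apply Subtype.ext
  simp only [commutatorElement_def, Subgroup.coe_mul, Subgroup.coe_inv, MulAut.conjNormal_apply]
  group

/-- The derived module is finitely generated over the group ring of the abelianization. -/
theorem finite_DM [hfg : Group.FG N] : Module.Finite (GR N) (DM N) := by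
  classical
  obtain ⟨S, hS⟩ := Group.fg_def.1 hfg |>.imp (fun _ h => h) |> fun h => h
  set L : Submodule (GR N) (DM N) :=
    Submodule.span (GR N) (((S ×ˢ S).image (fun p => cc p.1 p.2) : Finset (DM N)) : Set (DM N))
    with hL
  -- the elements of the derived subgroup whose class is in `L`
  let P : Subgroup N :=
    { carrier := {a | ∃ h : a ∈ commutator N, cls ⟨a, h⟩ ∈ L}
      one_mem' := ⟨Subgroup.one_mem _, by
        have : (⟨1, Subgroup.one_mem _⟩ : commutator N) = 1 := rfl
        rw [this, cls_one]; exact L.zero_mem⟩
      mul_mem' := by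
        rintro a b ⟨ha, ha'⟩ ⟨hb, hb'⟩
        refine ⟨Subgroup.mul_mem _ ha hb, ?_⟩
        have : (⟨a * b, Subgroup.mul_mem _ ha hb⟩ : commutator N) = ⟨a, ha⟩ * ⟨b, hb⟩ := rfl
        rw [this, cls_mul]
        exact L.add_mem ha' hb'
      inv_mem' := by
        rintro a ⟨ha, ha'⟩
        refine ⟨Subgroup.inv_mem _ ha, ?_⟩
        have : (⟨a⁻¹, Subgroup.inv_mem _ ha⟩ : commutator N) = (⟨a, ha⟩ : commutator N)⁻¹ := rfl
        rw [this, cls_inv]
        exact L.neg_mem ha' }
  have hPn : P.Normal := by
    constructor
    rintro a ⟨ha, ha'⟩ g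
    refine ⟨(inferInstance : (commutator N).Normal).conj_mem a ha g, ?_⟩
    have : (⟨g * a * g⁻¹, (inferInstance : (commutator N).Normal).conj_mem a ha g⟩ :
        commutator N) = MulAut.conjNormal g ⟨a, ha⟩ := by
      apply Subtype.ext; simp
    rw [this, ← of_smul_cls]
    exact L.smul_mem _ ha'
  have hgen : ∀ a ∈ S, ∀ b ∈ S, ⁅a, b⁆ ∈ P := by
    intro a ha b hb
    refine ⟨Subgroup.commutator_mem_commutator (Subgroup.mem_top a) (Subgroup.mem_top b), ?_⟩
    apply Submodule.subset_span
    rw [Finset.mem_coe, Finset.mem_image]
    exact ⟨(a, b), Finset.mem_product.2 ⟨ha, hb⟩, rfl⟩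
  have hle : commutator N ≤ P := by
    rw [← Subgroup.Normal.quotient_commutative_iff_commutator_le]
    have hcomm : ∀ a ∈ S, ∀ b ∈ S, Commute (QuotientGroup.mk a : N ⧸ P) (QuotientGroup.mk b) := by
      intro a ha b hb
      rw [← commutatorElement_eq_one_iff_commute]
      exact (QuotientGroup.eq_one_iff (N := P) ⁅a, b⁆).2 (hgen a ha b hb)
    have hall : ∀ a : N, ∀ b : N, Commute (QuotientGroup.mk a : N ⧸ P) (QuotientGroup.mk b) := by
      have step1 : ∀ a ∈ S, ∀ b : N,
          Commute (QuotientGroup.mk a : N ⧸ P) (QuotientGroup.mk b) := by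
        intro a ha b
        have hb : b ∈ Subgroup.closure (S : Set N) := by rw [hS]; exact Subgroup.mem_top b
        induction hb using Subgroup.closure_induction with
        | mem x hx => exact hcomm a ha x hx
        | one => exact Commute.one_right _
        | mul x y _ _ hx hy => exact hx.mul_right hy
        | inv x _ hx => exact hx.inv_right
      intro a b
      have ha : a ∈ Subgroup.closure (S : Set N) := by rw [hS]; exact Subgroup.mem_top a
      induction ha using Subgroup.closure_induction with
      | mem x hx => exact step1 x hx b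
      | one => exact Commute.one_left _
      | mul x y _ _ hx hy => exact hx.mul_left hy
      | inv x _ hx => exact hx.inv_left
    refine ⟨⟨fun x y => ?_⟩⟩
    obtain ⟨a, rfl⟩ := QuotientGroup.mk_surjective x
    obtain ⟨b, rfl⟩ := QuotientGroup.mk_surjective y
    exact hall a b
  refine ⟨⟨(S ×ˢ S).image (fun p => cc p.1 p.2), ?_⟩⟩
  rw [eq_top_iff]
  intro m _
  obtain ⟨c, rfl⟩ := cls_surj m
  obtain ⟨_, h⟩ := hle c.2
  exact h

/-- If every group element is integral modulo the annihilator, the derived module is finitely
generated as an abelian group. -/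
theorem finite_int_of_integral [hfg : Group.FG N]
    (h : ∀ a : N, ∃ f : ℤ[X], f.Monic ∧ aeval (el a) f ∈ Module.annihilator (GR N) (DM N)) :
    Module.Finite ℤ (DM N) := by
  classical
  have hfin := finite_DM (N := N)
  set I := Module.annihilator (GR N) (DM N) with hI
  have hmfg : Monoid.FG (Abelianization N) := by
    have : Group.FG (Abelianization N) := (inferInstance : Group.FG (N ⧸ commutator N))
    exact Group.fg_iff_monoid_fg.1 this
  have hft : Algebra.FiniteType ℤ (GR N) := MonoidAlgebra.finiteType_of_fg
  have hft' : Algebra.FiniteType ℤ (GR N ⧸ I) :=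
    Algebra.FiniteType.of_surjective (Ideal.Quotient.mkₐ ℤ I) (Ideal.Quotient.mkₐ_surjective ℤ I)
  have hel : ∀ a : N, IsIntegral ℤ (Ideal.Quotient.mkₐ ℤ I (el a)) := by
    intro a
    obtain ⟨f, hf, hfa⟩ := h a
    refine ⟨f, hf, ?_⟩
    have : aeval (Ideal.Quotient.mkₐ ℤ I (el a)) f = 0 := by
      rw [aeval_algHom_apply]
      exact Ideal.Quotient.eq_zero_iff_mem.2 hfa
    exact this
  have hint : Algebra.IsIntegral ℤ (GR N ⧸ I) := by
    constructor
    intro x
    obtain ⟨y, rfl⟩ := Ideal.Quotient.mkₐ_surjective ℤ I x
    induction y using MonoidAlgebra.induction_on with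
    | of g =>
      obtain ⟨a, rfl⟩ := QuotientGroup.mk_surjective g
      exact hel a
    | add x y hx hy => rw [map_add]; exact hx.add hy
    | smul r x hx =>
      rw [map_smul, Algebra.smul_def]
      exact (isIntegral_algebraMap).mul hx
  have hfinI : Module.Finite ℤ (GR N ⧸ I) := Algebra.IsIntegral.finite
  -- generators
  obtain ⟨s, hs⟩ := hfinI.fg_top
  obtain ⟨t, ht⟩ := hfin.fg_top
  have hlift : ∀ x : GR N ⧸ I, ∃ y : GR N, Ideal.Quotient.mk I y = x := Ideal.Quotient.mk_surjective
  choose lift hliftspec using hlift
  refine ⟨⟨(s ×ˢ t).image (fun p => lift p.1 • p.2), ?_⟩⟩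
  set P : Submodule ℤ (DM N) := Submodule.span ℤ
    (((s ×ˢ t).image (fun p => lift p.1 • p.2) : Finset (DM N)) : Set (DM N)) with hP
  rw [eq_top_iff]
  have hkill : ∀ (y y' : GR N) (m : DM N), Ideal.Quotient.mk I y = Ideal.Quotient.mk I y' →
      y • m = y' • m := by
    intro y y' m hyy
    have := Ideal.Quotient.eq.1 hyy
    rw [hI, Module.mem_annihilator] at this
    have h1 := this m
    rw [sub_smul, sub_eq_zero] at h1
    exact h1
  have key : ∀ m ∈ t, ∀ y : GR N, y • m ∈ P := by
    intro m hm y
    have : ∀ z : GR N ⧸ I, ∀ y : GR N, Ideal.Quotient.mk I y = z → y • m ∈ P := by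
      intro z
      have hz : z ∈ Submodule.span ℤ (s : Set (GR N ⧸ I)) := by rw [hs]; exact Submodule.mem_top
      induction hz using Submodule.span_induction with
      | mem x hx =>
        intro y hy
        rw [hkill y (lift x) m (hy.trans (hliftspec x).symm)]
        apply Submodule.subset_span
        rw [Finset.mem_coe, Finset.mem_image]
        exact ⟨(x, m), Finset.mem_product.2 ⟨hx, hm⟩, rfl⟩
      | zero =>
        intro y hy
        rw [hkill y 0 m (by rw [hy, map_zero]), zero_smul]
        exact P.zero_mem
      | add x x' _ _ hx hx' =>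
        intro y hy
        obtain ⟨a, ha⟩ := Ideal.Quotient.mk_surjective x
        obtain ⟨b, hb⟩ := Ideal.Quotient.mk_surjective x'
        rw [hkill y (a + b) m (by rw [hy, map_add, ha, hb]), add_smul]
        exact P.add_mem (hx a ha) (hx' b hb)
      | smul n x _ hx =>
        intro y hy
        obtain ⟨a, ha⟩ := Ideal.Quotient.mk_surjective x
        rw [hkill y (n • a) m (by rw [hy, ← ha]; exact (map_zsmul _ n a).symm), smul_assoc]
        exact P.smul_mem n (hx a ha)
    exact this _ y rfl
  intro m _
  have hm : m ∈ Submodule.span (GR N) (t : Set (DM N)) := by rw [ht]; exact Submodule.mem_top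
  induction hm using Submodule.span_induction with
  | mem x hx =>
    have := key x hx 1
    rwa [one_smul] at this
  | zero => exact P.zero_mem
  | add x y _ _ hx hy => exact P.add_mem (hx Submodule.mem_top) (hy Submodule.mem_top)
  | smul a x hx' hx =>
    clear hx
    have : ∀ y ∈ Submodule.span (GR N) (t : Set (DM N)), ∀ a : GR N, a • y ∈ P := by
      intro y hy
      induction hy using Submodule.span_induction with
      | mem x hx => exact fun a => key x hx a
      | zero => intro a; rw [smul_zero]; exact P.zero_mem
      | add x y _ _ hx hy => intro a; rw [smul_add]; exact P.add_mem (hx a) (hy a)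
      | smul b x _ hx => intro a; rw [smul_smul]; exact hx _
    exact this x hx' a

end Pool.Agent.Helper11.Gap
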