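import Mathlib

/-!
# Words, paths, insertions and rotations
-/

namespace Pool.Agent.Helper11.Gap

open Pointwise
open scoped commutatorElement

variable {G : Type*} [Group G] [DecidableEq G]

/-- A symmetric finite set containing `1`. -/
structure Sym (T : Finset G) : Prop where
  one : 1 ∈ T
  inv : ∀ s ∈ T, s⁻¹ ∈ T

theorem mul_mem_pow {T : Finset G} {a b : G} {m n : ℕ} (ha : a ∈ T ^ m) (hb : b ∈ T ^ n) :
    a * b ∈ T ^ (m + n) := by
  rw [pow_add]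
  exact Finset.mul_mem_mul ha hb

namespace Sym

variable {T : Finset G} (hT : Sym T)
include hT

theorem mono {m n : ℕ} (h : m ≤ n) {g : G} (hg : g ∈ T ^ m) : g ∈ T ^ n :=
  Finset.pow_subset_pow_right hT.one h hg

theorem inv_mem_pow {n : ℕ} {g : G} (hg : g ∈ T ^ n) : g⁻¹ ∈ T ^ n := by
  induction n generalizing g with
  | zero =>
    rw [pow_zero, Finset.mem_one] at hg ⊢
    rw [hg, inv_one]
  | succ n ih =>
    rw [pow_succ] at hg
    obtain ⟨a, ha, b, hb, rfl⟩ := Finset.mem_mul.1 hg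
    rw [mul_inv_rev, pow_succ']
    exact Finset.mul_mem_mul (hT.inv b hb) (ih ha)

theorem mem_one {g : G} (hg : g ∈ T) : g ∈ T ^ 1 := by rwa [pow_one]

theorem one_mem_pow (n : ℕ) : (1 : G) ∈ T ^ n := by
  have : (1 : G) ∈ T ^ 0 := by simp
  exact hT.mono (Nat.zero_le n) this

theorem pow_mem_pow {m : ℕ} {g : G} (hg : g ∈ T ^ m) (k : ℕ) : g ^ k ∈ T ^ (m * k) := by
  rw [pow_mul]
  exact Finset.pow_mem_pow hg

theorem zpow_mem_pow {m : ℕ} {g : G} (hg : g ∈ T ^ m) (k : ℤ) (M : ℕ) (hk : k.natAbs ≤ M) :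
    g ^ k ∈ T ^ (m * M) := by
  have h1 : g ^ k.natAbs ∈ T ^ (m * M) :=
    hT.mono (Nat.mul_le_mul_left m hk) (hT.pow_mem_pow hg _)
  rcases Int.natAbs_eq k with h | h
  · rw [h, zpow_natCast]; exact h1
  · rw [h, zpow_neg, zpow_natCast]; exact hT.inv_mem_pow h1

theorem exists_mem_pow_of_mem_closure {g : G} (hg : g ∈ Subgroup.closure (T : Set G)) :
    ∃ n, g ∈ T ^ n := by
  induction hg using Subgroup.closure_induction with
  | mem x hx => exact ⟨1, hT.mem_one hx⟩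
  | one => exact ⟨0, by simp⟩
  | mul x y _ _ hx hy =>
    obtain ⟨m, hm⟩ := hx
    obtain ⟨n, hn⟩ := hy
    exact ⟨m + n, mul_mem_pow hm hn⟩
  | inv x _ hx =>
    obtain ⟨m, hm⟩ := hx
    exact ⟨m, hT.inv_mem_pow hm⟩

theorem commutator_mem {a b : G} (ha : a ∈ T) (hb : b ∈ T) : ⁅a, b⁆ ∈ T ^ 4 := by
  rw [commutatorElement_def]
  have h1 := mul_mem_pow (hT.mem_one ha) (hT.mem_one hb)
  have h2 := mul_mem_pow h1 (hT.mem_one (hT.inv a ha))
  exact mul_mem_pow h2 (hT.mem_one (hT.inv b hb))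

end Sym

/-- The path with letters `ℓ 0, ℓ 1, …`, new letters on the left. -/
def pth (ℓ : ℕ → G) : ℕ → G
  | 0 => 1
  | t + 1 => ℓ t * pth ℓ t

omit [DecidableEq G] in
theorem pth_succ (ℓ : ℕ → G) (t : ℕ) : pth ℓ (t + 1) = ℓ t * pth ℓ t := rfl

theorem pth_seg_mem {T : Finset G} {ℓ : ℕ → G} (hℓ : ∀ t, ℓ t ∈ T) (i n : ℕ) :
    pth ℓ (i + n) * (pth ℓ i)⁻¹ ∈ T ^ n := by
  induction n with
  | zero => simp
  | succ n ih =>
    rw [← add_assoc, pth_succ, mul_assoc, pow_succ']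
    exact Finset.mul_mem_mul (hℓ _) ih

theorem pth_mem {T : Finset G} {ℓ : ℕ → G} (hℓ : ∀ t, ℓ t ∈ T) (n : ℕ) :
    pth ℓ n ∈ T ^ n := by
  have := pth_seg_mem hℓ 0 n
  simpa [pth] using this

/-- Segments of a path in both directions. -/
theorem pth_seg_mem' {T : Finset G} (hT : Sym T) {ℓ : ℕ → G} (hℓ : ∀ t, ℓ t ∈ T) {i j m : ℕ}
    (h1 : j ≤ i + m) (h2 : i ≤ j + m) : pth ℓ j * (pth ℓ i)⁻¹ ∈ T ^ m := by
  rcases le_total i j with h | h
  · obtain ⟨n, rfl⟩ := Nat.exists_eq_add_of_le h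
    exact hT.mono (by omega) (pth_seg_mem hℓ i n)
  · obtain ⟨n, rfl⟩ := Nat.exists_eq_add_of_le h
    have := hT.inv_mem_pow (pth_seg_mem hℓ j n)
    rw [mul_inv_rev, inv_inv] at this
    exact hT.mono (by omega) this

omit [DecidableEq G] in
theorem pth_congr {ℓ ℓ' : ℕ → G} (m : ℕ) (h : ∀ t < m, ℓ t = ℓ' t) : pth ℓ m = pth ℓ' m := by
  induction m with
  | zero => rfl
  | succ m ih =>
    rw [pth_succ, pth_succ, h m (Nat.lt_succ_self m), ih (fun t ht => h t (by omega))]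

theorem exists_pth {T : Finset G} (hT : Sym T) (m : ℕ) (g : G) (hg : g ∈ T ^ m) :
    ∃ ℓ : ℕ → G, (∀ t, ℓ t ∈ T) ∧ (∀ t, ℓ (t + m) = ℓ t) ∧ pth ℓ m = g := by
  rcases Nat.eq_zero_or_pos m with rfl | hm
  · refine ⟨fun _ => 1, fun _ => hT.one, fun _ => rfl, ?_⟩
    rw [pow_zero, Finset.mem_one] at hg
    rw [hg]; rfl
  · have key : ∀ m : ℕ, ∀ g ∈ T ^ m, ∃ ℓ : ℕ → G, (∀ t, ℓ t ∈ T) ∧ pth ℓ m = g := by
      intro m
      induction m with
      | zero =>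
        intro g hg
        rw [pow_zero, Finset.mem_one] at hg
        exact ⟨fun _ => 1, fun _ => hT.one, by rw [hg]; rfl⟩
      | succ m ih =>
        intro g hg
        rw [pow_succ'] at hg
        obtain ⟨a, ha, b, hb, rfl⟩ := Finset.mem_mul.1 hg
        obtain ⟨ℓ, h1, h2⟩ := ih b hb
        refine ⟨fun t => if t = m then a else ℓ t, ?_, ?_⟩
        · intro t
          simp only
          split_ifs
          · exact ha
          · exact h1 t
        · rw [pth_succ, if_pos rfl, ← h2]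
          congr 1
          apply pth_congr
          intro t ht
          exact if_neg ht.ne
    obtain ⟨ℓ, h1, h2⟩ := key m g hg
    refine ⟨fun t => ℓ (t % m), fun t => h1 _, ?_, ?_⟩
    · intro t; simp
    · rw [← h2]
      apply pth_congr
      intro t ht
      rw [Nat.mod_eq_of_lt ht]

/-- The product of the elements `z t` inserted along the path at times `t + s`, `t < n`. -/
def ins (ℓ : ℕ → G) (s : ℕ) (z : ℕ → G) : ℕ → G
  | 0 => 1
  | n + 1 => ((pth ℓ (n + s))⁻¹ * z n * pth ℓ (n + s)) * ins ℓ s z n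

omit [DecidableEq G] in
theorem ins_succ (ℓ : ℕ → G) (s : ℕ) (z : ℕ → G) (n : ℕ) :
    ins ℓ s z (n + 1) = ((pth ℓ (n + s))⁻¹ * z n * pth ℓ (n + s)) * ins ℓ s z n := rfl

theorem pth_mul_ins_mem {T : Finset G} {ℓ : ℕ → G} (hℓ : ∀ t, ℓ t ∈ T) (s : ℕ)
    {z : ℕ → G} {m : ℕ} (hz : ∀ t, z t ∈ T ^ m) (n : ℕ) :
    pth ℓ (n + s) * ins ℓ s z n ∈ T ^ (s + n * (m + 1)) := by
  induction n with
  | zero =>
    rw [zero_add, zero_mul, add_zero, ins, mul_one]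
    exact pth_mem hℓ s
  | succ n ih =>
    have e : pth ℓ (n + 1 + s) * ins ℓ s z (n + 1) =
        (ℓ (n + s) * z n) * (pth ℓ (n + s) * ins ℓ s z n) := by
      rw [show n + 1 + s = (n + s) + 1 by omega, pth_succ, ins_succ]
      group
    rw [e, show s + (n + 1) * (m + 1) = (1 + m) + (s + n * (m + 1)) by ring]
    refine mul_mem_pow (mul_mem_pow ?_ (hz n)) ih
    rw [pow_one]
    exact hℓ _

theorem ins_mem {T : Finset G} (hT : Sym T) {ℓ : ℕ → G} (hℓ : ∀ t, ℓ t ∈ T) (s : ℕ)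
    {z : ℕ → G} {m : ℕ} (hz : ∀ t, z t ∈ T ^ m) (n : ℕ) :
    ins ℓ s z n ∈ T ^ ((n + s) + (s + n * (m + 1))) := by
  have h1 := hT.inv_mem_pow (pth_mem hℓ (n + s))
  have h2 := mul_mem_pow h1 (pth_mul_ins_mem hℓ s hz n)
  rwa [inv_mul_cancel_left] at h2

/-- Moving a letter across a word by adjacent swaps. -/
theorem rotate {T : Finset G} (hT : Sym T) (Q : G → Prop) (len : ℕ)
    (hswap : ∀ a₁ a₂ : ℕ, ∀ p ∈ T ^ a₁, ∀ q ∈ T ^ a₂, ∀ a ∈ T, ∀ b ∈ T, a₁ + a₂ + 2 = len →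
      (Q (p * (a * b) * q) ↔ Q (p * (b * a) * q))) :
    ∀ m : ℕ, ∀ M ∈ T ^ m, ∀ a ∈ T, ∀ a₁ a₂ : ℕ, ∀ p ∈ T ^ a₁, ∀ q ∈ T ^ a₂,
      a₁ + (m + 1) + a₂ = len → (Q (p * (a * M) * q) ↔ Q (p * (M * a) * q)) := by
  intro m
  induction m with
  | zero =>
    intro M hM a _ a₁ a₂ p _ q _ _
    rw [pow_zero, Finset.mem_one] at hM
    rw [hM, mul_one, one_mul]
  | succ m ih =>
    intro M hM a ha a₁ a₂ p hp q hq hlen
    rw [pow_succ'] at hM
    obtain ⟨b, hb, M', hM', rfl⟩ := Finset.mem_mul.1 hM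
    have h1 := hswap a₁ (m + a₂) p hp (M' * q) (mul_mem_pow hM' hq) a ha b hb (by omega)
    have h2 := ih M' hM' a ha (a₁ + 1) a₂ (p * b)
      (mul_mem_pow hp (hT.mem_one hb)) q hq (by omega)
    have e1 : p * (a * (b * M')) * q = p * (a * b) * (M' * q) := by group
    have e2 : p * (b * a) * (M' * q) = p * b * (a * M') * q := by group
    have e3 : p * (b * M' * a) * q = p * b * (M' * a) * q := by group
    rw [e1, h1, e2, h2, e3]

/-- All segments of length `len` of a path with period `len` have the property `Q` if one has. -/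
theorem rotate_path {T : Finset G} (hT : Sym T) (Q : G → Prop) (len : ℕ) (hlen : 0 < len)
    (hswap : ∀ a₁ a₂ : ℕ, ∀ p ∈ T ^ a₁, ∀ q ∈ T ^ a₂, ∀ a ∈ T, ∀ b ∈ T, a₁ + a₂ + 2 = len →
      (Q (p * (a * b) * q) ↔ Q (p * (b * a) * q))) {ℓ : ℕ → G} (hℓ : ∀ t, ℓ t ∈ T)
    (hper : ∀ t, ℓ (t + len) = ℓ t) (i : ℕ) :
    Q (pth ℓ (i + len) * (pth ℓ i)⁻¹) ↔ Q (pth ℓ len) := by
  induction i with
  | zero => simp [pth]
  | succ i ih =>
    rw [← ih]
    obtain ⟨k, rfl⟩ : ∃ k, len = k + 1 := ⟨len - 1, by omega⟩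
    have hM := pth_seg_mem hℓ (i + 1) k
    have h1 := rotate hT Q (k + 1) hswap k _ hM (ℓ i) (hℓ i) 0 0 1 (by simp) 1 (by simp) (by omega)
    have e1 : pth ℓ (i + 1 + (k + 1)) * (pth ℓ (i + 1))⁻¹ =
        1 * (ℓ i * (pth ℓ (i + 1 + k) * (pth ℓ (i + 1))⁻¹)) * 1 := by
      rw [show i + 1 + (k + 1) = (i + 1 + k) + 1 by omega, pth_succ,
        show i + 1 + k = i + (k + 1) by omega, hper]
      group
    have e2 : pth ℓ (i + (k + 1)) * (pth ℓ i)⁻¹ =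
        1 * (pth ℓ (i + 1 + k) * (pth ℓ (i + 1))⁻¹ * ℓ i) * 1 := by
      rw [show i + 1 + k = i + (k + 1) by omega, pth_succ ℓ i]
      group
    rw [e1, e2]
    exact h1

end Pool.Agent.Helper11.Gap
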