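import Pool.Agent.Helper11.Gap.CaseOne
import Pool.Agent.Helper11.Gap.CaseTwo
import Pool.Agent.Helper11.Gap.Path

/-!
# Minimal distances
-/

namespace Pool.Agent.Helper11.Gap

open Pointwise
open scoped commutatorElement

variable {G : Type*} [Group G] [DecidableEq G] {K : Type*} [Field K]
variable {Γ₀ : Type*} [LinearOrderedCommGroupWithZero Γ₀]

/-- Commutators of two letters. -/
def IsX (T : Finset G) (x : G) : Prop := ∃ a ∈ T, ∃ b ∈ T, x = ⁅a, b⁆

omit [DecidableEq G] in
theorem IsX.mem {T : Finset G} {x : G} (h : IsX T x) : x ∈ commutator G := by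
  obtain ⟨a, _, b, _, rfl⟩ := h
  exact Subgroup.commutator_mem_commutator (Subgroup.mem_top a) (Subgroup.mem_top b)

theorem IsX.mem_pow {T : Finset G} (hT : Sym T) {x : G} (h : IsX T x) : x ∈ T ^ 4 := by
  obtain ⟨a, ha, b, hb, rfl⟩ := h
  exact hT.commutator_mem ha hb

omit [DecidableEq G] in
/-- The commutator subgroup is generated by the conjugates of the commutators of letters. -/
theorem commutator_le_of_conj {T : Finset G} (hgen : Subgroup.closure (T : Set G) = ⊤)
    (P : Subgroup G) (h : ∀ k x, IsX T x → k⁻¹ * x * k ∈ P) : commutator G ≤ P := by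
  have h1 : commutator G ≤ Subgroup.normalClosure {x | IsX T x} := by
    rw [← Subgroup.Normal.quotient_commutative_iff_commutator_le]
    set C := Subgroup.normalClosure {x | IsX T x} with hC
    have hcomm : ∀ a ∈ T, ∀ b ∈ T, Commute (QuotientGroup.mk a : G ⧸ C) (QuotientGroup.mk b) := by
      intro a ha b hb
      rw [← commutatorElement_eq_one_iff_commute]
      have : ((⁅a, b⁆ : G) : G ⧸ C) = 1 :=
        (QuotientGroup.eq_one_iff _).2 (Subgroup.subset_normalClosure ⟨a, ha, b, hb, rfl⟩)
      exact this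
    have hall : ∀ a : G, ∀ b : G, Commute (QuotientGroup.mk a : G ⧸ C) (QuotientGroup.mk b) := by
      have step1 : ∀ a ∈ T, ∀ b : G, Commute (QuotientGroup.mk a : G ⧸ C) (QuotientGroup.mk b) := by
        intro a ha b
        have hb : b ∈ Subgroup.closure (T : Set G) := by rw [hgen]; exact Subgroup.mem_top b
        induction hb using Subgroup.closure_induction with
        | mem x hx => exact hcomm a ha x hx
        | one => exact Commute.one_right _
        | mul x y _ _ hx hy => exact hx.mul_right hy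
        | inv x _ hx => exact hx.inv_right
      intro a b
      have ha : a ∈ Subgroup.closure (T : Set G) := by rw [hgen]; exact Subgroup.mem_top a
      induction ha using Subgroup.closure_induction with
      | mem x hx => exact step1 x hx b
      | one => exact Commute.one_left _
      | mul x y _ _ hx hy => exact hx.mul_left hy
      | inv x _ hx => exact hx.inv_left
    refine ⟨⟨fun x y => ?_⟩⟩
    obtain ⟨a, rfl⟩ := QuotientGroup.mk_surjective x
    obtain ⟨b, rfl⟩ := QuotientGroup.mk_surjective y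
    exact hall a b
  refine h1.trans ?_
  rw [Subgroup.normalClosure, Subgroup.closure_le]
  intro y hy
  obtain ⟨x, hx, hxy⟩ := Group.mem_conjugatesOfSet_iff.1 hy
  obtain ⟨c, rfl⟩ := isConj_iff.1 hxy
  have := h c⁻¹ x hx
  rwa [inv_inv] at this

/-- `x` is hyperbolic at `h`. -/
def Hyp (R : AffRep (commutator G) K) (v : Valuation K Γ₀) (h x : G) : Prop :=
  v ((R.at' h).χ x) ≠ 1

/-- Within distance `< d` of a hyperbolic position all commutators of letters fix its center. -/
def FixProp (T : Finset G) (R : AffRep (commutator G) K) (v : Valuation K Γ₀) (d : ℕ) : Prop :=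
  ∀ h x y g : G, ∀ m : ℕ, IsX T x → IsX T y → Hyp R v h x → g ∈ T ^ m → m < d →
    (R.at' (g * h)).act y ((R.at' h).ctr x) = (R.at' h).ctr x

/-- Two hyperbolic positions at distance `< e` have the same center. -/
def HypProp (T : Finset G) (R : AffRep (commutator G) K) (v : Valuation K Γ₀) (e : ℕ) : Prop :=
  ∀ h x y g : G, ∀ m : ℕ, IsX T x → IsX T y → Hyp R v h x → Hyp R v (g * h) y → g ∈ T ^ m →
    m < e → (R.at' (g * h)).ctr y = (R.at' h).ctr x

omit [DecidableEq G] in
theorem Hyp.ne_one {R : AffRep (commutator G) K} {v : Valuation K Γ₀} {h x : G}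
    (hh : Hyp R v h x) : (R.at' h).χ x ≠ 1 := by
  intro h1
  rw [Hyp, h1, map_one] at hh
  exact hh rfl

theorem exists_min (T : Finset G) (hT : Sym T) (hgen : Subgroup.closure (T : Set G) = ⊤)
    (R : AffRep (commutator G) K) (v : Valuation K Γ₀)
    (H1 : ∃ n ∈ commutator G, v (R.χ n) ≠ 1)
    (H2 : ∀ z : K, ∃ n ∈ commutator G, R.act n z ≠ z) :
    ∃ d : ℕ, FixProp T R v d ∧ ∃ h x y g : G, IsX T x ∧ IsX T y ∧ Hyp R v h x ∧ g ∈ T ^ d ∧
      (R.at' (g * h)).act y ((R.at' h).ctr x) ≠ (R.at' h).ctr x := by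
  classical
  -- a hyperbolic position
  have hhyp : ∃ h x, IsX T x ∧ Hyp R v h x := by
    by_contra hcon
    push Not at hcon
    obtain ⟨n, hn, hvn⟩ := H1
    let P : Subgroup G :=
      { carrier := {n | n ∈ commutator G ∧ v (R.χ n) = 1}
        one_mem' := ⟨Subgroup.one_mem _, by rw [R.χ_one, map_one]⟩
        mul_mem' := by
          rintro a b ⟨ha, ha'⟩ ⟨hb, hb'⟩
          exact ⟨Subgroup.mul_mem _ ha hb, by rw [R.χ_mul a ha b hb, map_mul, ha', hb', one_mul]⟩
        inv_mem' := by
          rintro a ⟨ha, ha'⟩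
          exact ⟨Subgroup.inv_mem _ ha, by rw [R.χ_inv ha, map_inv₀, ha', inv_one]⟩ }
    have hle := commutator_le_of_conj hgen P (by
      intro k x hx
      have h1 := hcon k x hx
      rw [Hyp, not_not, AffRep.at'_χ] at h1
      refine ⟨?_, h1⟩
      have := (inferInstance : (commutator G).Normal).conj_mem x hx.mem k⁻¹
      rwa [inv_inv] at this)
    exact hvn (hle hn).2
  obtain ⟨h₀, x₀, hx₀, hh₀⟩ := hhyp
  -- somebody moves the center
  have hex : ∃ d : ℕ, ∃ h x y g : G, IsX T x ∧ IsX T y ∧ Hyp R v h x ∧ g ∈ T ^ d ∧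
      (R.at' (g * h)).act y ((R.at' h).ctr x) ≠ (R.at' h).ctr x := by
    by_contra hcon
    push Not at hcon
    set o := (R.at' h₀).ctr x₀ with ho
    obtain ⟨n, hn, hmove⟩ := H2 o
    let P : Subgroup G :=
      { carrier := {n | n ∈ commutator G ∧ R.act n o = o}
        one_mem' := ⟨Subgroup.one_mem _, R.act_one o⟩
        mul_mem' := by
          rintro a b ⟨ha, ha'⟩ ⟨hb, hb'⟩
          exact ⟨Subgroup.mul_mem _ ha hb, R.fix_mul ha hb ha' hb'⟩
        inv_mem' := by
          rintro a ⟨ha, ha'⟩
          exact ⟨Subgroup.inv_mem _ ha, R.fix_inv ha ha'⟩ }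
    have hle := commutator_le_of_conj hgen P (by
      intro k y hy
      obtain ⟨m, hm⟩ := hT.exists_mem_pow_of_mem_closure (g := k * h₀⁻¹)
        (by rw [hgen]; exact Subgroup.mem_top _)
      have h1 := hcon m h₀ x₀ y (k * h₀⁻¹) hx₀ hy hh₀ hm
      rw [inv_mul_cancel_right, AffRep.at'_act] at h1
      refine ⟨?_, h1⟩
      have := (inferInstance : (commutator G).Normal).conj_mem y hy.mem k⁻¹
      rwa [inv_inv] at this)
    exact hmove (hle hn).2
  refine ⟨Nat.find hex, ?_, Nat.find_spec hex⟩
  intro h x y g m hx hy hh hg hm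
  by_contra hne
  exact Nat.find_min hex hm ⟨h, x, y, g, hx, hy, hh, hg, hne⟩

/-- Products of blocks. -/
theorem list_prod_mem_pow {T : Finset G} {ι : Type*} (e : ι → G) (l : ℕ) (L : List ι)
    (h : ∀ a ∈ L, e a ∈ T ^ l) : (L.map e).prod ∈ T ^ (l * L.length) := by
  induction L with
  | nil => simp
  | cons a L ih =>
    rw [List.map_cons, List.prod_cons, List.length_cons, mul_add, mul_one, add_comm]
    exact mul_mem_pow (h a (by simp)) (ih (fun b hb => h b (by simp [hb])))

/-- A free family of blocks gives exponential growth. -/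
theorem card_pow_of_free {T : Finset G} {ι : Type*} (e : ι → G) (A : Finset ι) (l : ℕ)
    (h : ∀ a ∈ A, e a ∈ T ^ l)
    (hfree : ∀ L L' : List ι, (∀ a ∈ L, a ∈ A) → (∀ a ∈ L', a ∈ A) → L.length = L'.length →
      (L.map e).prod = (L'.map e).prod → L = L') (k : ℕ) :
    A.card ^ k ≤ (T ^ (l * k)).card := by
  classical
  have h1 : Fintype.card (Fin k → A) = A.card ^ k := by
    rw [Fintype.card_fun, Fintype.card_fin, Fintype.card_coe]
  rw [← h1, ← Finset.card_univ]
  have hmem : ∀ f : Fin k → A, ∀ a ∈ List.ofFn (fun i => (f i : ι)), a ∈ A := by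
    intro f a ha
    rw [List.mem_ofFn] at ha
    obtain ⟨i, rfl⟩ := ha
    exact (f i).2
  apply Finset.card_le_card_of_injOn
    (fun f : Fin k → A => ((List.ofFn (fun i => (f i : ι))).map e).prod)
  · intro f _
    have := list_prod_mem_pow (T := T) e l (List.ofFn (fun i => (f i : ι)))
      (fun a ha => h a (hmem f a ha))
    rw [List.length_ofFn] at this
    exact this
  · intro f _ f' _ hff
    have := hfree _ _ (hmem f) (hmem f') (by simp) hff
    have h2 := List.ofFn_injective this
    funext i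
    exact Subtype.ext (congrFun h2 i)

/-- The conclusion of the argument. -/
def Big (T : Finset G) : Prop :=
  ∃ l m : ℕ, 0 < l ∧ (∀ k, m ^ k ≤ (T ^ (l * k)).card) ∧ 2 ^ l ≤ m ^ 328

end Pool.Agent.Helper11.Gap
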