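import Pool.Agent.Helper11.Gap.MainTwo

/-!
# Growth from an affine representation of the derived subgroup
-/

namespace Pool.Agent.Helper11.Gap

open Pointwise
open scoped commutatorElement

variable {G : Type*} [Group G] {K : Type*} [Field K]
variable {Γ₀ : Type*} [LinearOrderedCommGroupWithZero Γ₀]

theorem swap_step_one [DecidableEq G] {T : Finset G} (hT : Sym T) (R : AffRep (commutator G) K)
    (v : Valuation K Γ₀) (d : ℕ)
    (hfix : FixProp T R v d) (h x y : G) (hx : IsX T x) (hy : IsX T y) (hh : Hyp R v h x)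
    (a₂ : ℕ) (p : G) (q : G) (hq : q ∈ T ^ a₂) (a : G) (ha : a ∈ T) (b : G)
    (hb : b ∈ T) (hlen : a₂ < d)
    (hQ : (R.at' (p * (a * b) * q * h)).act y ((R.at' h).ctr x) ≠ (R.at' h).ctr x) :
    (R.at' (p * (b * a) * q * h)).act y ((R.at' h).ctr x) ≠ (R.at' h).ctr x := by
  have hcX : IsX T ⁅b⁻¹, a⁻¹⁆ := ⟨_, hT.inv b hb, _, hT.inv a ha, rfl⟩
  have ecR : p * (b * a) * q * h =
      (p * (a * b) * q * h) * ((q * h)⁻¹ * ⁅b⁻¹, a⁻¹⁆ * (q * h)) := by
    rw [commutatorElement_def]; group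
  have hκN : (q * h)⁻¹ * ⁅b⁻¹, a⁻¹⁆ * (q * h) ∈ commutator G := conj_mem' hcX.mem _
  have hfixo := hfix h x _ q a₂ hx hcX hh hq hlen
  rw [AffRep.at'_act] at hfixo
  intro hcon
  rw [ecR, R.at'_mul_fix_iff hκN hy.mem hfixo] at hcon
  exact hQ hcon

theorem dynamics [DecidableEq G] {T : Finset G} (hT : Sym T)
    (hgen : Subgroup.closure (T : Set G) = ⊤) (R : AffRep (commutator G) K) (v : Valuation K Γ₀)
    (H1 : ∃ n ∈ commutator G, v (R.χ n) ≠ 1)
    (H2 : ∀ z : K, ∃ n ∈ commutator G, R.act n z ≠ z) : Big T := by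
  classical
  obtain ⟨d, hfix, h, x, y, g, hx, hy, hh, hg, hmove⟩ := exists_min T hT hgen R v H1 H2
  obtain ⟨ℓ, hℓ, hper, hpth⟩ := exists_pth hT d g hg
  have hmoveall : ∀ i < max d 1, (R.at' (pth ℓ (i + d) * (pth ℓ i)⁻¹ * h)).act y
      ((R.at' h).ctr x) ≠ (R.at' h).ctr x := by
    intro i hi
    rcases Nat.eq_zero_or_pos d with hd0 | hd0
    · have hi0 : i = 0 := by omega
      subst hi0
      subst hd0
      have e : pth ℓ (0 + 0) * (pth ℓ 0)⁻¹ * h = g * h := by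
        rw [← hpth]; simp [pth]
      rw [e]
      exact hmove
    · have hrot := rotate_path hT
        (fun w => (R.at' (w * h)).act y ((R.at' h).ctr x) ≠ (R.at' h).ctr x) d hd0
        (by
          intro a₁ a₂ p _ q hq a ha b hb hlen
          constructor
          · exact swap_step_one hT R v d hfix h x y hx hy hh a₂ p q hq a ha b hb (by omega)
          · exact swap_step_one hT R v d hfix h x y hx hy hh a₂ p q hq b hb a ha (by omega))
        hℓ hper i
      rw [hpth] at hrot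
      exact hrot.2 hmove
  by_cases hell : ∀ i t, i < t → t < max d 1 →
      v ((R.at' (pth ℓ (t + d) * (pth ℓ i)⁻¹ * h)).χ y) = 1
  · exact mainOne hT R v d hfix h x y hx hy hh hℓ hmoveall hell
  · push Not at hell
    obtain ⟨i, t, hit, htD, hvt⟩ := hell
    have hd2 : 2 ≤ d := by omega
    have htd : t < d := by omega
    -- a hyperbolic pair with different centers
    have hyp1 : Hyp R v (pth ℓ (t + d) * (pth ℓ i)⁻¹ * h) y := hvt
    have hex : ∃ e : ℕ, ∃ h x y g : G, IsX T x ∧ IsX T y ∧ Hyp R v h x ∧ Hyp R v (g * h) y ∧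
        g ∈ T ^ e ∧ (R.at' (g * h)).ctr y ≠ (R.at' h).ctr x := by
      refine ⟨t + d - i, h, x, y, pth ℓ (t + d) * (pth ℓ i)⁻¹, hx, hy, hh, hyp1,
        pth_seg_mem' hT hℓ (by omega) (by omega), ?_⟩
      intro hcon
      have h1 := hfix (pth ℓ (t + d) * (pth ℓ i)⁻¹ * h) y y (pth ℓ (i + d) * (pth ℓ (t + d))⁻¹)
        (t - i) hy hy hyp1 (pth_seg_mem' hT hℓ (by omega) (by omega)) (by omega)
      have e1 : pth ℓ (i + d) * (pth ℓ (t + d))⁻¹ * (pth ℓ (t + d) * (pth ℓ i)⁻¹ * h) =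
          pth ℓ (i + d) * (pth ℓ i)⁻¹ * h := by group
      rw [e1, hcon] at h1
      exact hmoveall i (by omega) h1
    have hfind_le : Nat.find hex ≤ t + d - i := by
      apply Nat.find_min'
      refine ⟨h, x, y, pth ℓ (t + d) * (pth ℓ i)⁻¹, hx, hy, hh, hyp1,
        pth_seg_mem' hT hℓ (by omega) (by omega), ?_⟩
      intro hcon
      have h1 := hfix (pth ℓ (t + d) * (pth ℓ i)⁻¹ * h) y y (pth ℓ (i + d) * (pth ℓ (t + d))⁻¹)
        (t - i) hy hy hyp1 (pth_seg_mem' hT hℓ (by omega) (by omega)) (by omega)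
      have e1 : pth ℓ (i + d) * (pth ℓ (t + d))⁻¹ * (pth ℓ (t + d) * (pth ℓ i)⁻¹ * h) =
          pth ℓ (i + d) * (pth ℓ i)⁻¹ * h := by group
      rw [e1, hcon] at h1
      exact hmoveall i (by omega) h1
    have hhypprop : HypProp T R v (Nat.find hex) := by
      intro h x y g m hx hy hh hh' hg hm
      by_contra hne
      exact Nat.find_min hex hm ⟨h, x, y, g, hx, hy, hh, hh', hg, hne⟩
    obtain ⟨h₂, x₂, y₂, g₂, hx₂, hy₂, hh₂, hh₂', hg₂, hne₂⟩ := Nat.find_spec hex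
    set e := Nat.find hex with he
    have hde : d ≤ e := by
      by_contra hlt
      push Not at hlt
      have h1 := hfix h₂ x₂ y₂ g₂ e hx₂ hy₂ hh₂ hg₂ hlt
      exact hne₂ ((R.at' (g₂ * h₂)).eq_ctr hh₂'.ne_one h1).symm
    obtain ⟨ℓ₂, hℓ₂, hper₂, hpth₂⟩ := exists_pth hT e g₂ hg₂
    exact mainTwo hT R v d e (by omega) hde (by omega) hfix hhypprop h₂ x₂ y₂ hx₂ hy₂ hh₂ hℓ₂
      hper₂ (by rw [hpth₂]; exact hh₂') (by rw [hpth₂]; exact hne₂)

end Pool.Agent.Helper11.Gap
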