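import Pool.Agent.Helper11.Gap.DerivedModule
import Pool.Agent.Helper11.Gap.Dynamics

/-!
# Growth when the derived subgroup is finitely generated
-/

namespace Pool.Agent.Helper11.Gap

open Polynomial Pointwise
open scoped commutatorElement

universe u

theorem el_mem_commutator {N : Type u} [Group N] (c : commutator N) : el (c : N) = 1 := by
  have : (Abelianization.of (c : N)) = 1 := by
    rw [← MonoidHom.mem_ker, Abelianization.ker_of]
    exact c.2
  rw [el, this, map_one]

theorem exists_affine {N : Type u} [Group N] [hfg : Group.FG N] (h : ¬ Module.Finite ℤ (DM N)) :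
    ∃ (K : Type u) (_ : Field K) (V : ValuationSubring K) (χ β : N → K),
      χ 1 = 1 ∧ (∀ a b, χ (a * b) = χ a * χ b) ∧ (∀ a b, β (a * b) = β a + χ a * β b) ∧
      (∃ a, V.valuation (χ a) ≠ 1) ∧ ∀ z, ∃ a, χ a * z + β a ≠ z := by
  have hfin := finite_DM (N := N)
  have hex : ∃ a₀ : N, ∀ f : ℤ[X], f.Monic →
      aeval (el a₀) f ∉ Module.annihilator (GR N) (DM N) := by
    by_contra hcon
    push Not at hcon
    exact h (finite_int_of_integral (fun a => hcon a))
  obtain ⟨a₀, ha₀⟩ := hex
  obtain ⟨K, _, ψ, ι, V, hι, ⟨m, hm⟩, hV⟩ := exists_place (M := DM N) (el a₀) ha₀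
  have hv : 1 < V.valuation (ψ (el a₀)) := by
    rw [← not_le, V.valuation_le_one_iff]
    exact hV
  have hne : (1 : K) - ψ (el a₀) ≠ 0 := by
    intro h0
    rw [← sub_eq_zero.1 h0, map_one] at hv
    exact lt_irrefl _ hv
  refine ⟨K, inferInstance, V, fun a => ψ (el a), fun a => ι (cc a a₀) / (1 - ψ (el a₀)),
    ?_, ?_, ?_, ⟨a₀, hv.ne'⟩, ?_⟩
  · simp only
    rw [el_one, map_one]
  · intro a b
    simp only
    rw [el_mul, map_mul]
  · intro a b
    simp only
    rw [cc_mul_left, map_add, hι]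
    ring
  · intro z
    obtain ⟨c, rfl⟩ := cls_surj m
    refine ⟨(c : N), ?_⟩
    simp only
    rw [el_mem_commutator, map_one, one_mul, cc_mem, map_sub, hι]
    have e : (ι (cls c) - ψ (el a₀) * ι (cls c)) / (1 - ψ (el a₀)) = ι (cls c) := by
      field_simp
    rw [e]
    intro h0
    exact hm (by simpa using h0)

/-- The main theorem in the case of a finitely generated derived subgroup. -/
theorem big_of_fg {G : Type u} [Group G] [DecidableEq G] {T : Finset G} (hT : Sym T)
    (hgen : Subgroup.closure (T : Set G) = ⊤) (hfg : Group.FG (commutator G))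
    (h : ¬ Module.Finite ℤ (DM (commutator G))) : Big T := by
  classical
  obtain ⟨K, _, V, χ, β, h1, h2, h3, ⟨a, ha⟩, h5⟩ := exists_affine h
  let R : AffRep (commutator G) K :=
    { χ := fun g => if hg : g ∈ commutator G then χ ⟨g, hg⟩ else 1
      β := fun g => if hg : g ∈ commutator G then β ⟨g, hg⟩ else 0
      χ_one := by
        rw [dif_pos (Subgroup.one_mem _)]
        exact h1
      χ_mul := by
        intro a ha b hb
        rw [dif_pos ha, dif_pos hb, dif_pos (Subgroup.mul_mem _ ha hb)]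
        exact h2 ⟨a, ha⟩ ⟨b, hb⟩
      β_mul := by
        intro a ha b hb
        rw [dif_pos ha, dif_pos ha, dif_pos hb, dif_pos (Subgroup.mul_mem _ ha hb)]
        exact h3 ⟨a, ha⟩ ⟨b, hb⟩ }
  have hχ : ∀ a : commutator G, R.χ a = χ a := fun a => dif_pos a.2
  have hβ : ∀ a : commutator G, R.β a = β a := fun a => dif_pos a.2
  refine dynamics hT hgen R V.valuation ⟨a, a.2, ?_⟩ ?_
  · rw [hχ]; exact ha
  · intro z
    obtain ⟨b, hb⟩ := h5 z
    refine ⟨b, b.2, ?_⟩
    rw [AffRep.act, hχ, hβ]
    exact hb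

end Pool.Agent.Helper11.Gap
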