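import Pool.Agent.Helper11.Gap.Milnor
import Pool.Agent.Helper11.Gap.Dist

/-!
# Growth when the derived subgroup is not finitely generated
-/

namespace Pool.Agent.Helper11.Gap

open Pointwise
open scoped commutatorElement

variable {G : Type*} [Group G]

/-- If one conjugate lies in the subgroup generated by the previous ones, all do. -/
theorem cj_mem_all (x a : G) (n : ℕ) (hn : cj x a n ∈ FF x a n) (i : ℕ) : cj x a i ∈ FF x a n := by
  have hcj : ∀ i, x * cj x a i * x⁻¹ = cj x a (i + 1) := by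
    intro i
    simp only [cj, pow_succ']
    group
  have hconj : ∀ g ∈ FF x a n, x * g * x⁻¹ ∈ FF x a n := by
    intro g hg
    have hle : FF x a n ≤ (FF x a n).comap (MulAut.conj x).toMonoidHom := by
      apply (Subgroup.closure_le _).2
      rintro _ ⟨i, hi, rfl⟩
      rw [SetLike.mem_coe, Subgroup.mem_comap]
      change x * cj x a i * x⁻¹ ∈ _
      rw [hcj]
      have hi' : i < n := hi
      rcases Nat.lt_or_ge (i + 1) n with h | h
      · exact cj_mem_FF x a h
      · have : i + 1 = n := by omega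
        rw [this]
        exact hn
    exact hle hg
  induction i with
  | zero =>
    rcases Nat.eq_zero_or_pos n with h | h
    · rw [h] at hn ⊢
      exact hn
    · exact cj_mem_FF x a h
  | succ i ih =>
    rw [← hcj]
    exact hconj _ ih

variable [DecidableEq G]

/-- The subgroup generated by the conjugates of the commutators of letters by short elements. -/
def HH (T : Finset G) (n : ℕ) : Subgroup G :=
  Subgroup.closure {y | ∃ x, IsX T x ∧ ∃ g ∈ T ^ n, y = g⁻¹ * x * g}

theorem mem_HH {T : Finset G} {n : ℕ} {x g : G} (hx : IsX T x) (hg : g ∈ T ^ n) :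
    g⁻¹ * x * g ∈ HH T n := Subgroup.subset_closure ⟨x, hx, g, hg, rfl⟩

theorem HH_mono {T : Finset G} (hT : Sym T) {m n : ℕ} (h : m ≤ n) : HH T m ≤ HH T n := by
  rw [HH, Subgroup.closure_le]
  rintro y ⟨x, hx, g, hg, rfl⟩
  exact mem_HH hx (hT.mono h hg)

theorem list_prod_mem' {T : Finset G} (l : List G) (hl : ∀ a ∈ l, a ∈ T) :
    l.prod ∈ T ^ l.length := by
  induction l with
  | nil => simp
  | cons a l ih =>
    rw [List.prod_cons, List.length_cons, pow_succ']
    exact Finset.mul_mem_mul (hl a (by simp)) (ih (fun b hb => hl b (by simp [hb])))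

/-- Reordering the letters of a word. -/
theorem perm_mem {T : Finset G} (hT : Sym T) {l l' : List G} (h : l.Perm l') :
    (∀ a ∈ l, a ∈ T) → ∀ m : ℕ, ∀ q ∈ T ^ m, q⁻¹ * ((l'.prod)⁻¹ * l.prod) * q ∈
      HH T (m + l.length - 2) := by
  induction h with
  | nil =>
    intro _ m q _
    simp only [List.prod_nil, inv_one, mul_one, inv_mul_cancel]
    exact Subgroup.one_mem _
  | @cons a l₁ l₂ _ ih =>
    intro hl m q hq
    have h1 := ih (fun b hb => hl b (by simp [hb])) m q hq
    have e : q⁻¹ * ((List.prod (a :: l₂))⁻¹ * (List.prod (a :: l₁))) * q =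
        q⁻¹ * (l₂.prod⁻¹ * l₁.prod) * q := by
      rw [List.prod_cons, List.prod_cons]; group
    rw [e]
    refine HH_mono hT ?_ h1
    rw [List.length_cons]
    omega
  | swap a b l₁ =>
    intro hl m q hq
    have ha : a ∈ T := hl a (by simp)
    have hb : b ∈ T := hl b (by simp)
    have hM : l₁.prod * q ∈ T ^ (l₁.length + m) :=
      mul_mem_pow (list_prod_mem' l₁ (fun c hc => hl c (by simp [hc]))) hq
    have e : q⁻¹ * ((List.prod (a :: b :: l₁))⁻¹ * (List.prod (b :: a :: l₁))) * q =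
        (l₁.prod * q)⁻¹ * ⁅b⁻¹, a⁻¹⁆ * (l₁.prod * q) := by
      simp only [List.prod_cons, commutatorElement_def]; group
    rw [e]
    refine HH_mono hT ?_ (mem_HH ⟨_, hT.inv b hb, _, hT.inv a ha, rfl⟩ hM)
    simp only [List.length_cons]
    omega
  | @trans l₁ l₂ l₃ h12 _ ih1 ih2 =>
    intro hl m q hq
    have h1 := ih1 hl m q hq
    have h2 := ih2 (fun b hb => hl b (h12.mem_iff.2 hb)) m q hq
    rw [← h12.length_eq] at h2
    have e : q⁻¹ * ((List.prod l₃)⁻¹ * (List.prod l₁)) * q =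
        (q⁻¹ * ((List.prod l₃)⁻¹ * (List.prod l₂)) * q) *
          (q⁻¹ * ((List.prod l₂)⁻¹ * (List.prod l₁)) * q) := by
      group
    rw [e]
    exact Subgroup.mul_mem _ h2 h1

theorem exists_list_of_mem_pow {T : Finset G} {n : ℕ} {g : G} (hg : g ∈ T ^ n) :
    ∃ l : List G, l.length = n ∧ (∀ a ∈ l, a ∈ T) ∧ l.prod = g := by
  induction n generalizing g with
  | zero =>
    rw [pow_zero, Finset.mem_one] at hg
    exact ⟨[], rfl, by simp, by simp [hg]⟩
  | succ n ih =>
    rw [pow_succ'] at hg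
    obtain ⟨a, ha, b, hb, rfl⟩ := Finset.mem_mul.1 hg
    obtain ⟨l, h1, h2, h3⟩ := ih hb
    refine ⟨a :: l, by simp [h1], ?_, by simp [h3]⟩
    intro c hc
    rcases List.mem_cons.1 hc with rfl | hc
    · exact ha
    · exact h2 c hc

theorem exists_count {T : Finset G} (l : List G) (hl : ∀ a ∈ l, a ∈ T) (J : ℕ)
    (hlen : T.card * J < l.length) : ∃ s ∈ T, J < l.count s := by
  by_contra hcon
  push Not at hcon
  have h1 := List.sum_toFinset_count_eq_length l
  have h2 : l.toFinset ⊆ T := by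
    intro a ha
    exact hl a (List.mem_toFinset.1 ha)
  have h3 : ∑ a ∈ l.toFinset, l.count a ≤ ∑ a ∈ T, l.count a :=
    Finset.sum_le_sum_of_subset h2
  have h4 : ∑ a ∈ T, l.count a ≤ T.card * J := by
    rw [← smul_eq_mul]
    exact Finset.sum_le_card_nsmul T _ J (fun a ha => hcon a ha)
  omega

/-- If the conjugates of all commutators of letters by powers of letters generate finitely
generated subgroups, the derived subgroup is finitely generated. -/
theorem fg_of_cj {T : Finset G} (hT : Sym T) (hgen : Subgroup.closure (T : Set G) = ⊤) (J : ℕ)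
    (hJ : ∀ x s, IsX T x → s ∈ T → ∀ k : ℕ, cj s⁻¹ x k ∈ FF s⁻¹ x J) : (commutator G).FG := by
  classical
  set K := T.card * J with hK
  have hstep : ∀ n, K ≤ n → HH T (n + 1) ≤ HH T n := by
    intro n hn
    rw [HH, Subgroup.closure_le]
    rintro y ⟨x, hx, g, hg, rfl⟩
    obtain ⟨l, hl1, hl2, hl3⟩ := exists_list_of_mem_pow hg
    obtain ⟨s, hs, hcount⟩ := exists_count l hl2 J (by omega)
    set k := l.count s with hk
    set l₀ := l.filter (fun a => !decide (a = s)) with hl₀
    have hperm : l.Perm (List.replicate k s ++ l₀) := by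
      have h1 := List.filter_append_perm (fun a => decide (a = s)) l
      have h2 : l.filter (fun a => decide (a = s)) = List.replicate k s := by
        have := List.filter_eq (l := l) s
        rw [hk, ← this]
      rw [h2] at h1
      exact h1.symm
    have hlen : k + l₀.length = n + 1 := by
      have := hperm.length_eq
      rw [hl1, List.length_append, List.length_replicate] at this
      exact this.symm
    have hl₀T : ∀ a ∈ l₀, a ∈ T := fun a ha => hl2 a (List.mem_of_mem_filter ha)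
    have hc := perm_mem hT hperm hl2 0 1 (by simp)
    rw [inv_one, one_mul, mul_one, zero_add, hl1, hl3] at hc
    set g' := (List.replicate k s ++ l₀).prod with hg'
    set c := g'⁻¹ * g with hcdef
    have hcn : c ∈ HH T n := HH_mono hT (by omega) hc
    have hg'eq : g' = s ^ k * l₀.prod := by
      rw [hg', List.prod_append, List.prod_replicate]
    have hmain : g'⁻¹ * x * g' ∈ HH T n := by
      have e1 : g'⁻¹ * x * g' = (l₀.prod)⁻¹ * cj s⁻¹ x k * l₀.prod := by
        rw [hg'eq, cj]; group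
      rw [e1]
      have h1 := hJ x s hx hs k
      have hle : FF s⁻¹ x J ≤ (HH T n).comap (MulAut.conj (l₀.prod)⁻¹).toMonoidHom := by
        rw [FF, Subgroup.closure_le]
        rintro _ ⟨i, hi, rfl⟩
        rw [SetLike.mem_coe, Subgroup.mem_comap]
        change (l₀.prod)⁻¹ * cj s⁻¹ x i * ((l₀.prod)⁻¹)⁻¹ ∈ _
        have hi' : i < J := hi
        have e2 : (l₀.prod)⁻¹ * cj s⁻¹ x i * ((l₀.prod)⁻¹)⁻¹ =
            (s ^ i * l₀.prod)⁻¹ * x * (s ^ i * l₀.prod) := by
          rw [cj]; group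
        rw [e2]
        have h3 : s ^ i * l₀.prod ∈ T ^ (1 * i + l₀.length) :=
          mul_mem_pow (hT.pow_mem_pow (hT.mem_one hs) i) (list_prod_mem' l₀ hl₀T)
        exact mem_HH hx (hT.mono (by omega) h3)
      have h2 := hle h1
      rw [Subgroup.mem_comap] at h2
      change (l₀.prod)⁻¹ * cj s⁻¹ x k * ((l₀.prod)⁻¹)⁻¹ ∈ _ at h2
      rwa [inv_inv] at h2
    have e : g⁻¹ * x * g = c⁻¹ * (g'⁻¹ * x * g') * c := by
      rw [hcdef]; group
    rw [SetLike.mem_coe, e]
    exact Subgroup.mul_mem _ (Subgroup.mul_mem _ (Subgroup.inv_mem _ hcn) hmain) hcn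
  have hall : ∀ n, HH T n ≤ HH T K := by
    intro n
    rcases le_total n K with h | h
    · exact HH_mono hT h
    · obtain ⟨j, rfl⟩ := Nat.exists_eq_add_of_le h
      clear h
      induction j with
      | zero => exact le_rfl
      | succ j ih => exact (hstep (K + j) (by omega)).trans ih
  have heq : commutator G = HH T K := by
    apply le_antisymm
    · apply commutator_le_of_conj hgen
      intro k x hx
      obtain ⟨m, hm⟩ := hT.exists_mem_pow_of_mem_closure (g := k)
        (by rw [hgen]; exact Subgroup.mem_top _)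
      exact hall m (mem_HH hx hm)
    · rw [HH, Subgroup.closure_le]
      rintro y ⟨x, hx, g, _, rfl⟩
      have := (inferInstance : (commutator G).Normal).conj_mem x hx.mem g⁻¹
      rwa [inv_inv] at this
  rw [heq]
  refine ⟨((T ×ˢ T) ×ˢ (T ^ K)).image (fun p => p.2⁻¹ * ⁅p.1.1, p.1.2⁆ * p.2), ?_⟩
  rw [HH]
  congr 1
  ext y
  constructor
  · intro hy
    rw [Finset.mem_coe, Finset.mem_image] at hy
    obtain ⟨⟨⟨a, b⟩, g⟩, hp, rfl⟩ := hy
    rw [Finset.mem_product, Finset.mem_product] at hp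
    exact ⟨⁅a, b⁆, ⟨a, hp.1.1, b, hp.1.2, rfl⟩, g, hp.2, rfl⟩
  · rintro ⟨x, ⟨a, ha, b, hb, rfl⟩, g, hg, rfl⟩
    rw [Finset.mem_coe, Finset.mem_image]
    exact ⟨((a, b), g), Finset.mem_product.2 ⟨Finset.mem_product.2 ⟨ha, hb⟩, hg⟩, rfl⟩

/-- The main theorem in the case of a derived subgroup which is not finitely generated. -/
theorem big_of_not_fg {T : Finset G} (hT : Sym T) (hgen : Subgroup.closure (T : Set G) = ⊤)
    (h : ¬ (commutator G).FG) : Big T := by
  classical
  by_cases hex : ∃ x s, IsX T x ∧ s ∈ T ∧ ∀ n, cj s⁻¹ x n ∉ FF s⁻¹ x n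
  · obtain ⟨x, s, hx, hs, hn⟩ := hex
    have h1 : s⁻¹ ∈ T ^ 5 := hT.mono (by norm_num) (hT.mem_one (hT.inv s hs))
    have h2 : x * s⁻¹ ∈ T ^ 5 := by
      have := mul_mem_pow (hx.mem_pow hT) (hT.mem_one (hT.inv s hs))
      exact this
    refine ⟨5, 2, by norm_num, fun k => ?_, ?_⟩
    · rw [pow_mul]
      exact two_pow_le_card s⁻¹ x (T ^ 5) h1 h2 hn k
    · exact Nat.pow_le_pow_right (by norm_num) (by norm_num)
  · exfalso
    push Not at hex
    -- a uniform bound
    have hchoose : ∀ p : (G × G) × G, ∃ n : ℕ, p.1.1 ∈ T → p.1.2 ∈ T → p.2 ∈ T →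
        cj p.2⁻¹ ⁅p.1.1, p.1.2⁆ n ∈ FF p.2⁻¹ ⁅p.1.1, p.1.2⁆ n := by
      intro p
      by_cases hp : p.1.1 ∈ T ∧ p.1.2 ∈ T ∧ p.2 ∈ T
      · obtain ⟨n, hn⟩ := hex _ _ ⟨p.1.1, hp.1, p.1.2, hp.2.1, rfl⟩ hp.2.2
        exact ⟨n, fun _ _ _ => hn⟩
      · exact ⟨0, fun h1 h2 h3 => absurd ⟨h1, h2, h3⟩ hp⟩
    choose f hf using hchoose
    set J := ((T ×ˢ T) ×ˢ T).sup f with hJ
    apply h
    apply fg_of_cj hT hgen J
    rintro x s ⟨a, ha, b, hb, rfl⟩ hs k
    have h1 := hf ((a, b), s) ha hb hs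
    have h2 := cj_mem_all _ _ _ h1 k
    refine FF_mono _ _ ?_ h2
    exact Finset.le_sup (f := f) (b := ((a, b), s))
      (Finset.mem_product.2 ⟨Finset.mem_product.2 ⟨ha, hb⟩, hs⟩)

end Pool.Agent.Helper11.Gap
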