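import Pool.Agent.Helper11.Gap.FG
import Pool.Agent.Helper11.Gap.NotFG
import Pool.Agent.Helper11.Gap.Polycyclic

/-!
# The growth gap
-/

namespace Pool.Agent.Helper11.Gap

open Pointwise Filter Topology

theorem subadditive_log_card {G : Type*} [Group G] [DecidableEq G] (S : Finset G)
    (hne : S.Nonempty) : Subadditive (fun n : ℕ => Real.log ((S ^ n).card : ℝ)) := by
  intro m n
  have hm : (0 : ℝ) < ((S ^ m).card : ℝ) := by exact_mod_cast (hne.pow).card_pos
  have hn : (0 : ℝ) < ((S ^ n).card : ℝ) := by exact_mod_cast (hne.pow).card_pos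
  have hmn : (0 : ℝ) < ((S ^ (m + n)).card : ℝ) := by exact_mod_cast (hne.pow).card_pos
  change Real.log ((S ^ (m + n)).card : ℝ) ≤ Real.log ((S ^ m).card : ℝ) +
    Real.log ((S ^ n).card : ℝ)
  rw [← Real.log_mul hm.ne' hn.ne']
  apply Real.log_le_log hmn
  rw [pow_add]
  exact_mod_cast Finset.card_mul_le

theorem log_card_nonneg {G : Type*} [Group G] [DecidableEq G] (S : Finset G)
    (hne : S.Nonempty) (n : ℕ) : 0 ≤ Real.log ((S ^ n).card : ℝ) / n := by
  apply div_nonneg _ (Nat.cast_nonneg _)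
  apply Real.log_nonneg
  have := (hne.pow (n := n)).card_pos
  exact_mod_cast this

theorem exists_rate {G : Type*} [Group G] [DecidableEq G] (S : Finset G)
    (hne : S.Nonempty) : ∃ ρ : ℝ, Tendsto (fun n : ℕ => Real.log ((S ^ n).card : ℝ) / n) atTop
      (𝓝 ρ) := by
  refine ⟨(subadditive_log_card S hne).lim, (subadditive_log_card S hne).tendsto_lim ⟨0, ?_⟩⟩
  rintro _ ⟨n, rfl⟩
  exact log_card_nonneg S hne n

/-- Adding `1` to a symmetric set. -/
theorem card_insert_pow_le {G : Type*} [Group G] [DecidableEq G] (S : Finset G)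
    (hne : S.Nonempty) (hsymm : ∀ s ∈ S, s⁻¹ ∈ S) (n : ℕ) :
    ((insert 1 S) ^ n).card ≤ 2 * (S ^ (n + 1)).card := by
  obtain ⟨s, hs⟩ := hne
  have hone : (1 : G) ∈ S ^ 2 := by
    rw [pow_two]
    exact Finset.mem_mul.2 ⟨s, hs, s⁻¹, hsymm s hs, mul_inv_cancel s⟩
  have h2 : ∀ n, S ^ n ⊆ S ^ (n + 2) := by
    intro n x hx
    rw [pow_add]
    exact Finset.mem_mul.2 ⟨x, hx, 1, hone, mul_one x⟩
  have hsub : ∀ n, (insert 1 S) ^ n ⊆ S ^ n ∪ S ^ (n + 1) := by
    intro n
    induction n with
    | zero =>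
      intro x hx
      rw [pow_zero] at hx
      rw [Finset.mem_union, pow_zero]
      exact Or.inl hx
    | succ n ih =>
      intro x hx
      rw [pow_succ] at hx
      obtain ⟨y, hy, z, hz, rfl⟩ := Finset.mem_mul.1 hx
      rw [Finset.mem_union]
      rcases Finset.mem_union.1 (ih hy) with hy' | hy'
      · rcases Finset.mem_insert.1 hz with rfl | hz
        · rw [mul_one]
          exact Or.inr (h2 n hy')
        · left
          rw [pow_succ]
          exact Finset.mul_mem_mul hy' hz
      · rcases Finset.mem_insert.1 hz with rfl | hz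
        · rw [mul_one]
          exact Or.inl hy'
        · right
          rw [pow_succ S (n + 1)]
          exact Finset.mul_mem_mul hy' hz
  calc ((insert 1 S) ^ n).card ≤ (S ^ n ∪ S ^ (n + 1)).card := Finset.card_le_card (hsub n)
    _ ≤ (S ^ n).card + (S ^ (n + 1)).card := Finset.card_union_le _ _
    _ ≤ (S ^ (n + 1)).card + (S ^ (n + 1)).card := by
        apply Nat.add_le_add_right
        rw [pow_succ]
        exact Finset.card_le_card_mul_right ⟨s, hs⟩
    _ = 2 * (S ^ (n + 1)).card := by ring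

theorem rate_of_growth {G : Type*} [Group G] [DecidableEq G] (S : Finset G)
    (hne : S.Nonempty) (hsymm : ∀ s ∈ S, s⁻¹ ∈ S) (ρ : ℝ)
    (hρ : Tendsto (fun n : ℕ => Real.log ((S ^ n).card : ℝ) / n) atTop (𝓝 ρ)) (l m : ℕ)
    (hl : 0 < l) (h : ∀ k, m ^ k ≤ ((insert 1 S) ^ (l * k)).card) (hlm : 2 ^ l ≤ m ^ 328) :
    Real.log 2 / 328 ≤ ρ := by
  have hm : 0 < m := by
    rcases Nat.eq_zero_or_pos m with rfl | h0
    · exfalso
      have : 0 < 2 ^ l := by positivity
      have h3 : (0 : ℕ) ^ 328 = 0 := zero_pow (by norm_num)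
      rw [h3] at hlm
      omega
    · exact h0
  have hm' : (0 : ℝ) < m := by exact_mod_cast hm
  have hl' : (0 : ℝ) < l := by exact_mod_cast hl
  have hlog : (l : ℝ) * Real.log 2 ≤ 328 * Real.log m := by
    have h1 : Real.log ((2 : ℝ) ^ l) ≤ Real.log ((m : ℝ) ^ 328) := by
      apply Real.log_le_log (by positivity)
      exact_mod_cast hlm
    rw [Real.log_pow, Real.log_pow] at h1
    exact_mod_cast h1
  have hrate : Real.log 2 / 328 ≤ Real.log m / l := by
    rw [div_le_div_iff₀ (by norm_num) hl']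
    linarith
  refine hrate.trans ?_
  -- lower bound along `l k + 1`
  have hsub : Tendsto (fun k : ℕ => l * k + 1) atTop atTop := by
    exact (tendsto_add_atTop_iff_nat 1).2 tendsto_id |>.comp (tendsto_id.const_mul_atTop' hl)
  have h1 := hρ.comp hsub
  have hbound : ∀ k : ℕ, ((k : ℝ) * Real.log m - Real.log 2) / ((l : ℝ) * k + 1) ≤
      ((fun n : ℕ => Real.log ((S ^ n).card : ℝ) / n) ∘ fun k : ℕ => l * k + 1) k := by
    intro k
    have hc : (0 : ℝ) < ((S ^ (l * k + 1)).card : ℝ) := by
      exact_mod_cast (hne.pow).card_pos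
    have h2 : ((m : ℝ) ^ k) ≤ 2 * ((S ^ (l * k + 1)).card : ℝ) := by
      exact_mod_cast (h k).trans (card_insert_pow_le S hne hsymm (l * k))
    have h3 := Real.log_le_log (by positivity) h2
    rw [Real.log_pow, Real.log_mul (by norm_num) hc.ne'] at h3
    simp only [Function.comp_apply]
    push_cast
    apply div_le_div_of_nonneg_right _ (by positivity)
    linarith
  have hlim : Tendsto (fun k : ℕ => ((k : ℝ) * Real.log m - Real.log 2) / ((l : ℝ) * k + 1)) atTop
      (𝓝 (Real.log m / l)) := by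
    have e : ∀ᶠ k : ℕ in atTop, (Real.log m - Real.log 2 / (k : ℝ)) / ((l : ℝ) + 1 / (k : ℝ)) =
        ((k : ℝ) * Real.log m - Real.log 2) / ((l : ℝ) * k + 1) := by
      filter_upwards [eventually_gt_atTop 0] with k hk
      have hk' : (0 : ℝ) < k := by exact_mod_cast hk
      field_simp
    refine Tendsto.congr' e ?_
    have t1 : Tendsto (fun k : ℕ => Real.log m - Real.log 2 / (k : ℝ)) atTop
        (𝓝 (Real.log m - 0)) :=
      tendsto_const_nhds.sub (tendsto_const_div_atTop_nhds_zero_nat _)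
    have t2 : Tendsto (fun k : ℕ => (l : ℝ) + 1 / (k : ℝ)) atTop (𝓝 ((l : ℝ) + 0)) :=
      tendsto_const_nhds.add (tendsto_const_div_atTop_nhds_zero_nat _)
    have t3 := t1.div t2 (by rw [add_zero]; exact hl'.ne')
    rw [sub_zero, add_zero] at t3
    exact t3
  exact le_of_tendsto_of_tendsto' hlim h1 hbound

/-- Growth of a symmetric generating set of a group which is not polycyclic modulo its third
derived subgroup. -/
theorem big_of_not_polycyclic {G : Type*} [Group G] [DecidableEq G] {T : Finset G} (hT : Sym T)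
    (hgen : Subgroup.closure (T : Set G) = ⊤) (hnp : ¬ IsPolycyclic (G ⧸ derivedSeries G 3)) :
    Big T := by
  have hGfg : Group.FG G := ⟨⟨T, hgen⟩⟩
  by_cases h1 : (commutator G).FG
  · have h1' : Group.FG (commutator G) := (Group.fg_iff_subgroup_fg _).2 h1
    apply big_of_fg hT hgen h1'
    intro hfin
    apply hnp
    apply isPolycyclic_quotient h1
    have : AddGroup.FG (DM (commutator G)) := by
      have := (Module.Finite.iff_addGroup_fg (G := DM (commutator G))).1 hfin
      exact this
    exact (GroupFG.iff_add_fg).2 this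
  · exact big_of_not_fg hT hgen h1

theorem main {Γ : Type*} [Group Γ] [DecidableEq Γ] (S : Finset Γ) (hsymm : ∀ s ∈ S, s⁻¹ ∈ S)
    (hnp : ¬ IsPolycyclic (Subgroup.closure (S : Set Γ) ⧸
      derivedSeries (Subgroup.closure (S : Set Γ)) 3)) :
    ∃ ρ : ℝ, Tendsto (fun n : ℕ => Real.log ((S ^ n).card : ℝ) / n) atTop (𝓝 ρ) ∧
      Real.log 2 / 328 ≤ ρ := by
  classical
  set C := Subgroup.closure (S : Set Γ) with hC
  have hne : S.Nonempty := by
    by_contra hemp
    rw [Finset.not_nonempty_iff_eq_empty] at hemp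
    apply hnp
    have hbot : C = ⊥ := by rw [hC, hemp]; simp
    refine ⟨0, fun _ => ⊥, rfl, ?_, fun i hi => absurd hi (Nat.not_lt_zero i)⟩
    rw [eq_comm, eq_bot_iff]
    intro x _
    obtain ⟨y, rfl⟩ := QuotientGroup.mk_surjective x
    have : y = 1 := by
      apply Subtype.ext
      exact Subgroup.mem_bot.1 (hbot.le y.2)
    rw [this]
    exact Subgroup.one_mem _
  obtain ⟨ρ, hρ⟩ := exists_rate S hne
  refine ⟨ρ, hρ, ?_⟩
  set T : Finset C := Finset.subtype (fun x => x ∈ C) (insert 1 S) with hTdef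
  have hTmem : ∀ x : C, x ∈ T ↔ (x : Γ) = 1 ∨ (x : Γ) ∈ S := by
    intro x
    rw [hTdef, Finset.mem_subtype, Finset.mem_insert]
  have hTsym : Sym T := by
    constructor
    · rw [hTmem]; exact Or.inl rfl
    · intro x hx
      rw [hTmem] at hx ⊢
      rcases hx with hx | hx
      · left; rw [Subgroup.coe_inv, hx, inv_one]
      · right; exact hsymm _ hx
  have hgen : Subgroup.closure (T : Set C) = ⊤ := by
    rw [eq_top_iff, ← Subgroup.closure_closure_coe_preimage (k := (S : Set Γ))]
    apply Subgroup.closure_mono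
    intro x hx
    rw [Finset.mem_coe, hTmem]
    exact Or.inr hx
  have himg : T.image C.subtype = insert 1 S := by
    ext x
    rw [Finset.mem_image]
    constructor
    · rintro ⟨y, hy, rfl⟩
      rw [hTmem] at hy
      rw [Finset.mem_insert]
      exact hy
    · intro hx
      rw [Finset.mem_insert] at hx
      have hxC : x ∈ C := by
        rcases hx with rfl | hx
        · exact C.one_mem
        · exact Subgroup.subset_closure hx
      exact ⟨⟨x, hxC⟩, (hTmem _).2 hx, rfl⟩
  obtain ⟨l, m, hl, hgrow, hlm⟩ := big_of_not_polycyclic hTsym hgen hnp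
  refine rate_of_growth S hne hsymm ρ hρ l m hl (fun k => ?_) hlm
  have e : ((insert 1 S) ^ (l * k)).card = (T ^ (l * k)).card := by
    rw [← himg, ← Finset.image_pow, Finset.card_image_of_injective _ C.subtype_injective]
  rw [e]
  exact hgrow k

end Pool.Agent.Helper11.Gap

namespace Pool.Agent.Helper11.Gap

open Pointwise Filter Topology

/-- Quotients of polycyclic groups are polycyclic. -/
theorem IsPolycyclic.of_surjective {G H : Type*} [Group G] [Group H] (f : G →* H)
    (hf : Function.Surjective f) (h : IsPolycyclic G) : IsPolycyclic H := by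
  obtain ⟨n, C, h0, hn, hs⟩ := h
  refine ⟨n, fun i => (C i).map f, ?_, ?_, ?_⟩
  · simp only; rw [h0, Subgroup.map_bot]
  · simp only
    rw [hn]
    exact Subgroup.map_top_of_surjective f hf
  · intro i hi
    obtain ⟨g, hg, hgi⟩ := hs i hi
    refine ⟨f g, ?_, ?_⟩
    · intro y
      constructor
      · rintro ⟨x, hx, rfl⟩
        refine ⟨g * x * g⁻¹, (hg x).1 hx, ?_⟩
        simp
      · rintro ⟨x, hx, hxy⟩
        refine ⟨g⁻¹ * x * g, ?_, ?_⟩
        · apply (hg _).2
          have e : g * (g⁻¹ * x * g) * g⁻¹ = x := by group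
          rw [e]; exact hx
        · simp only [map_mul, map_inv, hxy]
          group
    · simp only
      rw [hgi, Subgroup.map_sup]
      congr 1
      exact MonoidHom.map_zpowers _ _

/-- The growth gap, for groups with a non-polycyclic quotient of derived length at most three. -/
theorem main_quotient {Γ : Type*} [Group Γ] [DecidableEq Γ] (S : Finset Γ)
    (hsymm : ∀ s ∈ S, s⁻¹ ∈ S) {Q : Type*} [Group Q]
    (φ : Subgroup.closure (S : Set Γ) →* Q) (hφ : Function.Surjective φ)
    (h3 : derivedSeries Q 3 = ⊥) (hnp : ¬ IsPolycyclic Q) :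
    ∃ ρ : ℝ, Tendsto (fun n : ℕ => Real.log ((S ^ n).card : ℝ) / n) atTop (𝓝 ρ) ∧
      Real.log 2 / 328 ≤ ρ := by
  apply main S hsymm
  intro hp
  apply hnp
  have hker : derivedSeries (Subgroup.closure (S : Set Γ)) 3 ≤ φ.ker := by
    rw [← Subgroup.map_eq_bot_iff, eq_bot_iff, ← h3]
    exact map_derivedSeries_le_derivedSeries φ 3
  refine hp.of_surjective (QuotientGroup.lift _ φ hker) ?_
  intro q
  obtain ⟨x, rfl⟩ := hφ q
  exact ⟨QuotientGroup.mk x, rfl⟩

end Pool.Agent.Helper11.Gap
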