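import Pool.Agent.Helper11.Gap.Dist

/-!
# The first case
-/

namespace Pool.Agent.Helper11.Gap

open Pointwise
open scoped commutatorElement

/-- Choosing a good set of insertion times by averaging. -/
theorem exists_J0 {Γ : Type*} [CommMonoid Γ] [DecidableEq Γ] (D : ℕ) (c : ℕ → ℕ → Γ)
    (hc : ∀ i < D, c i i ≠ 1) :
    ∃ J : Finset ℕ, D ≤ 2 * ((Finset.range D).filter
      (fun i => (∏ t ∈ Finset.range D, if t ∈ J then c i t else 1) ≠ 1)).card := by
  classical
  set f : ℕ → Finset ℕ → Γ := fun i J => ∏ t ∈ Finset.range D, if t ∈ J then c i t else 1 with hf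
  have hsplit : ∀ i < D, ∀ J : Finset ℕ, f i J =
      (if i ∈ J then c i i else 1) *
        ∏ t ∈ (Finset.range D).erase i, if t ∈ J then c i t else 1 := by
    intro i hi J
    rw [hf]
    exact (Finset.mul_prod_erase (Finset.range D) (fun t => if t ∈ J then c i t else 1)
      (Finset.mem_range.2 hi)).symm
  have htog : ∀ i < D, ∀ J : Finset ℕ, f i J = 1 → f i (symmDiff J {i}) ≠ 1 := by
    intro i hi J h1 h2
    rw [hsplit i hi] at h1 h2
    have e : ∏ t ∈ (Finset.range D).erase i, (if t ∈ symmDiff J {i} then c i t else 1) =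
        ∏ t ∈ (Finset.range D).erase i, (if t ∈ J then c i t else 1) := by
      apply Finset.prod_congr rfl
      intro t ht
      have hti : t ≠ i := (Finset.mem_erase.1 ht).1
      have : t ∈ symmDiff J {i} ↔ t ∈ J := by
        rw [Finset.mem_symmDiff]; simp [hti]
      simp only [this]
    rw [e] at h2
    set P := ∏ t ∈ (Finset.range D).erase i, (if t ∈ J then c i t else 1)
    by_cases hiJ : i ∈ J
    · have : ¬ (i ∈ symmDiff J {i}) := by rw [Finset.mem_symmDiff]; simp [hiJ]
      rw [if_pos hiJ] at h1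
      rw [if_neg this, one_mul] at h2
      rw [h2, mul_one] at h1
      exact hc i hi h1
    · have : i ∈ symmDiff J {i} := by rw [Finset.mem_symmDiff]; simp [hiJ]
      rw [if_neg hiJ, one_mul] at h1
      rw [if_pos this, h1, mul_one] at h2
      exact hc i hi h2
  have hhalf : ∀ i < D, 2 * ((Finset.range D).powerset.filter (fun J => f i J = 1)).card
      ≤ 2 ^ D := by
    intro i hi
    have h1 : ((Finset.range D).powerset.filter (fun J => f i J = 1)).card ≤
        ((Finset.range D).powerset.filter (fun J => ¬ f i J = 1)).card := by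
      apply Finset.card_le_card_of_injOn (fun J => symmDiff J {i})
      · intro J hJ
        have hJ' := Finset.mem_filter.1 (Finset.mem_coe.1 hJ)
        apply Finset.mem_coe.2
        rw [Finset.mem_filter]
        refine ⟨?_, htog i hi J hJ'.2⟩
        rw [Finset.mem_powerset] at hJ' ⊢
        intro t ht
        rw [Finset.mem_symmDiff] at ht
        rcases ht with ht | ht
        · exact hJ'.1 ht.1
        · rw [Finset.mem_singleton.1 ht.1]; exact Finset.mem_range.2 hi
      · intro J _ J' _ h
        exact symmDiff_left_injective {i} h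
    have h2 := Finset.card_filter_add_card_filter_not (s := (Finset.range D).powerset)
      (fun J => f i J = 1)
    rw [Finset.card_powerset, Finset.card_range] at h2
    omega
  by_contra hcon
  push Not at hcon
  have hpos : 0 < D := by
    rcases Nat.eq_zero_or_pos D with rfl | h
    · exact absurd (hcon ∅) (by simp)
    · exact h
  have hlt : ∀ J ∈ (Finset.range D).powerset, D <
      2 * ((Finset.range D).filter (fun i => f i J = 1)).card := by
    intro J _
    have h1 := hcon J
    have h2 := Finset.card_filter_add_card_filter_not (s := Finset.range D) (fun i => f i J = 1)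
    rw [Finset.card_range] at h2
    have h3 : ((Finset.range D).filter (fun i => ¬ f i J = 1)).card =
      ((Finset.range D).filter
        (fun i => (∏ t ∈ Finset.range D, if t ∈ J then c i t else 1) ≠ 1)).card := rfl
    omega
  have hdc := Finset.sum_card_bipartiteAbove_eq_sum_card_bipartiteBelow
    (s := (Finset.range D).powerset) (t := Finset.range D) (fun J i => f i J = 1)
  have hsum1 : (Finset.range D).powerset.card * D <
      ∑ J ∈ (Finset.range D).powerset, 2 * ((Finset.range D).filter (fun i => f i J = 1)).card := by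
    rw [← smul_eq_mul, ← Finset.sum_const]
    exact Finset.sum_lt_sum_of_nonempty ⟨∅, by simp⟩ hlt
  have hsum2 : ∑ i ∈ Finset.range D,
      2 * ((Finset.range D).powerset.filter (fun J => f i J = 1)).card ≤ D * 2 ^ D := by
    calc _ ≤ ∑ _i ∈ Finset.range D, 2 ^ D :=
          Finset.sum_le_sum (fun i hi => hhalf i (Finset.mem_range.1 hi))
      _ = D * 2 ^ D := by rw [Finset.sum_const, Finset.card_range, smul_eq_mul]
  rw [← Finset.mul_sum] at hsum1 hsum2
  have hdc' : ∑ J ∈ (Finset.range D).powerset,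
      ((Finset.range D).filter (fun i => f i J = 1)).card =
      ∑ i ∈ Finset.range D, ((Finset.range D).powerset.filter (fun J => f i J = 1)).card := hdc
  rw [hdc', Finset.card_powerset, Finset.card_range] at hsum1
  have := hsum1.trans_le hsum2
  rw [mul_comm] at this
  exact lt_irrefl _ this

variable {G : Type*} [Group G] [DecidableEq G] {K : Type*} [Field K]
variable {Γ₀ : Type*} [LinearOrderedCommGroupWithZero Γ₀]

theorem conv_act (R : AffRep (commutator G) K) (ℓ : ℕ → G) (h z : G) (i s : ℕ) (w : K) :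
    (R.at' ((pth ℓ i)⁻¹ * h)).act ((pth ℓ s)⁻¹ * z * pth ℓ s) w =
      (R.at' (pth ℓ s * (pth ℓ i)⁻¹ * h)).act z w := by
  rw [AffRep.at'_conj_act, mul_assoc]

theorem conv_χ (R : AffRep (commutator G) K) (ℓ : ℕ → G) (h z : G) (i s : ℕ) :
    (R.at' ((pth ℓ i)⁻¹ * h)).χ ((pth ℓ s)⁻¹ * z * pth ℓ s) =
      (R.at' (pth ℓ s * (pth ℓ i)⁻¹ * h)).χ z := by
  rw [AffRep.at'_conj_χ, mul_assoc]

theorem conj_pth_mem {ℓ : ℕ → G} {z : G} (hz : z ∈ commutator G) (s : ℕ) :
    (pth ℓ s)⁻¹ * z * pth ℓ s ∈ commutator G := by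
  have := (inferInstance : (commutator G).Normal).conj_mem z hz (pth ℓ s)⁻¹
  rwa [inv_inv] at this

open Classical in
theorem seg_eq_ins (ℓ : ℕ → G) (s : ℕ) (z : G) (J : Finset ℕ) (n : ℕ) :
    seg (fun t => (pth ℓ (t + s))⁻¹ * z * pth ℓ (t + s)) J 0 n =
      ins ℓ s (fun t => if t ∈ J then z else 1) n := by
  induction n with
  | zero => rfl
  | succ n ih =>
    rw [seg_succ, ins_succ, ih, zero_add]
    congr 1
    split_ifs with h
    · rfl
    · group

theorem v_χ_seg_prod {N : Subgroup G} (R : AffRep N K) (v : Valuation K Γ₀) {Y : ℕ → G}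
    (hY : ∀ t, Y t ∈ N) (J : Finset ℕ) (n : ℕ) :
    v (R.χ (seg Y J 0 n)) = ∏ t ∈ Finset.range n, if t ∈ J then v (R.χ (Y t)) else 1 := by
  induction n with
  | zero => simp [seg, R.χ_one]
  | succ n ih =>
    rw [seg_succ, Finset.prod_range_succ, ← ih, zero_add]
    have hs := seg_mem hY J 0 n
    split_ifs with hJ
    · rw [R.χ_mul _ (hY _) _ hs, map_mul, mul_comm]
    · rw [one_mul, mul_one]

theorem mainOne {T : Finset G} (hT : Sym T) (R : AffRep (commutator G) K) (v : Valuation K Γ₀)
    (d : ℕ) (hfix : FixProp T R v d) (h x y : G) (hx : IsX T x) (hy : IsX T y)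
    (hh : Hyp R v h x) {ℓ : ℕ → G} (hℓ : ∀ t, ℓ t ∈ T)
    (hmove : ∀ i < max d 1, (R.at' (pth ℓ (i + d) * (pth ℓ i)⁻¹ * h)).act y ((R.at' h).ctr x) ≠
      (R.at' h).ctr x)
    (hell : ∀ i t, i < t → t < max d 1 →
      v ((R.at' (pth ℓ (t + d) * (pth ℓ i)⁻¹ * h)).χ y) = 1) : Big T := by
  classical
  set D := max d 1 with hD
  have hD1 : 1 ≤ D := le_max_right _ _
  have hdD : d ≤ D := le_max_left _ _
  have hD2 : 2 ≤ D → d = D := by intro h2; omega
  set o := (R.at' h).ctr x with ho
  set Ri : ℕ → AffRep (commutator G) K := fun i => R.at' ((pth ℓ i)⁻¹ * h) with hRi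
  set X : ℕ → G := fun t => (pth ℓ (t + 0))⁻¹ * x * pth ℓ (t + 0) with hX
  set Y : ℕ → G := fun t => (pth ℓ (t + d))⁻¹ * y * pth ℓ (t + d) with hY
  have hXN : ∀ t, X t ∈ commutator G := fun t => conj_pth_mem hx.mem _
  have hYN : ∀ t, Y t ∈ commutator G := fun t => conj_pth_mem hy.mem _
  -- X fixes o
  have hXfix : ∀ i < D, ∀ t < D, (Ri i).act (X t) o = o := by
    intro i hi t ht
    rw [hRi, hX]
    simp only [add_zero]
    rw [conv_act]
    rcases eq_or_ne t i with rfl | hti
    · rw [mul_inv_cancel, one_mul]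
      exact (R.at' h).act_ctr hh.ne_one
    · have hd : d = D := hD2 (by omega)
      refine hfix h x x _ (D - 1) hx hx hh (pth_seg_mem' hT hℓ (by omega) (by omega)) ?_
      omega
  -- valuations
  set c : ℕ → ℕ → Γ₀ := fun i t => v ((Ri i).χ (X t)) with hc
  have hcii : ∀ i < D, c i i ≠ 1 := by
    intro i _
    rw [hc, hRi, hX]
    simp only [add_zero]
    rw [conv_χ, mul_inv_cancel, one_mul]
    exact hh
  obtain ⟨J₀, hJ₀⟩ := exists_J0 D c hcii
  set u₀ := seg X J₀ 0 D with hu₀
  have hu₀N : u₀ ∈ commutator G := seg_mem hXN J₀ 0 D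
  have hvu₀ : ∀ i, v ((Ri i).χ u₀) = ∏ t ∈ Finset.range D, if t ∈ J₀ then c i t else 1 :=
    fun i => v_χ_seg_prod (Ri i) v hXN J₀ D
  have hu₀fix : ∀ i < D, (Ri i).act u₀ o = o := by
    intro i hi
    exact fix_seg (Ri i) hXN J₀ 0 D o (fun t _ ht => hXfix i hi t (by omega))
  have hu₀len : u₀ ∈ T ^ (6 * D) := by
    rw [hu₀, hX, seg_eq_ins]
    have := ins_mem hT hℓ 0 (z := fun t => if t ∈ J₀ then x else 1) (m := 4) (by
      intro t
      split_ifs
      · exact hx.mem_pow hT
      · exact hT.one_mem_pow 4) D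
    exact hT.mono (by omega) this
  -- sign
  set Ilt := (Finset.range D).filter (fun i => v ((Ri i).χ u₀) < 1) with hIlt
  set Igt := (Finset.range D).filter (fun i => 1 < v ((Ri i).χ u₀)) with hIgt
  have hcount : D ≤ 2 * (Ilt.card + Igt.card) := by
    refine hJ₀.trans (Nat.mul_le_mul_left 2 ?_)
    rw [← Finset.card_union_of_disjoint (by
      rw [Finset.disjoint_left]
      intro i h1 h2
      rw [hIlt, Finset.mem_filter] at h1
      rw [hIgt, Finset.mem_filter] at h2
      exact lt_asymm h1.2 h2.2)]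
    apply Finset.card_le_card
    intro i hi
    rw [Finset.mem_filter] at hi
    rw [Finset.mem_union, hIlt, hIgt, Finset.mem_filter, Finset.mem_filter, hvu₀]
    rcases lt_or_gt_of_ne hi.2 with h1 | h1
    · exact Or.inl ⟨hi.1, h1⟩
    · exact Or.inr ⟨hi.1, h1⟩
  obtain ⟨u, I, huN, hulen, hI, hufix, huv, hIc⟩ : ∃ (u : G) (I : Finset ℕ), u ∈ commutator G ∧
      u ∈ T ^ (6 * D) ∧ (∀ i ∈ I, i < D) ∧ (∀ i ∈ I, (Ri i).act u o = o) ∧
      (∀ i ∈ I, v ((Ri i).χ u) < 1) ∧ D ≤ 4 * I.card := by
    rcases le_total Igt.card Ilt.card with hle | hle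
    · refine ⟨u₀, Ilt, hu₀N, hu₀len, ?_, ?_, ?_, by omega⟩
      · intro i hi
        exact Finset.mem_range.1 (Finset.mem_filter.1 hi).1
      · intro i hi
        exact hu₀fix i (Finset.mem_range.1 (Finset.mem_filter.1 hi).1)
      · intro i hi
        exact (Finset.mem_filter.1 hi).2
    · refine ⟨u₀⁻¹, Igt, Subgroup.inv_mem _ hu₀N, hT.inv_mem_pow hu₀len, ?_, ?_, ?_, by omega⟩
      · intro i hi
        exact Finset.mem_range.1 (Finset.mem_filter.1 hi).1
      · intro i hi
        exact (Ri i).fix_inv hu₀N (hu₀fix i (Finset.mem_range.1 (Finset.mem_filter.1 hi).1))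
      · intro i hi
        have h1 := (Finset.mem_filter.1 hi).2
        rw [(Ri i).χ_inv hu₀N, map_inv₀]
        exact inv_lt_one_of_one_lt₀ h1
  -- blocks
  have hblklen : ∀ J : Finset ℕ, blk Y u D J ∈ T ^ (22 * D) := by
    intro J
    have h1 : seg Y J 0 D ∈ T ^ (8 * D) := by
      rw [hY, seg_eq_ins]
      have := ins_mem hT hℓ d (z := fun t => if t ∈ J then y else 1) (m := 4) (by
        intro t
        split_ifs
        · exact hy.mem_pow hT
        · exact hT.one_mem_pow 4) D
      exact hT.mono (by omega) this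
    have h2 := mul_mem_pow (mul_mem_pow h1 hulen) (hT.inv_mem_pow h1)
    exact hT.mono (by omega) h2
  have hfree := caseOne (N := commutator G) v D Ri o huN hYN I hI hufix huv (by
      intro i hi t ht
      have hiD := hI i hi
      have hd : d = D := hD2 (by omega)
      rw [hRi, hY]
      simp only
      rw [conv_act]
      refine hfix h x y _ (D - 1) hx hy hh (pth_seg_mem' hT hℓ (by omega) (by omega)) ?_
      omega) (by
      intro i hi
      rw [hRi, hY]
      simp only
      rw [conv_act]
      exact hmove i (hI i hi)) (by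
      intro i hi t hit htD
      rw [hRi, hY]
      simp only
      rw [conv_χ]
      exact hell i t hit htD)
  have hgrow := card_pow_of_free (T := T) (blk Y u D) I.powerset (22 * D)
    (fun J _ => hblklen J) (by
      intro L L' hL hL' hlen heq
      refine hfree L L' ?_ ?_ hlen heq
      · intro J hJ; exact Finset.mem_powerset.1 (hL J hJ)
      · intro J hJ; exact Finset.mem_powerset.1 (hL' J hJ))
  refine ⟨22 * D, I.powerset.card, by omega, hgrow, ?_⟩
  rw [Finset.card_powerset, ← pow_mul]
  exact Nat.pow_le_pow_right (by norm_num) (by omega)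

end Pool.Agent.Helper11.Gap
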