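import Mathlib

/-!
# Pigeonhole on sign patterns
-/

namespace Pool.Agent.Helper11.Gap

variable {Γ : Type*} [LinearOrder Γ]

open Classical in
/-- Counting the sequences which avoid the value `c` everywhere. -/
theorem good_card (n : ℕ) (c : Γ) : ∀ (D : ℕ) (a : (Fin D → Fin (n + 1)) → Fin D → Γ),
    (∀ i ε ε', (∀ t ≤ i, ε t = ε' t) → a ε i = a ε' i) →
    (∀ i ε ε', (∀ t < i, ε t = ε' t) → ε i ≠ ε' i → a ε i ≠ a ε' i) →
    n ^ D ≤ (Finset.univ.filter (fun ε : Fin D → Fin (n + 1) => ∀ i, a ε i ≠ c)).card := by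
  intro D
  induction D with
  | zero =>
    intro a _ _
    rw [pow_zero]
    apply Finset.card_pos.2
    exact ⟨fun i => i.elim0, Finset.mem_filter.2 ⟨Finset.mem_univ _, fun i => i.elim0⟩⟩
  | succ D ih =>
    intro a hdep hinj
    set a' : (Fin D → Fin (n + 1)) → Fin D → Γ :=
      fun ε i => a (Fin.snoc (α := fun _ => Fin (n + 1)) ε 0) (Fin.castSucc i) with ha'
    have hinit : ∀ (ε : Fin (D + 1) → Fin (n + 1)) (i : Fin D),
        a' (Fin.init ε) i = a ε (Fin.castSucc i) := by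
      intro ε i
      apply hdep
      intro t ht
      have htl : t < Fin.last D := lt_of_le_of_lt ht (Fin.castSucc_lt_last i)
      obtain ⟨t', rfl⟩ : ∃ t', t = Fin.castSucc t' := ⟨t.castPred htl.ne, by simp⟩
      rw [Fin.snoc_castSucc]
      rfl
    have h1 := ih a' (by
      intro i ε ε' h
      apply hdep
      intro t ht
      have htl : t < Fin.last D := lt_of_le_of_lt ht (Fin.castSucc_lt_last i)
      obtain ⟨t', rfl⟩ : ∃ t', t = Fin.castSucc t' := ⟨t.castPred htl.ne, by simp⟩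
      rw [Fin.snoc_castSucc, Fin.snoc_castSucc]
      exact h t' (Fin.castSucc_le_castSucc_iff.1 ht)) (by
      intro i ε ε' h hne
      apply hinj
      · intro t ht
        have htl : t < Fin.last D := lt_of_lt_of_le ht (Fin.le_last _)
        obtain ⟨t', rfl⟩ : ∃ t', t = Fin.castSucc t' := ⟨t.castPred htl.ne, by simp⟩
        rw [Fin.snoc_castSucc, Fin.snoc_castSucc]
        exact h t' (Fin.castSucc_lt_castSucc_iff.1 ht)
      · rw [Fin.snoc_castSucc, Fin.snoc_castSucc]
        exact hne)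
    set s := Finset.univ.filter (fun ε : Fin (D + 1) → Fin (n + 1) => ∀ i, a ε i ≠ c) with hs
    set t := Finset.univ.filter (fun ε : Fin D → Fin (n + 1) => ∀ i, a' ε i ≠ c) with ht
    have hmaps : ∀ ε ∈ s, Fin.init ε ∈ t := by
      intro ε hε
      rw [hs, Finset.mem_filter] at hε
      rw [ht, Finset.mem_filter]
      refine ⟨Finset.mem_univ _, fun i => ?_⟩
      rw [hinit]
      exact hε.2 _
    have hcard := Finset.card_eq_sum_card_fiberwise hmaps
    have hfib : ∀ ε' ∈ t, n ≤ (s.filter (fun ε => Fin.init ε = ε')).card := by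
      intro ε' hε'
      rw [ht, Finset.mem_filter] at hε'
      set C := Finset.univ.filter (fun b : Fin (n + 1) =>
        a (Fin.snoc (α := fun _ => Fin (n + 1)) ε' b) (Fin.last D) ≠ c) with hC
      have hCcard : n ≤ C.card := by
        have h2 : (Finset.univ.filter (fun b : Fin (n + 1) =>
            ¬ (a (Fin.snoc (α := fun _ => Fin (n + 1)) ε' b) (Fin.last D) ≠ c))).card ≤ 1 := by
          rw [Finset.card_le_one]
          intro b hb b' hb'
          rw [Finset.mem_filter, not_not] at hb hb'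
          by_contra hne
          refine hinj (Fin.last D) (Fin.snoc (α := fun _ => Fin (n + 1)) ε' b)
            (Fin.snoc (α := fun _ => Fin (n + 1)) ε' b') ?_ ?_ (hb.2.trans hb'.2.symm)
          · intro t ht
            obtain ⟨t', rfl⟩ : ∃ t', t = Fin.castSucc t' := ⟨t.castPred ht.ne, by simp⟩
            rw [Fin.snoc_castSucc, Fin.snoc_castSucc]
          · rw [Fin.snoc_last, Fin.snoc_last]
            exact hne
        have h3 := Finset.card_filter_add_card_filter_not (s := (Finset.univ : Finset (Fin (n + 1))))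
          (fun b => a (Fin.snoc (α := fun _ => Fin (n + 1)) ε' b) (Fin.last D) ≠ c)
        rw [Finset.card_univ, Fintype.card_fin] at h3
        rw [hC]
        omega
      refine hCcard.trans ?_
      apply Finset.card_le_card_of_injOn (fun b => Fin.snoc (α := fun _ => Fin (n + 1)) ε' b)
      · intro b hb
        have hb' : b ∈ C := hb
        rw [hC, Finset.mem_filter] at hb'
        simp only [Finset.coe_filter, Set.mem_ofPred_eq, hs, Finset.mem_filter, Finset.mem_univ,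
          true_and]
        refine ⟨?_, Fin.init_snoc _ _⟩
        intro i
        rcases Fin.eq_castSucc_or_eq_last i with ⟨j, rfl⟩ | rfl
        · rw [← hinit, Fin.init_snoc]
          exact hε'.2 j
        · exact hb'.2
      · intro b _ b' _ h
        have := congrFun h (Fin.last D)
        simpa using this
    rw [hcard, pow_succ]
    calc n ^ D * n ≤ t.card * n := Nat.mul_le_mul_right _ h1
      _ = t.card • n := by rw [smul_eq_mul]
      _ ≤ _ := Finset.card_nsmul_le_sum t _ n hfib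

/-- Reversed version. -/
theorem good_card_rev (n : ℕ) (c : Γ) (D : ℕ) (a : (Fin D → Fin (n + 1)) → Fin D → Γ)
    (hdep : ∀ i ε ε', (∀ t, i ≤ t → ε t = ε' t) → a ε i = a ε' i)
    (hinj : ∀ i ε ε', (∀ t, i < t → ε t = ε' t) → ε i ≠ ε' i → a ε i ≠ a ε' i) [DecidableEq Γ] :
    n ^ D ≤ (Finset.univ.filter (fun ε : Fin D → Fin (n + 1) => ∀ i, a ε i ≠ c)).card := by
  classical
  have h := good_card n c D (fun ε i => a (fun t => ε t.rev) i.rev) (by
    intro i ε ε' h
    apply hdep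
    intro t ht
    exact h _ (by rw [← Fin.rev_le_rev, Fin.rev_rev]; exact ht)) (by
    intro i ε ε' h hne
    apply hinj
    · intro t ht
      exact h _ (by rw [← Fin.rev_lt_rev, Fin.rev_rev]; exact ht)
    · simpa using hne)
  refine h.trans ?_
  apply Finset.card_le_card_of_injOn (fun ε t => ε t.rev)
  · intro ε hε
    simp only [Finset.coe_filter, Finset.mem_univ, true_and, Set.mem_ofPred_eq] at hε ⊢
    intro i
    have := hε i.rev
    rwa [Fin.rev_rev] at this
  · intro ε _ ε' _ h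
    funext t
    have := congrFun h t.rev
    simpa using this

theorem exists_diff {D q : ℕ} (a : (Fin D → Fin q) → Fin D → Γ)
    (hinj : ∀ i ε ε', (∀ t < i, ε t = ε' t) → ε i ≠ ε' i → a ε i ≠ a ε' i)
    (ε ε' : Fin D → Fin q) (h : ε ≠ ε') : ∃ i, ε i ≠ ε' i ∧ a ε i ≠ a ε' i := by
  have hne : (Finset.univ.filter (fun i => ε i ≠ ε' i)).Nonempty := by
    obtain ⟨i, hi⟩ := Function.ne_iff.1 h
    exact ⟨i, by simpa using hi⟩
  have hm := Finset.min'_mem _ hne
  set m := (Finset.univ.filter (fun i => ε i ≠ ε' i)).min' hne with hmdef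
  have hm2 : ε m ≠ ε' m := (Finset.mem_filter.1 hm).2
  refine ⟨m, hm2, hinj m ε ε' ?_ hm2⟩
  intro t ht
  by_contra hc
  have hmem : t ∈ Finset.univ.filter (fun i => ε i ≠ ε' i) :=
    Finset.mem_filter.2 ⟨Finset.mem_univ t, hc⟩
  exact absurd ht (not_lt.2 (Finset.min'_le _ t hmem))

theorem exists_diff_rev {D q : ℕ} (a : (Fin D → Fin q) → Fin D → Γ)
    (hinj : ∀ i ε ε', (∀ t, i < t → ε t = ε' t) → ε i ≠ ε' i → a ε i ≠ a ε' i)
    (ε ε' : Fin D → Fin q) (h : ε ≠ ε') : ∃ i, ε i ≠ ε' i ∧ a ε i ≠ a ε' i := by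
  have hne : (Finset.univ.filter (fun i => ε i ≠ ε' i)).Nonempty := by
    obtain ⟨i, hi⟩ := Function.ne_iff.1 h
    exact ⟨i, by simpa using hi⟩
  have hm := Finset.max'_mem _ hne
  set m := (Finset.univ.filter (fun i => ε i ≠ ε' i)).max' hne with hmdef
  have hm2 : ε m ≠ ε' m := (Finset.mem_filter.1 hm).2
  refine ⟨m, hm2, hinj m ε ε' ?_ hm2⟩
  intro t ht
  by_contra hc
  have hmem : t ∈ Finset.univ.filter (fun i => ε i ≠ ε' i) :=
    Finset.mem_filter.2 ⟨Finset.mem_univ t, hc⟩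
  exact absurd ht (not_lt.2 (Finset.le_max' _ t hmem))

/-- The sign condition. -/
def sgn (s : Bool) (c x : Γ) : Prop := if s then x < c else c < x

/-- Fix a sign pattern. -/
theorem exists_pattern (c : Γ) (D : ℕ) (a : (Fin D → Fin 81) → Fin D → Γ)
    [DecidableEq Γ]
    (h1 : 80 ^ D ≤ (Finset.univ.filter (fun ε : Fin D → Fin 81 => ∀ i, a ε i ≠ c)).card) :
    ∃ (σ : Fin D → Bool) (E : Finset (Fin D → Fin 81)), 40 ^ D ≤ E.card ∧
      ∀ ε ∈ E, ∀ i, sgn (σ i) c (a ε i) := by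
  classical
  set s := Finset.univ.filter (fun ε : Fin D → Fin 81 => ∀ i, a ε i ≠ c) with hs
  obtain ⟨σ, _, hσ⟩ := Finset.exists_le_card_fiber_of_mul_le_card_of_maps_to
    (s := s) (t := (Finset.univ : Finset (Fin D → Bool)))
    (f := fun ε i => decide (a ε i < c)) (n := 40 ^ D) (fun _ _ => Finset.mem_univ _)
    ⟨fun _ => true, Finset.mem_univ _⟩ (by
      rw [Finset.card_univ, Fintype.card_fun, Fintype.card_bool, Fintype.card_fin, ← mul_pow]
      exact h1)
  refine ⟨σ, _, hσ, ?_⟩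
  intro ε hε i
  rw [Finset.mem_filter, hs, Finset.mem_filter] at hε
  obtain ⟨⟨_, hne⟩, hf⟩ := hε
  have := congrFun hf i
  rw [← this, sgn]
  by_cases hlt : a ε i < c
  · simp [hlt]
  · simp only [hlt, decide_false]
    exact lt_of_le_of_ne (not_lt.1 hlt) (hne i).symm

/-- Fix the coordinates outside `I`. -/
theorem exists_restrict (D : ℕ) (I : Finset (Fin D)) (hI : D ≤ 4 * I.card)
    (E : Finset (Fin D → Fin 81)) (hE : 40 ^ D ≤ E.card) :
    ∃ F ⊆ E, ((40 : ℚ) / 27) ^ D ≤ F.card ∧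
      ∀ ε ∈ F, ∀ ε' ∈ F, ∀ i, ε i ≠ ε' i → i ∈ I := by
  classical
  have hcardc : (Fintype.card {i // i ∉ I}) = D - I.card := by
    rw [Fintype.card_subtype_compl, Fintype.card_fin, Fintype.card_coe]
  obtain ⟨y, _, hy⟩ := Finset.exists_le_card_fiber_of_nsmul_le_card_of_maps_to
    (s := E) (t := (Finset.univ : Finset ({i // i ∉ I} → Fin 81)))
    (f := fun ε (i : {i // i ∉ I}) => ε i.1) (b := ((40 : ℚ) / 27) ^ D)
    (fun _ _ => Finset.mem_univ _)
    ⟨fun _ => 0, Finset.mem_univ _⟩ (by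
      rw [Finset.card_univ, Fintype.card_fun, Fintype.card_fin, hcardc, nsmul_eq_mul]
      have h1 : (81 : ℕ) ^ (D - I.card) ≤ 27 ^ D := by
        have e1 : (81 : ℕ) = 3 ^ 4 := by norm_num
        have e2 : (27 : ℕ) = 3 ^ 3 := by norm_num
        rw [e1, e2, ← pow_mul, ← pow_mul]
        exact Nat.pow_le_pow_right (by norm_num) (by omega)
      have h2 : ((81 ^ (D - I.card) : ℕ) : ℚ) ≤ ((27 ^ D : ℕ) : ℚ) := by exact_mod_cast h1
      calc ((81 ^ (D - I.card) : ℕ) : ℚ) * ((40 : ℚ) / 27) ^ D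
          ≤ ((27 ^ D : ℕ) : ℚ) * ((40 : ℚ) / 27) ^ D :=
            mul_le_mul_of_nonneg_right h2 (by positivity)
        _ = 40 ^ D := by
            push_cast
            rw [← mul_pow]
            norm_num
        _ ≤ (E.card : ℚ) := by exact_mod_cast hE)
  refine ⟨_, Finset.filter_subset _ _, hy, ?_⟩
  intro ε hε ε' hε' i hi
  by_contra hiI
  rw [Finset.mem_filter] at hε hε'
  have h1 := congrFun hε.2 ⟨i, hiI⟩
  have h2 := congrFun hε'.2 ⟨i, hiI⟩
  exact hi (h1.trans h2.symm)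

theorem four_corners (D : ℕ) (σ σ' : Fin D → Bool) : ∃ s s' : Bool,
    D ≤ 4 * (Finset.univ.filter (fun i => σ i = s ∧ σ' i = s')).card := by
  classical
  by_contra hcon
  push Not at hcon
  have h1 := Finset.card_eq_sum_card_fiberwise (s := (Finset.univ : Finset (Fin D)))
    (t := (Finset.univ : Finset (Bool × Bool))) (f := fun i => (σ i, σ' i))
    (fun _ _ => Finset.mem_univ _)
  rw [Finset.card_univ, Fintype.card_fin, Fintype.sum_prod_type] at h1
  simp only [Fintype.sum_bool, Prod.mk.injEq] at h1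
  have a1 := hcon true true
  have a2 := hcon true false
  have a3 := hcon false true
  have a4 := hcon false false
  omega

/-- Two large families of exponents with constant common sign on a large set of coordinates. -/
theorem pigeonhole (c : Γ) (D : ℕ) (a a' : (Fin D → Fin 81) → Fin D → Γ)
    (hdep : ∀ i ε ε', (∀ t ≤ i, ε t = ε' t) → a ε i = a ε' i)
    (hinj : ∀ i ε ε', (∀ t < i, ε t = ε' t) → ε i ≠ ε' i → a ε i ≠ a ε' i)
    (hdep' : ∀ i ε ε', (∀ t, i ≤ t → ε t = ε' t) → a' ε i = a' ε' i)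
    (hinj' : ∀ i ε ε', (∀ t, i < t → ε t = ε' t) → ε i ≠ ε' i → a' ε i ≠ a' ε' i) :
    ∃ (I : Finset (Fin D)) (s s' : Bool) (E E' : Finset (Fin D → Fin 81)),
      2 ^ D ≤ E.card * E'.card ∧
      (∀ ε ∈ E, ∀ i ∈ I, sgn s c (a ε i)) ∧ (∀ ε ∈ E', ∀ i ∈ I, sgn s' c (a' ε i)) ∧
      (∀ ε ∈ E, ∀ ε' ∈ E, ε ≠ ε' → ∃ i ∈ I, a ε i ≠ a ε' i) ∧
      (∀ ε ∈ E', ∀ ε' ∈ E', ε ≠ ε' → ∃ i ∈ I, a' ε i ≠ a' ε' i) := by
  classical
  obtain ⟨σ, E₀, hE₀, hσ⟩ := exists_pattern c D a (by
    convert good_card 80 c D a hdep hinj)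
  obtain ⟨σ', E₀', hE₀', hσ'⟩ := exists_pattern c D a' (by
    convert good_card_rev 80 c D a' hdep' hinj')
  obtain ⟨s, s', hss⟩ := four_corners D σ σ'
  set I := Finset.univ.filter (fun i => σ i = s ∧ σ' i = s') with hI
  obtain ⟨E, hEsub, hEcard, hEI⟩ := exists_restrict D I hss E₀ hE₀
  obtain ⟨E', hEsub', hEcard', hEI'⟩ := exists_restrict D I hss E₀' hE₀'
  refine ⟨I, s, s', E, E', ?_, ?_, ?_, ?_, ?_⟩
  · have h1 : ((2 : ℚ)) ^ D ≤ (E.card : ℚ) * E'.card := by
      calc ((2 : ℚ)) ^ D ≤ (((40 : ℚ) / 27) * ((40 : ℚ) / 27)) ^ D := by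
            apply pow_le_pow_left₀ (by norm_num); norm_num
        _ = ((40 : ℚ) / 27) ^ D * ((40 : ℚ) / 27) ^ D := by rw [mul_pow]
        _ ≤ (E.card : ℚ) * E'.card := mul_le_mul hEcard hEcard' (by positivity) (by positivity)
    exact_mod_cast h1
  · intro ε hε i hi
    have := hσ ε (hEsub hε) i
    rwa [(Finset.mem_filter.1 hi).2.1] at this
  · intro ε hε i hi
    have := hσ' ε (hEsub' hε) i
    rwa [(Finset.mem_filter.1 hi).2.2] at this
  · intro ε hε ε' hε' hne
    obtain ⟨i, h1, h2⟩ := exists_diff a hinj ε ε' hne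
    exact ⟨i, hEI ε hε ε' hε' i h1, h2⟩
  · intro ε hε ε' hε' hne
    obtain ⟨i, h1, h2⟩ := exists_diff_rev a' hinj' ε ε' hne
    exact ⟨i, hEI' ε hε ε' hε' i h1, h2⟩

end Pool.Agent.Helper11.Gap
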