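import Pool.Agent.Helper11.Gap.MainOne
import Pool.Agent.Helper11.Gap.Pattern

/-!
# The second case
-/

namespace Pool.Agent.Helper11.Gap

open Pointwise
open scoped commutatorElement

variable {G : Type*} [Group G] {K : Type*} [Field K]
variable {Γ₀ : Type*} [LinearOrderedCommGroupWithZero Γ₀]

namespace AffRep

variable {N : Subgroup G} (R : AffRep N K)

theorem χ_pow {a : G} (ha : a ∈ N) (k : ℕ) : R.χ (a ^ k) = R.χ a ^ k := by
  induction k with
  | zero => rw [pow_zero, pow_zero, R.χ_one]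
  | succ k ih => rw [pow_succ, pow_succ, R.χ_mul _ (N.pow_mem ha k) _ ha, ih]

theorem χ_zpow {a : G} (ha : a ∈ N) (k : ℤ) : R.χ (a ^ k) = R.χ a ^ k := by
  rcases Int.natAbs_eq k with h | h
  · rw [h, zpow_natCast, zpow_natCast, R.χ_pow ha]
  · rw [h, zpow_neg, zpow_neg, zpow_natCast, zpow_natCast, R.χ_inv (N.pow_mem ha _), R.χ_pow ha]

theorem fix_pow {a : G} (ha : a ∈ N) {z : K} (h : R.act a z = z) (k : ℕ) :
    R.act (a ^ k) z = z := by
  induction k with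
  | zero => rw [pow_zero, R.act_one]
  | succ k ih => rw [pow_succ]; exact R.fix_mul (N.pow_mem ha k) ha ih h

theorem fix_zpow {a : G} (ha : a ∈ N) {z : K} (h : R.act a z = z) (k : ℤ) :
    R.act (a ^ k) z = z := by
  rcases Int.natAbs_eq k with h1 | h1
  · rw [h1, zpow_natCast]; exact R.fix_pow ha h _
  · rw [h1, zpow_neg, zpow_natCast]; exact R.fix_inv (N.pow_mem ha _) (R.fix_pow ha h _)

/-- Moving the place by an element of `N` fixing `o`. -/
theorem at'_mul_fix_iff [hN : N.Normal] {u n z : G} (hn : n ∈ N) (hz : z ∈ N) {o : K}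
    (ho : R.act n o = o) : (R.at' (u * n)).act z o = o ↔ (R.at' u).act z o = o := by
  have hzu : u⁻¹ * z * u ∈ N := by
    have := hN.conj_mem z hz u⁻¹
    rwa [inv_inv] at this
  have e : (R.at' (u * n)).act z o = R.act n⁻¹ (R.act (u⁻¹ * z * u) (R.act n o)) := by
    rw [← R.act_mul hzu hn, ← R.act_mul (N.inv_mem hn) (N.mul_mem hzu hn), at'_act]
    congr 1
    group
  rw [e, ho, at'_act]
  constructor
  · intro h
    have h1 := congrArg (R.act n) h
    rw [R.act_act_inv hn, ho] at h1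
    exact h1
  · intro h
    rw [h]
    exact R.fix_inv hn ho

end AffRep

theorem conj_mem' {N : Subgroup G} [hN : N.Normal] {z : G} (hz : z ∈ N) (g : G) :
    g⁻¹ * z * g ∈ N := by
  have := hN.conj_mem z hz g⁻¹
  rwa [inv_inv] at this

/-- One swap. -/
theorem swap_step [DecidableEq G] {T : Finset G} (hT : Sym T) (R : AffRep (commutator G) K)
    (v : Valuation K Γ₀) (d e : ℕ) (he : e < 2 * d)
    (hfix : FixProp T R v d) (h x x' : G) (hx : IsX T x) (hx' : IsX T x') (hh : Hyp R v h x)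
    (a₁ a₂ : ℕ) (p : G) (hp : p ∈ T ^ a₁) (q : G) (hq : q ∈ T ^ a₂) (a : G) (ha : a ∈ T) (b : G)
    (hb : b ∈ T) (hlen : a₁ + a₂ + 2 = e)
    (hQ : Hyp R v (p * (a * b) * q * h) x' ∧
      (R.at' (p * (a * b) * q * h)).act x' ((R.at' h).ctr x) ≠ (R.at' h).ctr x) :
    Hyp R v (p * (b * a) * q * h) x' ∧
      (R.at' (p * (b * a) * q * h)).act x' ((R.at' h).ctr x) ≠ (R.at' h).ctr x := by
  obtain ⟨hQ1, hQ2⟩ := hQ
  set o := (R.at' h).ctr x with ho
  set w := p * (a * b) * q with hw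
  set w' := p * (b * a) * q with hw'
  -- right form
  have hcX : IsX T ⁅b⁻¹, a⁻¹⁆ := ⟨_, hT.inv b hb, _, hT.inv a ha, rfl⟩
  have ecR : w' * h = (w * h) * ((q * h)⁻¹ * ⁅b⁻¹, a⁻¹⁆ * (q * h)) := by
    rw [hw, hw', commutatorElement_def]; group
  have hκN : (q * h)⁻¹ * ⁅b⁻¹, a⁻¹⁆ * (q * h) ∈ commutator G := conj_mem' hcX.mem _
  have hyp' : Hyp R v (w' * h) x' := by
    rw [Hyp, ecR, R.at'_χ_mul_mem _ _ hκN hx'.mem]
    exact hQ1
  refine ⟨hyp', ?_⟩
  rcases lt_or_ge a₂ d with h2 | h2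
  · have hfixo := hfix h x _ q a₂ hx hcX hh hq h2
    rw [AffRep.at'_act] at hfixo
    intro hcon
    rw [ecR, R.at'_mul_fix_iff hκN hx'.mem hfixo] at hcon
    exact hQ2 hcon
  · have h1 : a₁ < d := by omega
    have hcX' : IsX T ⁅b, a⁆ := ⟨_, hb, _, ha, rfl⟩
    have ecL : w' * h = (w * h) * ((p⁻¹ * (w * h))⁻¹ * ⁅b, a⁆ * (p⁻¹ * (w * h))) := by
      rw [hw, hw', commutatorElement_def]; group
    have hκN' : (p⁻¹ * (w * h))⁻¹ * ⁅b, a⁆ * (p⁻¹ * (w * h)) ∈ commutator G :=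
      conj_mem' hcX'.mem _
    have hfixo' := hfix (w * h) x' _ p⁻¹ a₁ hx' hcX' hQ1 (hT.inv_mem_pow hp) h1
    rw [AffRep.at'_act] at hfixo'
    intro hcon
    -- `x'` at `w' h` fixes both `o` and the center at `w h`
    have h3 : (R.at' (w' * h)).act x' ((R.at' (w * h)).ctr x') = (R.at' (w * h)).ctr x' := by
      rw [ecL, R.at'_mul_fix_iff hκN' hx'.mem hfixo']
      exact (R.at' (w * h)).act_ctr hQ1.ne_one
    have h4 := (R.at' (w' * h)).fix_unique hyp'.ne_one hcon h3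
    rw [h4] at hQ2
    exact hQ2 ((R.at' (w * h)).act_ctr hQ1.ne_one)

/-- The exponent attached to a digit. -/
def ex {d : ℕ} (ε : Fin d → Fin 81) (t : ℕ) : ℤ :=
  if ht : t < d then ((ε ⟨t, ht⟩ : ℕ) : ℤ) - 40 else 0

theorem ex_natAbs_le {d : ℕ} (ε : Fin d → Fin 81) (t : ℕ) : (ex ε t).natAbs ≤ 40 := by
  rw [ex]
  split_ifs with h
  · have := (ε ⟨t, h⟩).isLt
    omega
  · simp

theorem ex_inj {d : ℕ} (ε ε' : Fin d → Fin 81) (i : Fin d) (h : ex ε i = ex ε' i) :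
    ε i = ε' i := by
  rw [ex, ex, dif_pos i.isLt, dif_pos i.isLt] at h
  apply Fin.ext
  have : ((ε i : ℕ) : ℤ) = ((ε' i : ℕ) : ℤ) := by
    simpa using h
  exact_mod_cast this

theorem ex_congr {d : ℕ} (ε ε' : Fin d → Fin 81) (t : ℕ) (ht : t < d) (h : ε ⟨t, ht⟩ = ε' ⟨t, ht⟩) :
    ex ε t = ex ε' t := by
  rw [ex, ex, dif_pos ht, dif_pos ht, h]

section weights

/-- The valuation of the product. -/
noncomputable def wt (C : ℕ → ℕ → Γ₀) (d : ℕ) (ε : Fin d → Fin 81) (i : Fin d) : Γ₀ :=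
  ∏ t ∈ Finset.range d, C i t ^ ex ε t

variable (C : ℕ → ℕ → Γ₀) (d : ℕ) (h0 : ∀ i t, C i t ≠ 0) (h1 : ∀ i < d, C i i ≠ 1)

include h0 h1 in
theorem wt_inj_aux (i : Fin d) (ε ε' : Fin d → Fin 81)
    (hrest : ∀ t < d, t ≠ i → C i t ^ ex ε t = C i t ^ ex ε' t) (hne : ε i ≠ ε' i) :
    wt C d ε i ≠ wt C d ε' i := by
  intro heq
  rw [wt, wt, ← Finset.mul_prod_erase (Finset.range d) _ (Finset.mem_range.2 i.isLt),
    ← Finset.mul_prod_erase (Finset.range d) (fun t => C i t ^ ex ε' t)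
      (Finset.mem_range.2 i.isLt)] at heq
  have e : ∏ t ∈ (Finset.range d).erase i, C i t ^ ex ε t =
      ∏ t ∈ (Finset.range d).erase i, C i t ^ ex ε' t := by
    apply Finset.prod_congr rfl
    intro t ht
    rw [Finset.mem_erase, Finset.mem_range] at ht
    exact hrest t ht.2 ht.1
  rw [e] at heq
  have hP : ∏ t ∈ (Finset.range d).erase i, C i t ^ ex ε' t ≠ 0 := by
    rw [Finset.prod_ne_zero_iff]
    intro t _
    exact zpow_ne_zero _ (h0 _ _)
  have h3 := mul_right_cancel₀ hP heq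
  have h4 := zpow_right_injective₀ (zero_lt_iff.2 (h0 i i)) (h1 i i.isLt) h3
  exact hne (ex_inj ε ε' i h4)

theorem wt_dep (hC : ∀ i t, i < t → t < d → C i t = 1) (i : Fin d) (ε ε' : Fin d → Fin 81)
    (h : ∀ t ≤ i, ε t = ε' t) : wt C d ε i = wt C d ε' i := by
  apply Finset.prod_congr rfl
  intro t ht
  rw [Finset.mem_range] at ht
  rcases le_or_gt t i with h2 | h2
  · rw [ex_congr ε ε' t ht (h ⟨t, ht⟩ h2)]
  · rw [hC i t h2 ht, one_zpow, one_zpow]

theorem wt_dep' (hC : ∀ i t, t < i → i < d → C i t = 1) (i : Fin d) (ε ε' : Fin d → Fin 81)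
    (h : ∀ t, i ≤ t → ε t = ε' t) : wt C d ε i = wt C d ε' i := by
  apply Finset.prod_congr rfl
  intro t ht
  rw [Finset.mem_range] at ht
  rcases le_or_gt (i : ℕ) t with h2 | h2
  · rw [ex_congr ε ε' t ht (h ⟨t, ht⟩ h2)]
  · rw [hC i t h2 i.isLt, one_zpow, one_zpow]

include h0 h1 in
theorem wt_inj (hC : ∀ i t, i < t → t < d → C i t = 1) (i : Fin d) (ε ε' : Fin d → Fin 81)
    (h : ∀ t < i, ε t = ε' t) (hne : ε i ≠ ε' i) : wt C d ε i ≠ wt C d ε' i := by
  apply wt_inj_aux C d h0 h1 i ε ε' _ hne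
  intro t ht hti
  rcases lt_or_gt_of_ne hti with h2 | h2
  · rw [ex_congr ε ε' t ht (h ⟨t, ht⟩ h2)]
  · rw [hC i t h2 ht, one_zpow, one_zpow]

include h0 h1 in
theorem wt_inj' (hC : ∀ i t, t < i → i < d → C i t = 1) (i : Fin d) (ε ε' : Fin d → Fin 81)
    (h : ∀ t, i < t → ε t = ε' t) (hne : ε i ≠ ε' i) : wt C d ε i ≠ wt C d ε' i := by
  apply wt_inj_aux C d h0 h1 i ε ε' _ hne
  intro t ht hti
  rcases lt_or_gt_of_ne hti with h2 | h2
  · rw [hC i t h2 i.isLt, one_zpow, one_zpow]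
  · rw [ex_congr ε ε' t ht (h ⟨t, ht⟩ h2)]

end weights

theorem ins_commutator_mem {ℓ : ℕ → G} {z : G} (hz : z ∈ commutator G) (s : ℕ) (f : ℕ → ℤ)
    (n : ℕ) : ins ℓ s (fun t => z ^ f t) n ∈ commutator G := by
  induction n with
  | zero => exact Subgroup.one_mem _
  | succ n ih =>
    rw [ins_succ]
    exact Subgroup.mul_mem _ (conj_mem' (Subgroup.zpow_mem _ hz _) _) ih

theorem ins_v (R : AffRep (commutator G) K) (v : Valuation K Γ₀) {ℓ : ℕ → G} {z : G}
    (hz : z ∈ commutator G) (s : ℕ) (f : ℕ → ℤ) (n : ℕ) :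
    v (R.χ (ins ℓ s (fun t => z ^ f t) n)) =
      ∏ t ∈ Finset.range n, v (R.χ ((pth ℓ (t + s))⁻¹ * z * pth ℓ (t + s))) ^ f t := by
  induction n with
  | zero => simp [ins, R.χ_one]
  | succ n ih =>
    rw [ins_succ, Finset.prod_range_succ, ← ih]
    have e : (pth ℓ (n + s))⁻¹ * z ^ f n * pth ℓ (n + s) =
        ((pth ℓ (n + s))⁻¹ * z * pth ℓ (n + s)) ^ f n := by
      have := conj_zpow (i := f n) (a := (pth ℓ (n + s))⁻¹) (b := z)
      rw [inv_inv] at this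
      exact this.symm
    have hm := conj_mem' hz (pth ℓ (n + s))
    rw [e, R.χ_mul _ (Subgroup.zpow_mem _ hm _) _ (ins_commutator_mem hz s f n), map_mul,
      R.χ_zpow hm, map_zpow₀, mul_comm]

theorem ins_fix (R : AffRep (commutator G) K) {ℓ : ℕ → G} {z : G}
    (hz : z ∈ commutator G) (s : ℕ) (f : ℕ → ℤ) (n : ℕ) (o : K)
    (h : ∀ t < n, R.act ((pth ℓ (t + s))⁻¹ * z * pth ℓ (t + s)) o = o) :
    R.act (ins ℓ s (fun t => z ^ f t) n) o = o := by
  induction n with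
  | zero => exact R.act_one o
  | succ n ih =>
    rw [ins_succ]
    have e : (pth ℓ (n + s))⁻¹ * z ^ f n * pth ℓ (n + s) =
        ((pth ℓ (n + s))⁻¹ * z * pth ℓ (n + s)) ^ f n := by
      have := conj_zpow (i := f n) (a := (pth ℓ (n + s))⁻¹) (b := z)
      rw [inv_inv] at this
      exact this.symm
    have hm := conj_mem' hz (pth ℓ (n + s))
    rw [e]
    exact R.fix_mul (Subgroup.zpow_mem _ hm _) (ins_commutator_mem hz s f n)
      (R.fix_zpow hm (h n (Nat.lt_succ_self n)) _) (ih (fun t ht => h t (by omega)))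

theorem insU_mem [DecidableEq G] {T : Finset G} (hT : Sym T) {x : G} (hx : IsX T x) {ℓ : ℕ → G}
    (hℓ : ∀ t, ℓ t ∈ T) (s : ℕ) {d : ℕ} (ε : Fin d → Fin 81) (N M : ℕ) (hM : 40 ≤ M)
    (hN : (d + s) + (s + d * (4 * M + 1)) ≤ N) :
    ins ℓ s (fun t => x ^ ex ε t) d ∈ T ^ N := by
  have hz : ∀ t, x ^ ex ε t ∈ T ^ (4 * M) := by
    intro t
    exact hT.zpow_mem_pow (hx.mem_pow hT) (ex ε t) M ((ex_natAbs_le ε t).trans hM)
  exact hT.mono hN (ins_mem hT hℓ s (z := fun t => x ^ ex ε t) hz d)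

/-- Inverting or not. -/
def flip' (s : Bool) (g : G) : G := if s then g else g⁻¹

theorem mainTwo [DecidableEq G] {T : Finset G} (hT : Sym T) (R : AffRep (commutator G) K)
    (v : Valuation K Γ₀) (d e : ℕ) (hd1 : 1 ≤ d) (hde : d ≤ e) (he : e < 2 * d)
    (hfix : FixProp T R v d) (hhyp : HypProp T R v e) (h x x' : G) (hx : IsX T x)
    (hx' : IsX T x') (hh : Hyp R v h x) {ℓ : ℕ → G} (hℓ : ∀ t, ℓ t ∈ T)
    (hper : ∀ t, ℓ (t + e) = ℓ t) (hh' : Hyp R v (pth ℓ e * h) x')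
    (hne : (R.at' (pth ℓ e * h)).ctr x' ≠ (R.at' h).ctr x) : Big T := by
  classical
  set o := (R.at' h).ctr x with ho
  -- all cyclic shifts
  have hQall : ∀ i : ℕ, Hyp R v (pth ℓ (i + e) * (pth ℓ i)⁻¹ * h) x' ∧
      (R.at' (pth ℓ (i + e) * (pth ℓ i)⁻¹ * h)).act x' o ≠ o := by
    intro i
    have h0 : Hyp R v (pth ℓ e * h) x' ∧ (R.at' (pth ℓ e * h)).act x' o ≠ o := by
      refine ⟨hh', fun hcon => hne ?_⟩
      exact ((R.at' (pth ℓ e * h)).eq_ctr hh'.ne_one hcon).symm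
    have hrot := rotate_path hT
      (fun w => Hyp R v (w * h) x' ∧ (R.at' (w * h)).act x' o ≠ o) e (by omega)
      (by
        intro a₁ a₂ p hp q hq a ha b hb hlen
        constructor
        · exact swap_step hT R v d e he hfix h x x' hx hx' hh a₁ a₂ p hp q hq a ha b hb hlen
        · exact swap_step hT R v d e he hfix h x x' hx hx' hh a₁ a₂ p hp q hq b hb a ha hlen)
      hℓ hper i
    exact hrot.2 h0
  set o' : ℕ → K := fun i => (R.at' (pth ℓ (i + e) * (pth ℓ i)⁻¹ * h)).ctr x' with ho'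
  have hoo : ∀ i, o ≠ o' i := by
    intro i hcon
    apply (hQall i).2
    rw [hcon]
    exact (R.at' _).act_ctr (hQall i).1.ne_one
  set Ri : ℕ → AffRep (commutator G) K := fun i => R.at' ((pth ℓ i)⁻¹ * h) with hRi
  -- fixing properties
  have hXfix : ∀ i < d, ∀ t < d, (Ri i).act ((pth ℓ (t + 0))⁻¹ * x * pth ℓ (t + 0)) o = o := by
    intro i hi t ht
    rw [hRi, add_zero]
    simp only
    rw [conv_act]
    exact hfix h x x _ (d - 1) hx hx hh (pth_seg_mem' hT hℓ (by omega) (by omega)) (by omega)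
  have hX'fix : ∀ i < d, ∀ t < d,
      (Ri i).act ((pth ℓ (t + e))⁻¹ * x' * pth ℓ (t + e)) (o' i) = o' i := by
    intro i hi t ht
    rw [hRi]
    simp only
    rw [conv_act]
    have := hfix (pth ℓ (i + e) * (pth ℓ i)⁻¹ * h) x' x' (pth ℓ (t + e) * (pth ℓ (i + e))⁻¹)
      (d - 1) hx' hx' (hQall i).1 (pth_seg_mem' hT hℓ (by omega) (by omega)) (by omega)
    have e1 : pth ℓ (t + e) * (pth ℓ (i + e))⁻¹ * (pth ℓ (i + e) * (pth ℓ i)⁻¹ * h) =
        pth ℓ (t + e) * (pth ℓ i)⁻¹ * h := by group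
    rwa [e1] at this
  -- weights
  set C : ℕ → ℕ → Γ₀ := fun i t => v ((R.at' (pth ℓ t * (pth ℓ i)⁻¹ * h)).χ x) with hC
  set C' : ℕ → ℕ → Γ₀ := fun i t => v ((R.at' (pth ℓ (t + e) * (pth ℓ i)⁻¹ * h)).χ x') with hC'
  have hC0 : ∀ i t, C i t ≠ 0 := fun i t =>
    v.ne_zero_iff.2 ((R.at' _).χ_ne_zero hx.mem)
  have hC0' : ∀ i t, C' i t ≠ 0 := fun i t =>
    v.ne_zero_iff.2 ((R.at' _).χ_ne_zero hx'.mem)
  have hC1 : ∀ i < d, C i i ≠ 1 := by
    intro i _
    rw [hC]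
    simp only
    rw [mul_inv_cancel, one_mul]
    exact hh
  have hC1' : ∀ i < d, C' i i ≠ 1 := fun i _ => (hQall i).1
  have hCtri : ∀ i t, i < t → t < d → C i t = 1 := by
    intro i t hit htd
    by_contra hcon
    have hyp1 : Hyp R v (pth ℓ t * (pth ℓ i)⁻¹ * h) x := hcon
    have h1 := hfix h x x (pth ℓ t * (pth ℓ i)⁻¹) (d - 1) hx hx hh
      (pth_seg_mem' hT hℓ (by omega) (by omega)) (by omega)
    have h2 := (R.at' (pth ℓ t * (pth ℓ i)⁻¹ * h)).eq_ctr hyp1.ne_one h1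
    have e1 : pth ℓ (i + e) * (pth ℓ t)⁻¹ * (pth ℓ t * (pth ℓ i)⁻¹ * h) =
        pth ℓ (i + e) * (pth ℓ i)⁻¹ * h := by group
    have h3 := hhyp (pth ℓ t * (pth ℓ i)⁻¹ * h) x x' (pth ℓ (i + e) * (pth ℓ t)⁻¹)
      (e - 1) hx hx' hyp1 (by rw [e1]; exact (hQall i).1)
      (pth_seg_mem' hT hℓ (by omega) (by omega)) (by omega)
    rw [e1, ← h2] at h3
    exact hoo i h3.symm
  have hCtri' : ∀ i t, t < i → i < d → C' i t = 1 := by
    intro i t hti hid
    by_contra hcon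
    have hyp1 : Hyp R v (pth ℓ (t + e) * (pth ℓ i)⁻¹ * h) x' := hcon
    have h1 := hhyp h x x' (pth ℓ (t + e) * (pth ℓ i)⁻¹) (e - 1) hx hx' hh hyp1
      (pth_seg_mem' hT hℓ (by omega) (by omega)) (by omega)
    have h2 := hX'fix i hid t (by omega)
    rw [hRi] at h2
    simp only at h2
    rw [conv_act] at h2
    have h3 := (R.at' (pth ℓ (t + e) * (pth ℓ i)⁻¹ * h)).eq_ctr hyp1.ne_one h2
    rw [h1] at h3
    exact hoo i h3.symm
  obtain ⟨I, s, s', E, E', hcard, hE, hE', hdis, hdis'⟩ := pigeonhole (1 : Γ₀) d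
    (fun ε i => wt C d ε i) (fun ε i => wt C' d ε i)
    (wt_dep C d hCtri) (wt_inj C d hC0 hC1 hCtri)
    (wt_dep' C' d hCtri') (wt_inj' C' d hC0' hC1' hCtri')
  set U : (Fin d → Fin 81) → G := fun ε => ins ℓ 0 (fun t => x ^ ex ε t) d with hU
  set U' : (Fin d → Fin 81) → G := fun ε => ins ℓ e (fun t => x' ^ ex ε t) d with hU'
  have hUN : ∀ ε, U ε ∈ commutator G := fun ε => ins_commutator_mem hx.mem 0 _ d
  have hUN' : ∀ ε, U' ε ∈ commutator G := fun ε => ins_commutator_mem hx'.mem e _ d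
  have hUv : ∀ ε, ∀ i : Fin d, v ((Ri i).χ (U ε)) = wt C d ε i := by
    intro ε i
    rw [hU]
    simp only
    rw [ins_v (Ri i) v hx.mem, wt]
    apply Finset.prod_congr rfl
    intro t _
    rw [hRi, hC, add_zero]
    simp only
    rw [conv_χ]
  have hUv' : ∀ ε, ∀ i : Fin d, v ((Ri i).χ (U' ε)) = wt C' d ε i := by
    intro ε i
    rw [hU']
    simp only
    rw [ins_v (Ri i) v hx'.mem, wt]
    apply Finset.prod_congr rfl
    intro t _
    rw [hRi, hC']
    simp only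
    rw [conv_χ]
  have hUfix : ∀ ε, ∀ i : Fin d, (Ri i).act (U ε) o = o := fun ε i =>
    ins_fix (Ri i) hx.mem 0 _ d o (fun t ht => hXfix i i.isLt t ht)
  have hUfix' : ∀ ε, ∀ i : Fin d, (Ri i).act (U' ε) (o' i) = o' i := fun ε i =>
    ins_fix (Ri i) hx'.mem e _ d (o' i) (fun t ht => hX'fix i i.isLt t ht)
  have hUlen : ∀ ε, U ε ∈ T ^ (162 * d) := by
    intro ε
    exact insU_mem hT hx hℓ 0 ε (162 * d) 40 le_rfl (by omega)
  have hUlen' : ∀ ε, U' ε ∈ T ^ (166 * d) := by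
    intro ε
    exact insU_mem hT hx' hℓ e ε (166 * d) 40 le_rfl (by omega)
  -- general facts on `flip'`
  have flipN : ∀ (b : Bool) (g : G), g ∈ commutator G → flip' b g ∈ commutator G := by
    intro b g hg
    cases b
    · exact Subgroup.inv_mem _ hg
    · exact hg
  have fliplen : ∀ (b : Bool) (g : G) (m : ℕ), g ∈ T ^ m → flip' b g ∈ T ^ m := by
    intro b g m hg
    cases b
    · exact hT.inv_mem_pow hg
    · exact hg
  have flipfix : ∀ (b : Bool) (g : G) (i : Fin d) (z : K), g ∈ commutator G →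
      (Ri i).act g z = z → (Ri i).act (flip' b g) z = z := by
    intro b g i z hg hz
    cases b
    · exact (Ri i).fix_inv hg hz
    · exact hz
  have flipv : ∀ (b : Bool) (g : G) (i : Fin d), g ∈ commutator G →
      sgn b 1 (v ((Ri i).χ g)) → v ((Ri i).χ (flip' b g)) < 1 := by
    intro b g i hg hz
    cases b
    · have hz' : 1 < v ((Ri i).χ g) := by simpa [sgn] using hz
      change v ((Ri i).χ g⁻¹) < 1
      rw [(Ri i).χ_inv hg, map_inv₀]
      exact inv_lt_one_of_one_lt₀ hz'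
    · have hz' : v ((Ri i).χ g) < 1 := by simpa [sgn] using hz
      exact hz'
  have flipne : ∀ (b : Bool) (g g' : G) (i : Fin d), g ∈ commutator G → g' ∈ commutator G →
      v ((Ri i).χ g) ≠ v ((Ri i).χ g') →
      v ((Ri i).χ (flip' b g)) ≠ v ((Ri i).χ (flip' b g')) := by
    intro b g g' i hg hg' hz
    cases b
    · change v ((Ri i).χ g⁻¹) ≠ v ((Ri i).χ g'⁻¹)
      rw [(Ri i).χ_inv hg, (Ri i).χ_inv hg', map_inv₀, map_inv₀]
      exact fun hc => hz (inv_injective hc)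
    · exact hz
  have hfree := caseTwo (N := commutator G) v (I : Set (Fin d)) (fun i => Ri i) (fun _ => o)
    (fun i => o' i) (fun i _ => hoo i) (fun ε => flip' s (U ε)) (fun ε => flip' s' (U' ε))
    (fun ε => flipN s _ (hUN ε)) (fun ε => flipN s' _ (hUN' ε)) (E : Set (Fin d → Fin 81))
    (E' : Set (Fin d → Fin 81))
    (by
      intro i hi ε hε
      refine ⟨flipfix s _ i o (hUN ε) (hUfix ε i), flipv s _ i (hUN ε) ?_⟩
      rw [hUv]
      exact hE ε hε i hi)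
    (by
      intro i hi ε hε
      refine ⟨flipfix s' _ i (o' i) (hUN' ε) (hUfix' ε i), flipv s' _ i (hUN' ε) ?_⟩
      rw [hUv']
      exact hE' ε hε i hi)
    (by
      intro ε hε ε' hε' hne2
      obtain ⟨i, hi, hw⟩ := hdis ε hε ε' hε' hne2
      refine ⟨i, hi, flipne s _ _ i (hUN ε) (hUN ε') ?_⟩
      rw [hUv, hUv]
      exact hw)
    (by
      intro ε hε ε' hε' hne2
      obtain ⟨i, hi, hw⟩ := hdis' ε hε ε' hε' hne2
      refine ⟨i, hi, flipne s' _ _ i (hUN' ε) (hUN' ε') ?_⟩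
      rw [hUv', hUv']
      exact hw)
  have hgrow := card_pow_of_free (T := T)
    (fun p : (Fin d → Fin 81) × (Fin d → Fin 81) => flip' s (U p.1) * flip' s' (U' p.2))
    (E ×ˢ E') (328 * d) (by
      intro p _
      have := mul_mem_pow (fliplen s _ _ (hUlen p.1)) (fliplen s' _ _ (hUlen' p.2))
      exact hT.mono (by omega) this) (by
      intro L L' hL hL' hlen heq
      refine hfree L L' ?_ ?_ hlen heq
      · intro p hp
        have := hL p hp
        rwa [Finset.mem_product] at this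
      · intro p hp
        have := hL' p hp
        rwa [Finset.mem_product] at this)
  refine ⟨328 * d, (E ×ˢ E').card, by omega, hgrow, ?_⟩
  rw [Finset.card_product, mul_comm 328 d, pow_mul]
  exact Nat.pow_le_pow_left hcard 328

end Pool.Agent.Helper11.Gap
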