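import Mathlib

/-!
# Milnor's argument for pairs of words

This file is copied from `Pool/Agent/Helper2/Gap/Milnor.lean`.
-/

namespace Pool.Agent.Helper11.Gap

open Pointwise

/-- The conjugates `x^i a x^{-i}`. -/
def cj {G : Type*} [Group G] (x a : G) (i : ℕ) : G := x ^ i * a * (x ^ i)⁻¹

/-- The subgroup generated by the first `n` conjugates. -/
def FF {G : Type*} [Group G] (x a : G) (n : ℕ) : Subgroup G :=
  Subgroup.closure ((fun i => cj x a i) '' Set.Iio n)

theorem cj_mem_FF {G : Type*} [Group G] (x a : G) {i n : ℕ} (h : i < n) : cj x a i ∈ FF x a n :=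
  Subgroup.subset_closure ⟨i, h, rfl⟩

theorem FF_mono {G : Type*} [Group G] (x a : G) {m n : ℕ} (h : m ≤ n) : FF x a m ≤ FF x a n := by
  apply Subgroup.closure_mono
  apply Set.image_mono
  exact Set.Iio_subset_Iio h

/-- The product of the letters `x` and `a * x` prescribed by a list of booleans. -/
def wd {G : Type*} [Group G] (x a : G) (l : List Bool) : G :=
  (l.map (fun b => if b then a * x else x)).prod

theorem wd_nil {G : Type*} [Group G] (x a : G) : wd x a [] = 1 := rfl

theorem wd_append {G : Type*} [Group G] (x a : G) (l : List Bool) (b : Bool) :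
    wd x a (l ++ [b]) = wd x a l * (if b then a * x else x) := by
  simp [wd]

theorem wd_eq {G : Type*} [Group G] (x a : G) (l : List Bool) :
    ∃ e ∈ FF x a l.length, wd x a l = e * x ^ l.length := by
  induction l using List.reverseRecOn with
  | nil => exact ⟨1, Subgroup.one_mem _, by simp [wd]⟩
  | append_singleton l b ih =>
    obtain ⟨e, he, h⟩ := ih
    rw [wd_append, h, List.length_append, List.length_singleton]
    have hmono := FF_mono x a (Nat.le_succ l.length)
    cases b with
    | false => exact ⟨e, hmono he, by simp [pow_succ, mul_assoc]⟩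
    | true =>
      refine ⟨e * cj x a l.length, Subgroup.mul_mem _ (hmono he) (cj_mem_FF x a (Nat.lt_succ_self _)),
        ?_⟩
      simp only [cj, if_true, pow_succ]
      group

/-- If no conjugate lies in the subgroup generated by the previous ones, then words of the same
length in `x` and `a * x` are distinct. -/
theorem wd_injective {G : Type*} [Group G] (x a : G) (h : ∀ n, cj x a n ∉ FF x a n) :
    ∀ (n : ℕ) (l l' : List Bool), l.length = n → l'.length = n → wd x a l = wd x a l' →
      l = l' := by
  intro n
  induction n with
  | zero =>
    intro l l' hl hl' _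
    rw [List.length_eq_zero_iff] at hl hl'
    rw [hl, hl']
  | succ n ih =>
    intro l l' hl hl' hw
    obtain ⟨l₁, b, rfl⟩ : ∃ l₁ b, l = l₁ ++ [b] := by
      have hne : l ≠ [] := by
        intro h0; rw [h0] at hl; simp at hl
      exact ⟨l.dropLast, l.getLast hne, (List.dropLast_append_getLast hne).symm⟩
    obtain ⟨l₂, c, rfl⟩ : ∃ l₂ c, l' = l₂ ++ [c] := by
      have hne : l' ≠ [] := by
        intro h0; rw [h0] at hl'; simp at hl'
      exact ⟨l'.dropLast, l'.getLast hne, (List.dropLast_append_getLast hne).symm⟩
    have h1 : l₁.length = n := by simpa using hl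
    have h2 : l₂.length = n := by simpa using hl'
    rw [wd_append, wd_append] at hw
    obtain ⟨e, he, hwe⟩ := wd_eq x a l₁
    obtain ⟨f, hf, hwf⟩ := wd_eq x a l₂
    rw [h1] at he hwe
    rw [h2] at hf hwf
    have key : ∀ (e f : G), e ∈ FF x a n → f ∈ FF x a n → e * x ^ n * (a * x) = f * x ^ n * x →
        False := by
      intro e f he hf hef
      apply h n
      have : cj x a n = e⁻¹ * f := by
        have h3 : e * x ^ n * a = f * x ^ n := by
          have : e * x ^ n * a * x = f * x ^ n * x := by rw [← hef]; group
          exact mul_right_cancel this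
        have h4 : x ^ n * a = e⁻¹ * f * x ^ n := by
          rw [mul_assoc e⁻¹, ← h3]; group
        rw [cj, h4]; group
      rw [this]
      exact Subgroup.mul_mem _ (Subgroup.inv_mem _ he) hf
    cases b with
    | false =>
      cases c with
      | false =>
        simp only [Bool.false_eq_true, if_false] at hw
        rw [ih l₁ l₂ h1 h2 (mul_right_cancel hw)]
      | true =>
        exfalso
        simp only [Bool.false_eq_true, if_false, if_true] at hw
        rw [hwe, hwf] at hw
        exact key f e hf he hw.symm
    | true =>
      cases c with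
      | false =>
        exfalso
        simp only [Bool.false_eq_true, if_false, if_true] at hw
        rw [hwe, hwf] at hw
        exact key e f he hf hw
      | true =>
        simp only [if_true] at hw
        rw [ih l₁ l₂ h1 h2 (mul_right_cancel hw)]

theorem wd_mem_pow {G : Type*} [Group G] [DecidableEq G] (x a : G) (T : Finset G) (hx : x ∈ T)
    (hax : a * x ∈ T) (l : List Bool) : wd x a l ∈ T ^ l.length := by
  induction l using List.reverseRecOn with
  | nil => simp [wd]
  | append_singleton l b ih =>
    rw [wd_append, List.length_append, List.length_singleton, pow_succ]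
    apply Finset.mul_mem_mul ih
    cases b
    · simpa using hx
    · simpa using hax

theorem two_pow_le_card {G : Type*} [Group G] [DecidableEq G] (x a : G) (T : Finset G)
    (hx : x ∈ T) (hax : a * x ∈ T) (h : ∀ n, cj x a n ∉ FF x a n) (n : ℕ) :
    2 ^ n ≤ (T ^ n).card := by
  have hinj : Function.Injective (fun v : List.Vector Bool n => wd x a v.1) := by
    intro v w hvw
    exact Subtype.ext (wd_injective x a h n v.1 w.1 v.2 w.2 hvw)
  have hcard : Fintype.card (List.Vector Bool n) = 2 ^ n := by
    rw [card_vector, Fintype.card_bool]
  rw [← hcard, ← Finset.card_univ]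
  apply Finset.card_le_card_of_injOn (fun v : List.Vector Bool n => wd x a v.1)
  · intro v _
    have := wd_mem_pow x a T hx hax v.1
    rw [v.2] at this
    exact this
  · exact hinj.injOn

end Pool.Agent.Helper11.Gap
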